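import Pool.Agent.H38.ML.Spec

/-!
# H57-MP-ORD: elements of least index of prime power order have prime order
-/

set_option autoImplicit false

open scoped Classical

noncomputable section

namespace H57.MP

open H38.ML.Spec

theorem ord_step {n : ℕ} {p : ℕ} (hp : p.Prime) (g : Equiv.Perm (Fin n)) (k : ℕ)
    (hg : g ^ p ^ k = 1) (h1 : g ^ p ≠ 1) : ind (g ^ p) < ind g := by
  have hle : Subgroup.zpowers (g ^ p) ≤ Subgroup.zpowers g := by
    rw [Subgroup.zpowers_le]
    exact Subgroup.pow_mem _ (Subgroup.mem_zpowers g) p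
  have hrel : ∀ x y : Fin n, (MulAction.orbitRel (Subgroup.zpowers (g ^ p)) (Fin n)) x y →
      (MulAction.orbitRel (Subgroup.zpowers g) (Fin n)) x y := by
    rintro x y ⟨⟨a, ha⟩, h⟩
    exact ⟨⟨a, hle ha⟩, h⟩
  let F : MulAction.orbitRel.Quotient (Subgroup.zpowers (g ^ p)) (Fin n) →
      MulAction.orbitRel.Quotient (Subgroup.zpowers g) (Fin n) :=
    Quotient.map' id (fun x y h => hrel x y h)
  have hFs : Function.Surjective F := by
    intro q
    induction q using Quotient.inductionOn' with
    | h x => exact ⟨Quotient.mk'' x, rfl⟩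
  have hlt : Nat.card (MulAction.orbitRel.Quotient (Subgroup.zpowers g) (Fin n)) <
      Nat.card (MulAction.orbitRel.Quotient (Subgroup.zpowers (g ^ p)) (Fin n)) := by
    by_contra hcon
    have hinj : Function.Injective F := by
      have hb : Function.Bijective F := by
        have hc : Nat.card (MulAction.orbitRel.Quotient (Subgroup.zpowers g) (Fin n)) =
            Nat.card (MulAction.orbitRel.Quotient (Subgroup.zpowers (g ^ p)) (Fin n)) :=
          le_antisymm (Nat.card_le_card_of_surjective F hFs) (not_lt.1 hcon)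
        exact (Function.Surjective.bijective_of_nat_card_le hFs (le_of_eq hc.symm))
      exact hb.1
    apply h1
    have hg1 : g = 1 := by
      ext x
      have h2 : F (Quotient.mk'' (g x)) = F (Quotient.mk'' x) := by
        show (Quotient.mk'' (g x) : MulAction.orbitRel.Quotient (Subgroup.zpowers g) (Fin n)) =
          Quotient.mk'' x
        rw [Quotient.eq'']
        exact ⟨⟨g, Subgroup.mem_zpowers g⟩, rfl⟩
      have h3 := hinj h2
      rw [Quotient.eq''] at h3
      obtain ⟨⟨a, ha⟩, h4⟩ := h3
      obtain ⟨j, rfl⟩ := Subgroup.mem_zpowers_iff.1 ha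
      have h4' : ((g ^ p) ^ j) x = g x := h4
      have h5 : (g ^ ((p : ℤ) * j - 1)) x = x := by
        have : g ^ ((p : ℤ) * j - 1) = g⁻¹ * (g ^ p) ^ j := by
          rw [zpow_sub, zpow_mul, zpow_natCast, zpow_one]
          have hc : Commute g⁻¹ ((g ^ p) ^ j) :=
            ((Commute.refl g).inv_left.pow_right p).zpow_right j
          exact hc.symm.eq
        rw [this, Equiv.Perm.mul_apply, h4']
        exact g.symm_apply_apply x
      have h6 : IsCoprime ((p : ℤ) * j - 1) ((p : ℤ) ^ k) := by
        apply IsCoprime.pow_right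
        exact ⟨-1, j, by ring⟩
      obtain ⟨u, v, huv⟩ := h6
      have h7 : (g ^ (1 : ℤ)) x = x := by
        rw [← huv, zpow_add, Equiv.Perm.mul_apply]
        have h8 : (g ^ (v * (p : ℤ) ^ k)) x = x := by
          have : g ^ (v * (p : ℤ) ^ k) = 1 := by
            rw [mul_comm, zpow_mul]
            have : g ^ ((p : ℤ) ^ k) = 1 := by exact_mod_cast hg
            rw [this, one_zpow]
          rw [this]
          rfl
        rw [h8]
        have h9 : ∀ m : ℤ, ((g ^ ((p : ℤ) * j - 1)) ^ m) x = x := fun m =>
          Equiv.Perm.zpow_apply_eq_self_of_apply_eq_self h5 m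
        rw [mul_comm, zpow_mul]
        exact h9 u
      rw [zpow_one] at h7
      rw [h7]
      rfl
    rw [hg1, one_pow]
  have hn : Nat.card (MulAction.orbitRel.Quotient (Subgroup.zpowers (g ^ p)) (Fin n)) ≤ n := by
    have := Nat.card_le_card_of_surjective
      (Quotient.mk'' : Fin n → MulAction.orbitRel.Quotient (Subgroup.zpowers (g ^ p)) (Fin n))
      Quotient.mk''_surjective
    simpa using this
  unfold ind
  omega

theorem ord_min {n : ℕ} (G : Subgroup (Equiv.Perm (Fin n))) {p : ℕ} (hp : p.Prime)
    (h : G) (hh : ind (h : Equiv.Perm (Fin n)) = indG G) (k : ℕ)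
    (hk : h ^ p ^ k = 1) : h ^ p = 1 := by
  by_contra hne
  have h1 : (h : Equiv.Perm (Fin n)) ^ p ≠ 1 := by
    intro h2
    apply hne
    apply Subtype.ext
    simpa using h2
  have h2 : (h : Equiv.Perm (Fin n)) ^ p ^ k = 1 := by
    have := congrArg (fun x : G => (x : Equiv.Perm (Fin n))) hk
    simpa using this
  have h3 := ord_step hp _ k h2 h1
  have h4 : indG G ≤ ind ((h : Equiv.Perm (Fin n)) ^ p) := by
    unfold indG
    exact Nat.sInf_le ⟨_, G.pow_mem h.2 p, h1, rfl⟩
  omega

end H57.MP
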