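import Pool.Agent.H57.MP.Mh
import Pool.Agent.H57.MP.Ord

/-!
# H57-MP-FIN: both bounds for Sylow subgroups of class at most three
-/

set_option autoImplicit false

open scoped NumberField
open IsDedekindDomain
open scoped Classical

noncomputable section

namespace H57.MP

open H38.ML.Spec H77.PC3

theorem fin3 (n : ℕ) (hn : 2 ≤ n) (G : Subgroup (Equiv.Perm (Fin n)))
    (hG : MulAction.IsPretransitive G (Fin n)) (hnil : Group.IsNilpotent G) (p : ℕ)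
    (hp : p.Prime) (S : Sylow p G)
    (hS : Subgroup.closure {h : G | h ≠ 1 ∧ ind (h : Equiv.Perm (Fin n)) = indG G} =
      (S : Subgroup G))
    (h4 : ⁅⁅⁅(S : Subgroup G), (S : Subgroup G)⁆, (S : Subgroup G)⁆, (S : Subgroup G)⁆ = ⊥) :
    ∃ K₀ : IntermediateField ℚ (AlgebraicClosure ℚ), NumberField K₀ ∧
      ∀ K : IntermediateField ℚ (AlgebraicClosure ℚ), K₀ ≤ K → ∀ _ : NumberField K,
        (p ≠ 2 → ∃ c : ℝ, 0 < c ∧ ∃ B₀ : ℝ, ∀ B : ℝ, B₀ ≤ B →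
          ((⌈c * B ^ (1 / (indG G : ℝ)) *
              Real.log B ^ (betaAll K (AlgebraicClosure ℚ) G - 1)⌉₊ : ℕ) : ℕ∞) ≤
            nK K (AlgebraicClosure ℚ) G B) ∧
        (∃ C : ℝ, 0 < C ∧ ∃ B₀ : ℝ, ∀ B : ℝ, B₀ ≤ B →
          nK K (AlgebraicClosure ℚ) G B ≤
            ((⌊C * B ^ (1 / (indG G : ℝ)) *
              Real.log B ^ (betaAll K (AlgebraicClosure ℚ) G - 1)⌋₊ : ℕ) : ℕ∞)) := by
  haveI : NeZero p := ⟨hp.ne_zero⟩
  haveI : Fact p.Prime := ⟨hp⟩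
  have hI : ∀ h : G, h ≠ 1 → ind (h : Equiv.Perm (Fin n)) = indG G → h ^ p = 1 := by
    intro h h0 hh
    have hmem : h ∈ (S : Subgroup G) := by
      rw [← hS]
      exact Subgroup.subset_closure ⟨h0, hh⟩
    obtain ⟨k, hk⟩ := S.isPGroup' ⟨h, hmem⟩
    refine ord_min G hp h hh k ?_
    have := congrArg Subtype.val hk
    simpa using this
  obtain ⟨K₁, hK₁, h1⟩ := cma hn G hG hnil hp (fbdAll p hp) hI S hS h4
  by_cases h2 : p = 2
  · refine ⟨K₁, hK₁, fun K hK hKf => ⟨fun h => absurd h2 h, ?_⟩⟩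
    obtain ⟨C, B₀, hC, hB⟩ := h1 K hK hKf
    refine ⟨C, hC, B₀, fun B hB' => ?_⟩
    obtain ⟨k, hk, hle⟩ := hB B hB'
    rw [show nK K (AlgebraicClosure ℚ) G B = (k : ℕ∞) from hk]
    exact Nat.cast_le.2 (Nat.le_floor hle)
  · obtain ⟨K₀, hK₀, h⟩ := cml hn G hG hnil hp (lbdAll p hp h2) hI S hS h4
    refine ⟨K₀ ⊔ K₁, ?_, fun K hK hKf => ⟨fun _ => ?_, ?_⟩⟩
    · haveI := hK₀.to_finiteDimensional
      haveI := hK₁.to_finiteDimensional
      exact NumberField.of_module_finite ℚ (K₀ ⊔ K₁ : IntermediateField ℚ (AlgebraicClosure ℚ))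
    · obtain ⟨c, B₀, hc, hB⟩ := h K (le_sup_left.trans hK) hKf
      exact ⟨c, hc, B₀, hB⟩
    · obtain ⟨C, B₀, hC, hB₁⟩ := h1 K (le_sup_right.trans hK) hKf
      refine ⟨C, hC, B₀, fun B hB => ?_⟩
      obtain ⟨k, hk, hle⟩ := hB₁ B hB
      rw [show nK K (AlgebraicClosure ℚ) G B = (k : ℕ∞) from hk]
      exact Nat.cast_le.2 (Nat.le_floor hle)

end H57.MP
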