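import Pool.Agent.H57.MP.Ga
import Pool.Agent.H77.PT.Lia

/-!
# [H57 MP FO] Fourier coefficients of the local weights, 60-110 lines. File Pool/Agent/H57/MP/Fo.lean

* `fo_zero`: `∑ ν, ep (ν · x) = p^w` for `x = 0`, `0` otherwise: `lia_sum` (Pool/Agent/H77/PT/Lia.lean, may be used although it is not yet proved) with `A = ⊥`, `ψ₀ = 0` (all `ν` agree with `0` on `⊥`; `#⊥ = 1`).
* `fo_rs`: if `χ` vanishes on the `v` with `β v (s i) = 0`: `∑_{rs Dg i ν = χ} ep (ν · x) = (p^w / #(Bi i)) ep (xi Dg χ i x)` for `x ∈ Bi i` and `0` otherwise.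
  PROOF. There is `ψ₀` with `rs Dg i ψ₀ = χ`: the map `Bi i → ZMod p`, `β v (s i) ↦ χ · v` is a well defined linear form, extend it to `(ZMod p)^w` (`LinearMap.exists_extend`) and write it as `dt ψ₀` (`loe_dual`, Pool/Agent/H57/LOW/Loe.lean). `rs Dg i ν = χ` iff
  `ν` and `ψ₀` agree on `Bi i` (`rs_dt`; `Bi i` is the set of the `β v (s i)`; two vectors with the same `dt` against all `v` are equal). `lia_sum` with `A = Bi i`. For `x = β v (s i)`: `dt ψ₀ x = χ · v = xi Dg χ i x` (`xi` is `dt χ v'` for some `v'` with `β v' (s i) = x`).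
* `cA`, `cB`, `cC`: the Fourier coefficients; `fA`, `fB`, `fC` the weights. `fA_cf`, `fB_cf`, `fC_cf`: by `fo_zero`, `fo_rs` (`p ^ w ≠ 0`, `#(Bi i) ≠ 0`; for `χ ∈ J0` the hypothesis of `fo_rs` is the first part of `InJ0`; `Sx`, `Finset.sum_filter`).
-/

set_option autoImplicit false

open scoped Classical

noncomputable section

namespace H57.MP

open H57.PC H57.LOW H63.MA H38.BB H38.BG H51.CUB H77.PT

variable {p m l w N : ℕ} {P R : Type} [Group P] [Group R]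

/-- the weight `Wn 1[x = 0]` -/
def fA (Dg : GP p m l w N P R) (i : Fin N) (x : Fin w → ZMod p) : ℂ :=
  if x = 0 then (Dg.Wn i : ℂ) else 0

/-- the weight `(Wn / #Bi) 1[x ∈ Bi] ep (χ x)` -/
def fC [NeZero p] (Dg : GP p m l w N P R) (χ : Fin N → Fin l → ZMod p) (i : Fin N)
    (x : Fin w → ZMod p) : ℂ :=
  if x ∈ Dg.Bi i then (((Dg.Wn i : ℝ) / Nat.card (Dg.Bi i) : ℝ) : ℂ) * ep p (xi Dg (χ i) i x)
  else 0

/-- `fA` on the small window, `fC` on the others -/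
def fB [NeZero p] (Dg : GP p m l w N P R) (χ : Fin N → Fin l → ZMod p) (a : Fin N × Fin 3)
    (x : Fin w → ZMod p) : ℂ :=
  if a.2 = 0 then fA Dg a.1 x else fC Dg χ a.1 x

/-- the coefficient of `fA` -/
def cA (Dg : GP p m l w N P R) (i : Fin N) (_ : Fin w → ZMod p) : ℝ :=
  (Dg.Wn i : ℝ) / (p : ℝ) ^ w

/-- the coefficients of `fB Dg 0` -/
def cB (Dg : GP p m l w N P R) (a : Fin N × Fin 3) (ν : Fin w → ZMod p) : ℝ :=
  if a.2 = 0 ∨ rs Dg a.1 ν = 0 then (Dg.Wn a.1 : ℝ) / (p : ℝ) ^ w else 0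

theorem fo_zero [NeZero p] (hp : p.Prime) (x : Fin w → ZMod p) :
    (∑ ν : Fin w → ZMod p, ep p (dt ν x)) = if x = 0 then ((p : ℂ) ^ w) else 0 := by
  have h := lia_sum hp (⊥ : Submodule (ZMod p) (Fin w → ZMod p)) 0 x
  rw [Finset.filter_true_of_mem] at h
  · rw [h]
    by_cases hx : x = 0
    · rw [if_pos hx, if_pos ((Submodule.mem_bot _).2 hx), lia_zero, ep_zero, mul_one,
        Nat.card_unique]
      push_cast
      ring
    · rw [if_neg hx, if_neg (fun h' => hx ((Submodule.mem_bot _).1 h'))]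
  · intro ψ _ y hy
    rw [(Submodule.mem_bot _).1 hy, ga_dt0r, ga_dt0r]

theorem fo_rs [NeZero p] (hp : p.Prime) (Dg : GP p m l w N P R) (i : Fin N)
    (χ : Fin l → ZMod p) (hχ : ∀ v, Dg.β v (Dg.s i) = 0 → dt χ v = 0) (x : Fin w → ZMod p) :
    (∑ ν : Fin w → ZMod p, if rs Dg i ν = χ then ep p (dt ν x) else 0) =
      if x ∈ Dg.Bi i then ((p : ℂ) ^ w / Nat.card (Dg.Bi i)) * ep p (xi Dg χ i x) else 0 := by
  have hfact : Fact p.Prime := ⟨hp⟩
  obtain ⟨F, hF⟩ : ∃ F : (Fin l → ZMod p) →ₗ[ZMod p] (Fin w → ZMod p),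
      ∀ v, F v = Dg.β v (Dg.s i) := ⟨Dg.β.flip (Dg.s i), fun v => rfl⟩
  have hmem : ∀ y, y ∈ Dg.Bi i ↔ ∃ v, Dg.β v (Dg.s i) = y := fun y => Iff.rfl
  have h1 : gaD χ ∈ LinearMap.range F.dualMap := by
    rw [LinearMap.range_dualMap_eq_dualAnnihilator_ker, Submodule.mem_dualAnnihilator]
    intro v hv
    rw [LinearMap.mem_ker, hF] at hv
    exact hχ v hv
  obtain ⟨g, hg⟩ := h1
  have hg' : ∀ v, g (Dg.β v (Dg.s i)) = dt χ v := by
    intro v
    rw [← hF, ← gaD_apply, ← hg]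
    rfl
  obtain ⟨ψ₀, hψ₀⟩ : ∃ ψ₀ : Fin w → ZMod p, ∀ y, dt ψ₀ y = g y :=
    ⟨_, fun y => loe_dual g y⟩
  have hrs : rs Dg i ψ₀ = χ := by
    funext k
    change dt ψ₀ (Dg.β (Pi.single k 1) (Dg.s i)) = χ k
    rw [hψ₀, hg', ga_dts]
  have hiff : ∀ ν : Fin w → ZMod p, rs Dg i ν = χ ↔ ∀ y ∈ Dg.Bi i, dt ν y = dt ψ₀ y := by
    intro ν
    constructor
    · intro h y hy
      obtain ⟨v, rfl⟩ := (hmem y).1 hy
      rw [← rs_dt, ← rs_dt, h, hrs]
    · intro h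
      rw [← hrs]
      funext k
      exact h _ ((hmem _).2 ⟨_, rfl⟩)
  rw [← Finset.sum_filter]
  have hfil : Finset.univ.filter (fun ν : Fin w → ZMod p => rs Dg i ν = χ) =
      Finset.univ.filter (fun ν : Fin w → ZMod p => ∀ y ∈ Dg.Bi i, dt ν y = dt ψ₀ y) :=
    Finset.filter_congr fun ν _ => hiff ν
  rw [hfil, lia_sum hp (Dg.Bi i) ψ₀ x]
  by_cases hx : x ∈ Dg.Bi i
  · rw [if_pos hx, if_pos hx]
    have hxi : dt ψ₀ x = xi Dg χ i x := by
      have hex := (hmem x).1 hx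
      unfold H57.PC.xi
      rw [dif_pos hex]
      conv_lhs => rw [← hex.choose_spec]
      rw [hψ₀, hg']
    rw [hxi]
    push_cast
    rfl
  · rw [if_neg hx, if_neg hx]

theorem fo_pw {p : ℕ} (hp : p.Prime) (w : ℕ) : ((p : ℂ) ^ w) ≠ 0 := by
  have : (p : ℂ) ≠ 0 := by exact_mod_cast hp.ne_zero
  positivity

/-- the expansion of `fC` -/
theorem fC_gen [NeZero p] (hp : p.Prime) (Dg : GP p m l w N P R) (χ : Fin N → Fin l → ZMod p)
    (i : Fin N) (hχ : ∀ v, Dg.β v (Dg.s i) = 0 → dt (χ i) v = 0) (x : Fin w → ZMod p) :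
    fC Dg χ i x = ∑ ν, ((if rs Dg i ν = χ i then (Dg.Wn i : ℝ) / (p : ℝ) ^ w else 0 : ℝ) : ℂ) *
      ep p (dt ν x) := by
  have hpw := fo_pw hp w
  have h1 : ∀ ν : Fin w → ZMod p,
      ((if rs Dg i ν = χ i then (Dg.Wn i : ℝ) / (p : ℝ) ^ w else 0 : ℝ) : ℂ) * ep p (dt ν x) =
      ((Dg.Wn i : ℂ) / (p : ℂ) ^ w) * (if rs Dg i ν = χ i then ep p (dt ν x) else 0) := by
    intro ν
    split_ifs
    · push_cast
      rfl
    · rw [Complex.ofReal_zero, zero_mul, mul_zero]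
  rw [Finset.sum_congr rfl fun ν _ => h1 ν, ← Finset.mul_sum, fo_rs hp Dg i (χ i) hχ x]
  unfold fC
  split_ifs
  · push_cast
    field_simp
  · rw [mul_zero]

theorem fA_cf [NeZero p] (hp : p.Prime) (Dg : GP p m l w N P R) (i : Fin N)
    (x : Fin w → ZMod p) :
    fA Dg i x = ∑ ν, ((cA Dg i ν : ℝ) : ℂ) * ep p (dt ν x) := by
  have hpw := fo_pw hp w
  unfold cA
  rw [← Finset.mul_sum, fo_zero hp]
  unfold fA
  split_ifs
  · push_cast
    field_simp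
  · rw [mul_zero]

/-- the types outside `Sx Dg χ` removed -/
theorem fB_cf [NeZero p] (hp : p.Prime) (Dg : GP p m l w N P R) (χ : Fin N → Fin l → ZMod p)
    (hχ : χ ∈ J0 Dg) (a : Fin N × Fin 3) (x : Fin w → ZMod p) :
    fB Dg χ a x =
      ∑ ν, ((if (a, ν) ∈ Sx Dg χ then cA Dg a.1 ν else 0 : ℝ) : ℂ) * ep p (dt ν x) := by
  unfold fB
  by_cases ha : a.2 = 0
  · rw [if_pos ha, fA_cf hp]
    refine Finset.sum_congr rfl fun ν _ => ?_
    rw [if_pos]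
    unfold Sx
    rw [Finset.mem_filter]
    exact ⟨Finset.mem_univ _, fun h => absurd ha h⟩
  · rw [if_neg ha, fC_gen hp Dg χ a.1 (by
      unfold J0 at hχ
      exact (Finset.mem_filter.1 hχ).2.1 a.1)]
    refine Finset.sum_congr rfl fun ν _ => ?_
    have hiff : (a, ν) ∈ Sx Dg χ ↔ rs Dg a.1 ν = χ a.1 := by
      unfold Sx
      rw [Finset.mem_filter]
      exact ⟨fun h => h.2 ha, fun h => ⟨Finset.mem_univ _, fun _ => h⟩⟩
    unfold cA
    by_cases h : rs Dg a.1 ν = χ a.1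
    · rw [if_pos h, if_pos (hiff.2 h)]
    · rw [if_neg h, if_neg (fun h' => h (hiff.1 h'))]

theorem fB0_cf [NeZero p] (hp : p.Prime) (Dg : GP p m l w N P R) (a : Fin N × Fin 3)
    (x : Fin w → ZMod p) :
    fB Dg 0 a x = ∑ ν, ((cB Dg a ν : ℝ) : ℂ) * ep p (dt ν x) := by
  unfold fB
  by_cases ha : a.2 = 0
  · rw [if_pos ha, fA_cf hp]
    refine Finset.sum_congr rfl fun ν _ => ?_
    unfold cA cB
    rw [if_pos (Or.inl ha)]
  · rw [if_neg ha, fC_gen hp Dg 0 a.1 (fun v _ => ga_dt0l v)]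
    refine Finset.sum_congr rfl fun ν _ => ?_
    rw [Pi.zero_apply]
    unfold cB
    by_cases h : rs Dg a.1 ν = 0
    · rw [if_pos (Or.inr h), if_pos h]
    · rw [if_neg h, if_neg (fun h' => h'.elim ha h)]

theorem fC0_cf [NeZero p] (hp : p.Prime) (Dg : GP p m l w N P R) (a : Fin N × Fin 3)
    (x : Fin w → ZMod p) :
    fC Dg 0 a.1 x =
      ∑ ν, ((if rs Dg a.1 ν = 0 then cB Dg a ν else 0 : ℝ) : ℂ) * ep p (dt ν x) := by
  rw [fC_gen hp Dg 0 a.1 (fun v _ => ga_dt0l v)]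
  refine Finset.sum_congr rfl fun ν _ => ?_
  rw [Pi.zero_apply]
  unfold cB
  by_cases h : rs Dg a.1 ν = 0
  · rw [if_pos h, if_pos h, if_pos (Or.inr h)]
  · rw [if_neg h, if_neg h]

theorem cA_nonneg (Dg : GP p m l w N P R) (i : Fin N) (ν : Fin w → ZMod p) : 0 ≤ cA Dg i ν := by
  unfold cA
  positivity

theorem cB_nonneg (Dg : GP p m l w N P R) (a : Fin N × Fin 3) (ν : Fin w → ZMod p) :
    0 ≤ cB Dg a ν := by
  unfold cB
  split_ifs <;> positivity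

end H57.MP
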