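import Pool.Agent.H57.MP.Def
import Pool.Agent.H77.PT.Pts
import Pool.Agent.H77.PT.Lin

/-!
# [H57 MP TUA] the tools of H77/PT for the sums with an extra phase, 120-200 lines. File Pool/Agent/H57/MP/Tua.lean

The files Pool/Agent/H77/PT/Pts.lean (`pc_ts`, `ts_sub`), Lin.lean (`pc_abs`, `ts_sum`, `ts_bad`) and Col.lean (`col`) have the same statements without the factor `ep p (UU D u lam _)`; their proofs (documented in their headers; several are already on main: read the current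
files, `git log`) work word for word. The extra factor is of absolute value `1` (`ep_norm`) and: for `Dj g`, with `u' a = u a.1`, `lam' a a' = lam a.1 a'.1`:
`UU D u lam (uc g) = UU D u' lam' g` (`uu_uc`): `uc g a = ⋃ t, g (a, t)` is a disjoint union (`Dj g`): `Finset.sum_biUnion`, `Fintype.sum_prod_type`.
* `pcu_ts`: put the factor `ep p (UU D u lam f)` into the function `c f` of `col`.
* `tsu_sub`: by `pcu_ts` as `ts_sub`. `tsu_sum`, `tsu_bad`, `pcu_abs` (`‖ep‖ = 1`): as `ts_sum`, `ts_bad`, `pc_abs`. `pcu_zero`: `uu_zero`, `ep_zero`.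
-/

set_option autoImplicit false

open scoped NumberField
open IsDedekindDomain
open scoped Classical

noncomputable section

namespace H57.MP

open H57.PC H57.LOW H63.MA H38.BB H38.BG H51.CUB H77.PT

variable {K : Type} [Field K] [NumberField K] {p : ℕ} {ζ : K} {D : RD0 K p ζ} {Ω : Type}
  [Field Ω] [Algebra K Ω] {m l w N : ℕ} {P R : Type} [Group P] [Group R] {J : Type} [Fintype J]

private theorem tua_mem {V ι T : Type} [Fintype T] (g : ι × T → Finset V) (a : ι) (v : V) :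
    v ∈ uc g a ↔ ∃ t, v ∈ g (a, t) := by
  simp [uc]

private theorem tua_sum_uc {J T : Type} [Fintype T] {M : Type} [AddCommMonoid M]
    {g : J × T → Finset (Pl K)} (hg : Dj g) (a : J) (F : Pl K → M) :
    ∑ v ∈ uc g a, F v = ∑ t, ∑ v ∈ g (a, t), F v := by
  unfold uc
  refine Finset.sum_biUnion ?_
  intro t _ t' _ htt
  exact hg (a, t) (a, t') (fun h => htt (Prod.mk.inj h).2)

theorem uu_uc {T : Type} [Fintype T] (u : J → Pl K → ZMod p) (lam : J → J → ZMod p)
    {g : J × T → Finset (Pl K)} (hg : Dj g) :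
    UU D u lam (uc g) = UU D (fun a => u a.1) (fun a a' => lam a.1 a'.1) g := by
  unfold UU
  rw [Fintype.sum_prod_type]
  refine Finset.sum_congr rfl fun a _ => ?_
  rw [tua_sum_uc hg]
  refine Finset.sum_congr rfl fun t _ => Finset.sum_congr rfl fun v _ => ?_
  congr 1
  rw [Fintype.sum_prod_type]
  refine Finset.sum_congr rfl fun a' _ => ?_
  rw [tua_sum_uc hg, Finset.mul_sum]

theorem pcu_zero [NeZero p] {L : LDs D Ω} (Dg : GP p m l w N P R) (Fr : FR L) (U : WY N J)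
    (φ : J → (Fin w → ZMod p) → ℂ) (b : Fin m → Kˣ) (E : Finset (Pl K))
    (ε : Pl K → Gal(Ω/K) → R) (ω : Finset J → ℂ) (Y : ℝ) :
    PCU Dg Fr U φ b E ε (fun _ _ => 0) (fun _ _ => 0) ω Y = PC Dg Fr U φ b E ε ω Y := by
  unfold PCU PC
  refine Finset.sum_congr rfl fun h _ => ?_
  split_ifs with hc
  · rw [uu_zero, ep_zero, mul_one]
  · rfl

private theorem tua_wd [NeZero p] (U : WY N J) (c : J → (Fin w → ZMod p) → ℝ) (E : Finset (Pl K))
    (Y : ℝ) {g : J × (Fin w → ZMod p) → Finset (Pl K)} (hg : Dj g) :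
    Wc D U E Y (uc g) ↔ Wd D (U.ex c) E Y g := by
  unfold Wc Wd
  rw [uc_nr hg]
  refine and_congr ⟨fun _ => hg, fun _ => uc_dj hg⟩ (and_congr ?_ (and_congr Iff.rfl ?_))
  · constructor
    · rintro h ⟨a, t⟩
      have h1 := h a
      unfold uc at h1
      rw [Finset.disjoint_biUnion_left] at h1
      exact h1 t (Finset.mem_univ _)
    · intro h a
      unfold uc
      rw [Finset.disjoint_biUnion_left]
      exact fun t _ => h (a, t)
  · constructor
    · rintro h ⟨a, t⟩ v hv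
      exact h a v ((tua_mem g a v).2 ⟨t, hv⟩)
    · intro h a v hv
      obtain ⟨t, ht⟩ := (tua_mem g a v).1 hv
      exact h (a, t) v ht

private theorem tua_cl [NeZero p] (U : WY N J) (c : J → (Fin w → ZMod p) → ℝ)
    (g : J × (Fin w → ZMod p) → Finset (Pl K)) : clw U (uc g) = clf (U.ex c) g := by
  funext i
  ext v
  unfold clw clf
  rw [Finset.mem_biUnion, Finset.mem_biUnion]
  constructor
  · rintro ⟨a, ha, hv⟩
    obtain ⟨t, ht⟩ := (tua_mem g a v).1 hv
    refine ⟨(a, t), ?_, ht⟩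
    rw [Finset.mem_filter] at ha ⊢
    exact ⟨Finset.mem_univ _, ha.2⟩
  · rintro ⟨⟨a, t⟩, ha, hv⟩
    refine ⟨a, ?_, (tua_mem g a v).2 ⟨t, hv⟩⟩
    rw [Finset.mem_filter] at ha ⊢
    exact ⟨Finset.mem_univ _, ha.2⟩

private theorem tua_spt {T : Type} [Fintype T] (g : J × T → Finset (Pl K)) :
    spt (uc g) = (spt g).image Prod.fst := by
  ext a
  unfold spt
  rw [Finset.mem_filter, Finset.mem_image]
  constructor
  · rintro ⟨-, h⟩
    obtain ⟨v, hv⟩ := Finset.nonempty_iff_ne_empty.2 h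
    obtain ⟨t, ht⟩ := (tua_mem g a v).1 hv
    refine ⟨(a, t), ?_, rfl⟩
    rw [Finset.mem_filter]
    exact ⟨Finset.mem_univ _, Finset.nonempty_iff_ne_empty.1 ⟨v, ht⟩⟩
  · rintro ⟨⟨a', t⟩, h, rfl⟩
    rw [Finset.mem_filter] at h
    obtain ⟨v, hv⟩ := Finset.nonempty_iff_ne_empty.2 h.2
    exact ⟨Finset.mem_univ _, Finset.nonempty_iff_ne_empty.1 ⟨v, (tua_mem g a' v).2 ⟨t, hv⟩⟩⟩

private theorem tua_prod [NeZero p] (hp : p.Prime) {L : LDs D Ω} (Dg : GP p m l w N P R) (Fr : FR L)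
    (U : WY N J) (c : J → (Fin w → ZMod p) → ℝ) (ρ : Gal(Ω/K) →* R)
    (g : J × (Fin w → ZMod p) → Finset (Pl K)) :
    ∏ a : J × (Fin w → ZMod p), ∏ v ∈ g a, ((c a.1 a.2 : ℝ) : ℂ) * ep p (dt a.2 (cq Dg Fr ρ v)) =
      ((∏ a, (U.ex c).wt a ^ (g a).card : ℝ) : ℂ) *
        ep p (∑ a, ∑ v ∈ g a, dt ((U.ex c).psi a) (cq Dg Fr ρ v)) := by
  rw [aexp_ep_sum hp, Complex.ofReal_prod, ← Finset.prod_mul_distrib]
  refine Finset.prod_congr rfl fun a _ => ?_
  rw [aexp_ep_sum hp, Finset.prod_mul_distrib, Finset.prod_const, Complex.ofReal_pow]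
  show ((c a.1 a.2 : ℝ) : ℂ) ^ (g a).card * _ = ((c a.1 a.2 : ℝ) : ℂ) ^ (g a).card *
    ∏ v ∈ g a, ep p (dt (if c a.1 a.2 = 0 then 0 else a.2) (cq Dg Fr ρ v))
  by_cases hc : c a.1 a.2 = 0
  · rcases (g a).eq_empty_or_nonempty with he | hne
    · rw [he]
      simp
    · rw [hc, Complex.ofReal_zero, zero_pow (Finset.card_pos.2 hne).ne', zero_mul, zero_mul]
  · rw [if_neg hc]

theorem pcu_ts [NeZero p] (hp : p.Prime) {L : LDs D Ω} (Dg : GP p m l w N P R) (Fr : FR L)
    (U : WY N J) (c : J → (Fin w → ZMod p) → ℝ) (b : Fin m → Kˣ) (E : Finset (Pl K))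
    (ε : Pl K → Gal(Ω/K) → R) (u : J → Pl K → ZMod p) (lam : J → J → ZMod p)
    (ω : Finset J → ℂ) (Y : ℝ) :
    PCU Dg Fr U (fun a x => ∑ ψ, ((c a ψ : ℝ) : ℂ) * ep p (dt ψ x)) b E ε u lam ω Y =
      TSU Dg Fr (U.ex c) b E ε (fun a => u a.1) (fun a a' => lam a.1 a'.1)
        (fun S => ω (S.image Prod.fst)) Y := by
  have hcol := col (T := Fin w → ZMod p) D (2 * Y)
    (fun f : J → Finset (Pl K) => if Wc D U E Y f ∧ SpR Dg.cr b (clw U f) then
      ω (spt f) * ((wl ((∏ a, nr (f a)) / Y) : ℝ) : ℂ) * ep p (UU D u lam f) else 0)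
    (fun f hf => by
      by_cases h : Wc D U E Y f ∧ SpR Dg.cr b (clw U f)
      · exact ⟨h.1.1, h.1.2.2.1⟩
      · exact absurd (if_neg h) hf)
    (fun f => RHf L Dg b E ε (clw U f))
    (fun ρ a v => ((c a.1 a.2 : ℝ) : ℂ) * ep p (dt a.2 (cq Dg Fr ρ v)))
  unfold PCU TSU
  refine Eq.trans ?_ (hcol.trans ?_)
  · refine Finset.sum_congr rfl fun f _ => ?_
    by_cases h : Wc D U E Y f ∧ SpR Dg.cr b (clw U f)
    · simp only [if_pos h]
      ring
    · simp only [if_neg h, zero_mul]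
  · refine Finset.sum_congr ?_ fun g _ => ?_
    · ext g
      simp only [Fintype.mem_piFinset]
    by_cases hg : Dj g
    · rw [if_pos hg]
      have h1 := tua_wd (D := D) U c E Y hg
      have h2 := tua_cl U c g
      rw [h2]
      by_cases h : Wd D (U.ex c) E Y g ∧ SpR Dg.cr b (clf (U.ex c) g)
      · rw [if_pos h, if_pos ⟨h1.2 h.1, h.2⟩, tua_spt, uc_nr hg, uu_uc u lam hg]
        rw [Finset.sum_congr rfl fun ρ _ => tua_prod hp Dg Fr U c ρ g, ← Finset.mul_sum]
        unfold PF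
        ring
      · rw [if_neg h, if_neg (fun h' => h ⟨h1.1 h'.1, h'.2⟩), zero_mul]
    · rw [if_neg hg, if_neg (fun h => hg h.1.1)]

theorem tsu_sub [NeZero p] (hp : p.Prime) {L : LDs D Ω} (Dg : GP p m l w N P R) (Fr : FR L)
    (U : WY N J) (c : J → (Fin w → ZMod p) → ℝ) (S₀ : Finset (J × (Fin w → ZMod p)))
    (b : Fin m → Kˣ) (E : Finset (Pl K)) (ε : Pl K → Gal(Ω/K) → R) (u : J → Pl K → ZMod p)
    (lam : J → J → ZMod p) (ω : Finset J → ℂ) (Y : ℝ) :
    TSU Dg Fr (U.ex c) b E ε (fun a => u a.1) (fun a a' => lam a.1 a'.1)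
        (fun S => if S ⊆ S₀ then ω (S.image Prod.fst) else 0) Y =
      PCU Dg Fr U (fun a x => ∑ ψ, ((if (a, ψ) ∈ S₀ then c a ψ else 0 : ℝ) : ℂ) *
        ep p (dt ψ x)) b E ε u lam ω Y := by
  rw [pcu_ts hp Dg Fr U (fun a ψ => if (a, ψ) ∈ S₀ then c a ψ else 0) b E ε u lam ω Y]
  unfold TSU
  refine Finset.sum_congr rfl fun g _ => ?_
  have hcond : (Wd D (U.ex c) E Y g ∧ SpR Dg.cr b (clf (U.ex c) g)) ↔
      (Wd D (U.ex fun a ψ => if (a, ψ) ∈ S₀ then c a ψ else 0) E Y g ∧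
        SpR Dg.cr b (clf (U.ex fun a ψ => if (a, ψ) ∈ S₀ then c a ψ else 0) g)) := Iff.rfl
  by_cases h : Wd D (U.ex c) E Y g ∧ SpR Dg.cr b (clf (U.ex c) g)
  · rw [if_pos h, if_pos (hcond.1 h)]
    beta_reduce
    by_cases hs : spt g ⊆ S₀
    · rw [if_pos hs]
      have hw : ∏ a, (U.ex c).wt a ^ (g a).card =
          ∏ a, (U.ex fun a ψ => if (a, ψ) ∈ S₀ then c a ψ else 0).wt a ^ (g a).card := by
        refine Finset.prod_congr rfl fun a _ => ?_
        by_cases ha : g a = ∅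
        · rw [ha, Finset.card_empty, pow_zero, pow_zero]
        · have : a ∈ S₀ := hs (by unfold spt; rw [Finset.mem_filter]; exact ⟨Finset.mem_univ _, ha⟩)
          show c a.1 a.2 ^ _ = (if (a.1, a.2) ∈ S₀ then c a.1 a.2 else 0) ^ _
          rw [if_pos this]
      have hpf : PF Dg Fr (U.ex c) b E ε g =
          PF Dg Fr (U.ex fun a ψ => if (a, ψ) ∈ S₀ then c a ψ else 0) b E ε g := by
        unfold PF
        refine Finset.sum_congr rfl fun ρ _ => ?_
        congr 1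
        refine Finset.sum_congr rfl fun a _ => ?_
        by_cases ha : g a = ∅
        · rw [ha, Finset.sum_empty, Finset.sum_empty]
        · have h3 : a ∈ S₀ := hs (by unfold spt; rw [Finset.mem_filter]; exact ⟨Finset.mem_univ _, ha⟩)
          have h4 : (U.ex c).psi a =
              (U.ex fun a ψ => if (a, ψ) ∈ S₀ then c a ψ else 0).psi a := by
            show (if c a.1 a.2 = 0 then (0 : Fin w → ZMod p) else a.2) =
              if (if (a.1, a.2) ∈ S₀ then c a.1 a.2 else 0) = 0 then 0 else a.2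
            rw [if_pos h3]
          rw [h4]
      rw [hw, hpf]
    · rw [if_neg hs, zero_mul, zero_mul, zero_mul, zero_mul]
      obtain ⟨a, ha, ha'⟩ := Finset.not_subset.1 hs
      unfold spt at ha
      rw [Finset.mem_filter] at ha
      have hz : ∏ a, (U.ex fun a ψ => if (a, ψ) ∈ S₀ then c a ψ else 0).wt a ^ (g a).card = 0 := by
        refine Finset.prod_eq_zero (Finset.mem_univ a) ?_
        show (if (a.1, a.2) ∈ S₀ then c a.1 a.2 else 0) ^ (g a).card = 0
        rw [if_neg ha']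
        exact zero_pow (Finset.card_pos.2 (Finset.nonempty_iff_ne_empty.2 ha.2)).ne'
      rw [hz, Complex.ofReal_zero, mul_zero, zero_mul, zero_mul, zero_mul]
  · rw [if_neg h, if_neg (fun h' => h (hcond.2 h'))]

theorem pcu_abs [NeZero p] {L : LDs D Ω} (Dg : GP p m l w N P R) (Fr : FR L) (U : WY N J)
    (φ : J → (Fin w → ZMod p) → ℂ) (b : Fin m → Kˣ) (E : Finset (Pl K))
    (ε : Pl K → Gal(Ω/K) → R) (u : J → Pl K → ZMod p) (lam : J → J → ZMod p)
    (ω : Finset J → ℂ) (Y : ℝ) :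
    ‖PCU Dg Fr U φ b E ε u lam ω Y‖ ≤
      PR Dg Fr U (fun a x => ‖φ a x‖) b E ε (fun S => ‖ω S‖) Y := by
  unfold PR PCU
  refine (norm_sum_le _ _).trans (Finset.sum_le_sum fun h _ => ?_)
  split_ifs with hc
  · rw [norm_mul, ep_norm, mul_one, norm_mul, norm_mul, Complex.norm_real,
      Real.norm_of_nonneg (H77.PT.wl_nonneg _)]
    refine mul_le_mul_of_nonneg_left ?_ (mul_nonneg (norm_nonneg _) (H77.PT.wl_nonneg _))
    refine (norm_sum_le _ _).trans (Finset.sum_le_sum fun ρ _ => ?_)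
    rw [norm_prod]
    refine le_of_eq (Finset.prod_congr rfl fun a _ => ?_)
    rw [norm_prod]
  · rw [norm_zero]

theorem tsu_sum [NeZero p] {L : LDs D Ω} (Dg : GP p m l w N P R) (Fr : FR L) (T : TY N w p J)
    (b : Fin m → Kˣ) (E : Finset (Pl K)) (ε : Pl K → Gal(Ω/K) → R) (u : J → Pl K → ZMod p)
    (lam : J → J → ZMod p) {A : Type} (B : Finset A) (ω : A → Finset J → ℂ) (Y : ℝ) :
    TSU Dg Fr T b E ε u lam (fun S => ∑ t ∈ B, ω t S) Y =
      ∑ t ∈ B, TSU Dg Fr T b E ε u lam (ω t) Y := by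
  unfold TSU
  rw [Finset.sum_comm]
  refine Finset.sum_congr rfl fun g _ => ?_
  split_ifs with hc
  · rw [Finset.sum_mul, Finset.sum_mul, Finset.sum_mul, Finset.sum_mul]
  · rw [Finset.sum_const_zero]

theorem tsu_sub2 [NeZero p] {L : LDs D Ω} (Dg : GP p m l w N P R) (Fr : FR L) (T : TY N w p J)
    (b : Fin m → Kˣ) (E : Finset (Pl K)) (ε : Pl K → Gal(Ω/K) → R) (u : J → Pl K → ZMod p)
    (lam : J → J → ZMod p) (ω ω' : Finset J → ℂ) (Y : ℝ) :
    TSU Dg Fr T b E ε u lam (fun S => ω S - ω' S) Y =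
      TSU Dg Fr T b E ε u lam ω Y - TSU Dg Fr T b E ε u lam ω' Y := by
  unfold TSU
  rw [← Finset.sum_sub_distrib]
  refine Finset.sum_congr rfl fun g _ => ?_
  split_ifs with hc
  · ring
  · rw [sub_zero]

theorem tsu_bad [NeZero p] {L : LDs D Ω} (Dg : GP p m l w N P R) (Fr : FR L) (T : TY N w p J)
    (b : Fin m → Kˣ) (E : Finset (Pl K)) (ε : Pl K → Gal(Ω/K) → R) (u : J → Pl K → ZMod p)
    (lam : J → J → ZMod p) {A : Type} (B : Finset A) (Bd : A → Finset J → Prop) (Y M : ℝ)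
    (h : ∀ t ∈ B, ∀ ω : Finset J → ℂ, (∀ S, ‖ω S‖ ≤ 1) → (∀ S, ω S ≠ 0 → Bd t S) →
      ‖TSU Dg Fr T b E ε u lam ω Y‖ ≤ M)
    (ω : Finset J → ℂ) (hω : ∀ S, ‖ω S‖ ≤ 1) (hω' : ∀ S, ω S ≠ 0 → ∃ t ∈ B, Bd t S) :
    ‖TSU Dg Fr T b E ε u lam ω Y‖ ≤ B.card * M := by
  obtain ⟨τ, hτ⟩ : ∃ τ : Finset J → Option A,
      ∀ S, ω S ≠ 0 → ∃ t ∈ B, Bd t S ∧ τ S = some t := by
    refine ⟨fun S => if h : ∃ t ∈ B, Bd t S then some h.choose else none, fun S hS => ?_⟩
    have h1 := hω' S hS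
    exact ⟨h1.choose, h1.choose_spec.1, h1.choose_spec.2, dif_pos h1⟩
  have e : ω = fun S => ∑ t ∈ B, if τ S = some t then ω S else 0 := by
    funext S
    by_cases hS : ω S = 0
    · rw [hS]
      symm
      refine Finset.sum_eq_zero fun t _ => ?_
      split_ifs <;> rfl
    · obtain ⟨t, ht, -, htt⟩ := hτ S hS
      rw [Finset.sum_eq_single t]
      · rw [if_pos htt]
      · intro t' _ htt'
        rw [if_neg]
        rw [htt]
        intro h2
        exact htt' (Option.some.inj h2).symm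
      · intro h2
        exact absurd ht h2
  rw [e, tsu_sum Dg Fr T b E ε u lam B (fun t S => if τ S = some t then ω S else 0) Y]
  refine (norm_sum_le _ _).trans ?_
  calc ∑ t ∈ B, ‖TSU Dg Fr T b E ε u lam (fun S => if τ S = some t then ω S else 0) Y‖ ≤
        ∑ _t ∈ B, M := by
        refine Finset.sum_le_sum fun t ht => h t ht _ (fun S => ?_) fun S hS => ?_
        · split_ifs
          · exact hω S
          · rw [norm_zero]; exact zero_le_one
        · by_cases h2 : τ S = some t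
          · have h3 : ω S ≠ 0 := by
              simpa only [h2, if_true] using hS
            obtain ⟨t', _, hb, ht'⟩ := hτ S h3
            rw [h2] at ht'
            rw [Option.some.inj ht']
            exact hb
          · exact absurd (if_neg h2) hS
    _ = B.card * M := by rw [Finset.sum_const, nsmul_eq_mul]

end H57.MP
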