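import Pool.Agent.H57.MP.Mg
import Pool.Agent.H57.MP.Fo
import Pool.Agent.H57.MP.Tua
import Pool.Agent.H57.LOW.Loe
import Pool.Agent.H77.PC3.CLy
import Pool.Agent.H77.PT.Rhc
import Pool.Agent.H57.LOW.Lod
import Pool.Agent.H57.LOW.Loc
import Pool.Agent.H57.LOW.Lob
import Pool.Agent.H38.BB.CLb

/-!
# [H57 MP MC] the sum of the level one weights, 120-200 lines. File Pool/Agent/H57/MP/Mc.lean

* `rh_le`: `#RHf ≤ rhn * ∏ (#class of q (g i))^{#(f i)}` for all `b, E, ε, f` (`f i` outside `S0`). PROOF. The map `ρ ↦ (ρ (t v))_{i, v ∈ f i}` to the families of elements of the classes; for `ρ, ρ'` in the same fibre `rh_same` (Pool/Agent/H77/PC3/CTw.lean) gives `ρ' = tw Dg χ ρ` with `χ` in the set of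
  `rhn_mem` (CLx.lean), and `χ ↦ tw Dg χ ρ` is determined by `χ`: so every fibre has at most `rhn` elements (fix `ρ` in the fibre; `ρ' ↦ χ` is injective). `Finset.card_le_mul_card_image` or `Finset.card_eq_sum_card_fiberwise`; the number of families is `∏ (#class)^{#(f i)}` (`Fintype.card_pi`). Compare the proof of
  `rh_card_eq` in CLx.lean.
* `mc_pt`: for `f` disjoint families of good primes: `∑_ρ ∏ ‖fC 0 i (cq ρ v)‖ ≤ rhn * wtR`. PROOF. `xi Dg 0 i x = 0` (`dt 0 _ = 0`), `‖fC Dg 0 i x‖ = Wn / #Bi` for `x ∈ Bi`, `0` otherwise. If all `cq ρ v ∈ Bi` for some `ρ ∈ RHf`, then `F v ∈ C i` at all typed `v` by `rh_F` (Lod.lean) and `lob_mem` (Lob.lean)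
  (`F v k = LL v (akR D Dg.cr b f k)`), so `wtR = ∏ #(ann0 (C i))^{#(f i)}` (`loe_wt`, Loe.lean), and with `rh_le` the sum is at most `rhn * ∏ (#cls * Wn / #Bi)^{#(f i)} = rhn * ∏ #ann0^{#(f i)}` by `wn_card` (Loc.lean). If there is no such `ρ` the sum is `0` and `wtR ≥ 0` (`lb_wt_nonneg`, or `loe_wt`).
* `mp_c`: `PR (‖fC 0‖) ≤ rhn * SW D Dg.cr b E 1 (2 Y)`: `pr_pc` (Pool/Agent/H77/PT/Lin.lean), `pcu_zero`, `mg` with `φ i x = (‖fC Dg 0 i x‖ : ℂ)`, `u = 0`, `lam = 0` (`uu_zero`): the left side is the sum over the `f` of `PF0`, whose terms are `≤` those of `SW` times `rhn` (`0 ≤ wl ≤ 1`, `mc_pt`; the terms of `SW` without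
  `Big` are `≥ 0`; `h = fun _ => 1`).
-/

set_option autoImplicit false

open scoped NumberField
open IsDedekindDomain
open scoped Classical

noncomputable section

namespace H57.MP

open H57.PC H57.LOW H57.BRA H63.MA H38.BB H38.BG H51.CUB H77.PT H77.PC3

variable {K : Type} [Field K] [NumberField K] {p : ℕ} {ζ : K} {Ω : Type} [Field Ω] [Algebra K Ω]
  [IsAlgClosure K Ω] {m l w N : ℕ} {P R : Type} [Group P] [Group R]

theorem rh_le [NeZero p] [Finite R] (hp : p.Prime) (hζ : IsPrimitiveRoot ζ p) {D : RD0 K p ζ}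
    (L : LDs D Ω) (Dg : GP p m l w N P R) (b : Fin m → Kˣ) (E : Finset (Pl K))
    (ε : Pl K → Gal(Ω/K) → R) (f : Fin N → Finset (Pl K)) (hS : ∀ i, ∀ v ∈ f i, v ∉ D.S0) :
    (RHf L Dg b E ε f).card ≤
      rhn L Dg * ∏ i, Nat.card {r : R // IsConj r (Dg.q (Dg.g i))} ^ (f i).card := by
  have hfin : Fintype R := Fintype.ofFinite R
  obtain ⟨T, hT⟩ : ∃ T : Finset ((i : Fin N) → (↥(f i) → R)), T =
    Fintype.piFinset (fun i => Fintype.piFinset
      (fun _ : ↥(f i) => Finset.univ.filter fun h : R => IsConj h (Dg.q (Dg.g i)))) := ⟨_, rfl⟩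
  have hTm : ∀ e, e ∈ T ↔ ∀ i (v : ↥(f i)), IsConj (e i v) (Dg.q (Dg.g i)) := by
    intro e
    rw [hT, Fintype.mem_piFinset]
    simp only [Fintype.mem_piFinset, Finset.mem_filter, Finset.mem_univ, true_and]
  have hTc : T.card = ∏ i, Nat.card {r : R // IsConj r (Dg.q (Dg.g i))} ^ (f i).card := by
    rw [hT, Fintype.card_piFinset]
    refine Finset.prod_congr rfl fun i _ => ?_
    rw [Fintype.card_piFinset, Finset.prod_const, Finset.card_univ, Fintype.card_coe,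
      Nat.card_eq_fintype_card, Fintype.card_subtype]
  let F : (Gal(Ω/K) →* R) → ((i : Fin N) → (↥(f i) → R)) := fun ρ i v => ρ (L.t v.1)
  have hmaps : ∀ ρ ∈ RHf L Dg b E ε f, F ρ ∈ T := by
    intro ρ hρ
    rw [mem_RHf' hp hζ] at hρ
    rw [hTm]
    exact fun i v => (hρ.2.2.1 i v.1 v.2).1
  have hfib : ∀ e ∈ T, ((RHf L Dg b E ε f).filter fun ρ => F ρ = e).card ≤ rhn L Dg := by
    intro e _
    refine rhc_fib hp hζ L Dg b E ε f _
      (fun ρ hρ => (mem_RHf' hp hζ).1 (Finset.mem_filter.1 hρ).1) ?_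
    intro ρ hρ ρ' hρ' i v hi
    rw [Finset.mem_filter] at hρ hρ'
    exact congrFun (congrFun (hρ.2.trans hρ'.2.symm) i) ⟨v, hi⟩
  have h2 := Finset.card_le_mul_card_image_of_maps_to hmaps (rhn L Dg) hfib
  rwa [hTc] at h2

theorem mc_nle [NeZero p] (Dg : GP p m l w N P R) (χ : Fin N → Fin l → ZMod p) (i : Fin N)
    (x : Fin w → ZMod p) : ‖fC Dg χ i x‖ ≤ (Dg.Wn i : ℝ) / Nat.card (Dg.Bi i) := by
  unfold fC
  split_ifs
  · rw [norm_mul, ep_norm, mul_one, Complex.norm_real, Real.norm_of_nonneg (by positivity)]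
  · rw [norm_zero]; positivity

theorem mc_pt [NeZero p] [Finite P] [Finite R] (hp : p.Prime) (hζ : IsPrimitiveRoot ζ p)
    {D : RD0 K p ζ} {L : LDs D Ω} (Fr : FR L) (Dg : GP p m l w N P R) (b : Fin m → Kˣ)
    (E : Finset (Pl K)) (ε : Pl K → Gal(Ω/K) → R) (f : Fin N → Finset (Pl K)) (hf : Dj f)
    (hS : ∀ i, ∀ v ∈ f i, D.Gd v) :
    ∑ ρ ∈ RHf L Dg b E ε f, ∏ i, ∏ v ∈ f i, ‖fC Dg 0 i (cq Dg Fr ρ v)‖ ≤
      rhn L Dg * wtR Dg.cr f (fun v k => D.LL v (akR D Dg.cr b f k)) := by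
  by_cases hex : ∃ ρ ∈ RHf L Dg b E ε f, ∀ i, ∀ v ∈ f i, cq Dg Fr ρ v ∈ Dg.Bi i
  · obtain ⟨ρ₀, hρ₀, hall⟩ := hex
    rw [mem_RHf' hp hζ] at hρ₀
    have hC : ∀ i, ∀ v ∈ f i, (fun k => D.LL v (akR D Dg.cr b f k)) ∈ Dg.C i := by
      intro i v hv
      obtain ⟨e1, e2, e3⟩ := rh_F Dg Fr hS hρ₀ hv
      rw [← e3]
      exact (lob_mem hp Dg i e1 e2).1 (hall i v hv)
    rw [loe_wt hp, if_pos hC]
    have h1 : ∑ ρ ∈ RHf L Dg b E ε f, ∏ i, ∏ v ∈ f i, ‖fC Dg 0 i (cq Dg Fr ρ v)‖ ≤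
        ∑ _ρ ∈ RHf L Dg b E ε f, ∏ i, ((Dg.Wn i : ℝ) / Nat.card (Dg.Bi i)) ^ (f i).card := by
      refine Finset.sum_le_sum fun ρ _ => ?_
      refine Finset.prod_le_prod (fun i _ => Finset.prod_nonneg fun v _ => norm_nonneg _)
        fun i _ => ?_
      rw [← Finset.prod_const]
      exact Finset.prod_le_prod (fun v _ => norm_nonneg _) fun v _ => mc_nle Dg 0 i _
    rw [Finset.sum_const, nsmul_eq_mul] at h1
    refine h1.trans ?_
    have h2 : ((RHf L Dg b E ε f).card : ℝ) ≤ rhn L Dg *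
        ∏ i, (Nat.card {r : R // IsConj r (Dg.q (Dg.g i))} : ℝ) ^ (f i).card := by
      exact_mod_cast rh_le hp hζ L Dg b E ε f fun i v hv => (hS i v hv).1
    have h0 : 0 ≤ ∏ i, ((Dg.Wn i : ℝ) / Nat.card (Dg.Bi i)) ^ (f i).card :=
      Finset.prod_nonneg fun i _ => by positivity
    refine (mul_le_mul_of_nonneg_right h2 h0).trans (le_of_eq ?_)
    rw [mul_assoc, ← Finset.prod_mul_distrib]
    congr 1
    refine Finset.prod_congr rfl fun i _ => ?_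
    rw [← mul_pow]
    congr 1
    have h3 : (Nat.card {r : R // IsConj r (Dg.q (Dg.g i))} : ℝ) * Dg.Wn i =
        Nat.card (Dg.Bi i) * Nat.card (ann0 (Dg.C i)) := by
      exact_mod_cast wn_card hp Dg i
    have h4 : (Nat.card (Dg.Bi i) : ℝ) ≠ 0 := by
      have : 0 < Nat.card (Dg.Bi i) := Nat.card_pos
      positivity
    rw [← mul_div_assoc, h3, mul_div_cancel_left₀ _ h4]
  · have h0 : ∑ ρ ∈ RHf L Dg b E ε f, ∏ i, ∏ v ∈ f i, ‖fC Dg 0 i (cq Dg Fr ρ v)‖ = 0 := by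
      refine Finset.sum_eq_zero fun ρ hρ => ?_
      have h1 : ∃ i, ∃ v ∈ f i, cq Dg Fr ρ v ∉ Dg.Bi i := by
        by_contra hn
        push Not at hn
        exact hex ⟨ρ, hρ, hn⟩
      obtain ⟨i, v, hv, hc⟩ := h1
      refine Finset.prod_eq_zero (Finset.mem_univ i) (Finset.prod_eq_zero hv ?_)
      unfold fC
      rw [if_neg hc, norm_zero]
    rw [h0]
    exact mul_nonneg (Nat.cast_nonneg _) (lb_wt_nonneg _ _ _)

theorem mp_c [NeZero p] [Finite P] [Finite R] (hp : p.Prime) (hζ : IsPrimitiveRoot ζ p)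
    {D : RD0 K p ζ} {L : LDs D Ω} (Fr : FR L) (Dg : GP p m l w N P R) (b : Fin m → Kˣ)
    (E : Finset (Pl K)) (ε : Pl K → Gal(Ω/K) → R) (Y : ℝ)
    (hY : Real.exp (Real.log (Real.log Y) ^ 5) ≤ thr Y 1) :
    PR Dg Fr (UM N Y) (fun a x => ‖fC Dg 0 a.1 x‖) b E ε omL Y ≤
      rhn L Dg * SW D Dg.cr b E (fun _ => 1) (2 * Y) := by
  have h1 := pr_pc Dg Fr (UM N Y) (fun a x => ‖fC Dg 0 a.1 x‖) b E ε omL Y
  rw [← pcu_zero, mg Dg Fr (fun i x => ((‖fC Dg 0 i x‖ : ℝ) : ℂ)) b E ε (fun _ _ => 0)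
    (fun _ _ => 0) Y hY] at h1
  have h2 : PF0 Dg Fr (fun i x => ((‖fC Dg 0 i x‖ : ℝ) : ℂ)) b E ε (fun _ _ => 0)
      (fun _ _ => 0) Y = ((∑ f ∈ Fintype.piFinset (fun _ : Fin N => GF D (2 * Y)),
      if (Dj f ∧ (∀ i, Disjoint (f i) E) ∧ ∏ i, nr (f i) ≤ 2 * Y ∧ SpR Dg.cr b f) ∧
        Big (thr Y 1) f then
        wl ((∏ i, nr (f i)) / Y) *
          ∑ ρ ∈ RHf L Dg b E ε f, ∏ i, ∏ v ∈ f i, ‖fC Dg 0 i (cq Dg Fr ρ v)‖ else 0 : ℝ) : ℂ) := by
    unfold PF0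
    rw [Complex.ofReal_sum]
    refine Finset.sum_congr rfl fun f _ => ?_
    split_ifs
    · rw [uu_zero, ep_zero, mul_one]
      push_cast
      rfl
    · exact Complex.ofReal_zero.symm
  rw [h2] at h1
  have h3 := Complex.ofReal_injective h1
  rw [h3]
  unfold SW
  rw [Finset.mul_sum]
  refine Finset.sum_le_sum fun f hf => ?_
  rw [Fintype.mem_piFinset] at hf
  have hwt := lb_wt_nonneg Dg.cr f (fun v k => D.LL v (akR D Dg.cr b f k))
  by_cases hc : Dj f ∧ (∀ i, Disjoint (f i) E) ∧ ∏ i, nr (f i) ≤ 2 * Y ∧ SpR Dg.cr b f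
  · rw [if_pos hc, one_mul]
    split_ifs
    · have h4 := mc_pt hp hζ Fr Dg b E ε f hc.1
        (fun i v hv => ((akb_mem_GF D).1 (hf i)).2 v hv)
      have h5 : wl ((∏ i, nr (f i)) / Y) ≤ 1 := by
        unfold wl
        exact max_le zero_le_one (min_le_left _ _)
      have h6 : 0 ≤ ∑ ρ ∈ RHf L Dg b E ε f, ∏ i, ∏ v ∈ f i, ‖fC Dg 0 i (cq Dg Fr ρ v)‖ :=
        Finset.sum_nonneg fun ρ _ => Finset.prod_nonneg fun i _ =>
          Finset.prod_nonneg fun v _ => norm_nonneg _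
      exact (mul_le_of_le_one_left h6 h5).trans h4
    · exact mul_nonneg (Nat.cast_nonneg _) hwt
  · rw [if_neg hc, if_neg (fun h => hc h.1), mul_zero]

end H57.MP
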