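import Pool.Agent.H57.MP.Def

/-!
# [H57 MP MG] families with windows and families without windows, 100-160 lines. File Pool/Agent/H57/MP/Mg.lean

`mg`: if `exp ((log log Y)^5) ≤ thr Y 1` and the weights `φ`, `u`, `lam` only depend on the class, the sum over the families with windows is the sum over the families without windows.

PROOF. Bijection `h ↦ clw (UM N Y) h` (`clw U h i = ⋃ t, h (i, t)`), inverse `f ↦ (fun a => (f a.1).filter (fun v => U.lo a < nm v ∧ nm v ≤ U.hi a))`, between the `h` in `piFinset (GF D (2 Y))` with `Wc D U E Y h` and the `f` in `piFinset (GF D (2 Y))` with `Dj f`, `∀ i, Disjoint (f i) E`, `∏ nr (f i) ≤ 2 Y`.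
(`D.Gd v` gives `0 < nm v`; every `v` in some `f i` has `nm v ≤ nr (f i) ≤ ∏ nr (f j) ≤ 2 Y` as all `nr ≥ 1`; the three windows of a class partition `(0, 2 Y]` if `thr Y 1 ≤ 2 Y`, and if `thr Y 1 > 2 Y` the windows `0, 1` contain all norms `≤ 2 Y` and window `2` is empty; the windows of the same class
are disjoint because `exp ((log log Y)^5) ≤ thr Y 1`.) `mg_nr`: for `Dj h`: `∏ a, nr (h a) = ∏ i, nr (clw U h i)` (`Finset.prod_biUnion`, `Fintype.prod_prod_type`); the same for `∏ a, ∏ v ∈ h a, φ a.1 (..)` and for the sums in `UU` (`mg_uu`; `Finset.sum_biUnion`).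
`FulL (spt h)` iff `Big (thr Y 1) (clw U h)`: `(i, 2) ∈ spt h` iff `h (i, 2) ≠ ∅` iff there is a `v ∈ clw U h i` of norm `> thr Y 1` (`spt g = univ.filter (g a ≠ ∅)`). `omL = 1` or `0`. The conditions `SpR Dg.cr b (clw U h)` and the set `RHf L Dg b E ε (clw U h)` are literally those for `f`.
`GF D X`: `atupa_mem_GF` (Pool/Agent/H63/MA/ATupA.lean or near): `n ∈ GF D X ↔ nr n ≤ X ∧ ∀ v ∈ n, D.Gd v`. `Finset.sum_bij'` or `Finset.sum_nbij'` on the filtered sums.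
Similar proofs: Pool/Agent/H38/BB (`unR`), Pool/Agent/H77/PT (`uc`).
-/

set_option autoImplicit false

open scoped NumberField
open IsDedekindDomain
open scoped Classical

noncomputable section

namespace H57.MP

open H57.PC H57.LOW H63.MA H38.BB H38.BG H51.CUB H77.PT

variable {K : Type} [Field K] [NumberField K] {p : ℕ} {ζ : K} {D : RD0 K p ζ} {Ω : Type}
  [Field Ω] [Algebra K Ω] {m l w N : ℕ} {P R : Type} [Group P] [Group R]

/-- the windows -/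
def mgW (N : ℕ) (Y : ℝ) (a : Fin N × Fin 3) (x : ℝ) : Prop :=
  (UM N Y).lo a < x ∧ x ≤ (UM N Y).hi a

theorem mg_w0 {Y x : ℝ} {i : Fin N} :
    mgW N Y (i, 0) x ↔ 0 < x ∧ x ≤ Real.exp (Real.log (Real.log Y) ^ 5) := by
  unfold mgW UM
  simp

theorem mg_w1 {Y x : ℝ} {i : Fin N} :
    mgW N Y (i, 1) x ↔ Real.exp (Real.log (Real.log Y) ^ 5) < x ∧ x ≤ thr Y 1 := by
  unfold mgW UM
  simp

theorem mg_w2 {Y x : ℝ} {i : Fin N} : mgW N Y (i, 2) x ↔ thr Y 1 < x ∧ x ≤ 2 * Y := by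
  unfold mgW UM
  have h0 : (2 : Fin 3) ≠ 0 := by decide
  have h1 : (2 : Fin 3) ≠ 1 := by decide
  simp only [if_neg h0, if_neg h1]

theorem mg_uniq {Y : ℝ} (hY : Real.exp (Real.log (Real.log Y) ^ 5) ≤ thr Y 1) {i : Fin N}
    {t t' : Fin 3} {x : ℝ} (h : mgW N Y (i, t) x) (h' : mgW N Y (i, t') x) : t = t' := by
  fin_cases t <;> fin_cases t'
  · rfl
  · exact absurd (mg_w1.mp h').1 (not_lt.mpr (mg_w0.mp h).2)
  · exact absurd (mg_w2.mp h').1 (not_lt.mpr ((mg_w0.mp h).2.trans hY))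
  · exact absurd (mg_w1.mp h).1 (not_lt.mpr (mg_w0.mp h').2)
  · rfl
  · exact absurd (mg_w2.mp h').1 (not_lt.mpr (mg_w1.mp h).2)
  · exact absurd (mg_w2.mp h).1 (not_lt.mpr ((mg_w0.mp h').2.trans hY))
  · exact absurd (mg_w2.mp h).1 (not_lt.mpr (mg_w1.mp h').2)
  · rfl

theorem mg_cover {Y x : ℝ} (h0 : 0 < x) (h2 : x ≤ 2 * Y) (i : Fin N) :
    ∃ t, mgW N Y (i, t) x := by
  by_cases h : x ≤ Real.exp (Real.log (Real.log Y) ^ 5)
  · exact ⟨0, mg_w0.mpr ⟨h0, h⟩⟩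
  · by_cases h1 : x ≤ thr Y 1
    · exact ⟨1, mg_w1.mpr ⟨not_le.mp h, h1⟩⟩
    · exact ⟨2, mg_w2.mpr ⟨not_le.mp h1, h2⟩⟩

theorem mg_two {Y : ℝ} (hY : Real.exp (Real.log (Real.log Y) ^ 5) ≤ thr Y 1) {i : Fin N}
    {t : Fin 3} {x : ℝ} (h : mgW N Y (i, t) x) (hx : thr Y 1 < x) : t = 2 := by
  fin_cases t
  · exact absurd hx (not_lt.mpr ((mg_w0.mp h).2.trans hY))
  · exact absurd hx (not_lt.mpr (mg_w1.mp h).2)
  · rfl

theorem mg_mem {Y : ℝ} {h : Fin N × Fin 3 → Finset (Pl K)} {i : Fin N} {v : Pl K} :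
    v ∈ clw (UM N Y) h i ↔ ∃ t, v ∈ h (i, t) := by
  unfold clw
  rw [Finset.mem_biUnion]
  constructor
  · rintro ⟨⟨j, t⟩, ha, hv⟩
    have : j = i := (Finset.mem_filter.mp ha).2
    subst this
    exact ⟨t, hv⟩
  · rintro ⟨t, hv⟩
    exact ⟨(i, t), Finset.mem_filter.mpr ⟨Finset.mem_univ _, rfl⟩, hv⟩

theorem mg_prod {M : Type} [CommMonoid M] (Y : ℝ) {h : Fin N × Fin 3 → Finset (Pl K)} (hd : Dj h)
    (F : Fin N → Pl K → M) :
    ∏ a, ∏ v ∈ h a, F a.1 v = ∏ i, ∏ v ∈ clw (UM N Y) h i, F i v := by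
  rw [← Finset.prod_fiberwise Finset.univ (fun a : Fin N × Fin 3 => a.1)
    (fun a => ∏ v ∈ h a, F a.1 v)]
  refine Finset.prod_congr rfl fun i _ => ?_
  unfold clw
  rw [Finset.prod_biUnion fun a _ a' _ haa => hd a a' haa]
  refine Finset.prod_congr rfl fun a ha => ?_
  have h1 : a.1 = i := (Finset.mem_filter.mp ha).2
  rw [h1]

theorem mg_sum {M : Type} [AddCommMonoid M] (Y : ℝ) {h : Fin N × Fin 3 → Finset (Pl K)}
    (hd : Dj h) (F : Fin N → Pl K → M) :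
    ∑ a, ∑ v ∈ h a, F a.1 v = ∑ i, ∑ v ∈ clw (UM N Y) h i, F i v := by
  rw [← Finset.sum_fiberwise Finset.univ (fun a : Fin N × Fin 3 => a.1)
    (fun a => ∑ v ∈ h a, F a.1 v)]
  refine Finset.sum_congr rfl fun i _ => ?_
  unfold clw
  rw [Finset.sum_biUnion fun a _ a' _ haa => hd a a' haa]
  refine Finset.sum_congr rfl fun a ha => ?_
  have h1 : a.1 = i := (Finset.mem_filter.mp ha).2
  rw [h1]

theorem mg_nr (Y : ℝ) {h : Fin N × Fin 3 → Finset (Pl K)} (hd : Dj h) :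
    ∏ a, nr (h a) = ∏ i, nr (clw (UM N Y) h i) :=
  mg_prod Y hd fun _ v => (nm v : ℝ)

theorem mg_uu (Y : ℝ) {h : Fin N × Fin 3 → Finset (Pl K)} (hd : Dj h)
    (u : Fin N → Pl K → ZMod p) (lam : Fin N → Fin N → ZMod p) :
    UU D (fun a => u a.1) (fun a a' => lam a.1 a'.1) h = UU D u lam (clw (UM N Y) h) := by
  unfold UU
  rw [← mg_sum Y hd fun i v =>
    u i v + ∑ i', lam i i' * ∑ v' ∈ clw (UM N Y) h i', D.LL v (D.pi v')]
  refine Finset.sum_congr rfl fun a _ => Finset.sum_congr rfl fun v _ => ?_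
  congr 1
  simp only [Finset.mul_sum]
  exact mg_sum Y hd fun i' v' => lam a.1 i' * D.LL v (D.pi v')

/-- the parts of a family -/
def mgG (Y : ℝ) (f : Fin N → Finset (Pl K)) (a : Fin N × Fin 3) : Finset (Pl K) :=
  (f a.1).filter fun v => mgW N Y a (nm v : ℝ)

theorem mg_memG {Y : ℝ} {f : Fin N → Finset (Pl K)} {a : Fin N × Fin 3} {v : Pl K} :
    v ∈ mgG Y f a ↔ v ∈ f a.1 ∧ mgW N Y a (nm v : ℝ) := Finset.mem_filter

theorem mg_left {Y : ℝ} (hY : Real.exp (Real.log (Real.log Y) ^ 5) ≤ thr Y 1)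
    {h : Fin N × Fin 3 → Finset (Pl K)} (hw : ∀ a, ∀ v ∈ h a, mgW N Y a (nm v : ℝ)) :
    mgG Y (clw (UM N Y) h) = h := by
  funext a
  obtain ⟨i, t⟩ := a
  ext v
  rw [mg_memG, mg_mem]
  constructor
  · rintro ⟨⟨t', ht'⟩, h2⟩
    have h3 : t' = t := mg_uniq hY (hw _ v ht') h2
    rw [← h3]
    exact ht'
  · intro hv
    exact ⟨⟨t, hv⟩, hw _ v hv⟩

theorem mg_nm_le {s : Finset (Pl K)} {v : Pl K} (hv : v ∈ s) : (nm v : ℝ) ≤ nr s := by
  have h1 : nr s = (nm v : ℝ) * nr (s.erase v) := (Finset.mul_prod_erase s (fun v => (nm v : ℝ)) hv).symm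
  rw [h1]
  exact le_mul_of_one_le_right (Nat.cast_nonneg _) (one_le_nr _)

theorem mg_right {Y : ℝ} {f : Fin N → Finset (Pl K)} (h0 : ∀ i, ∀ v ∈ f i, (0 : ℝ) < nm v)
    (h2 : ∀ i, nr (f i) ≤ 2 * Y) : clw (UM N Y) (mgG Y f) = f := by
  funext i
  ext v
  rw [mg_mem]
  constructor
  · rintro ⟨t, ht⟩
    exact (mg_memG.mp ht).1
  · intro hv
    obtain ⟨t, ht⟩ := mg_cover (h0 i v hv) ((mg_nm_le hv).trans (h2 i)) i
    exact ⟨t, mg_memG.mpr ⟨hv, ht⟩⟩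

theorem mg_dj {Y : ℝ} {h : Fin N × Fin 3 → Finset (Pl K)} (hd : Dj h) :
    Dj (clw (UM N Y) h) := by
  intro i i' hii
  rw [Finset.disjoint_left]
  intro v hv hv'
  obtain ⟨t, ht⟩ := mg_mem.mp hv
  obtain ⟨t', ht'⟩ := mg_mem.mp hv'
  exact Finset.disjoint_left.mp (hd (i, t) (i', t') fun e => hii (congrArg Prod.fst e)) ht ht'

theorem mg_full {Y : ℝ} (hY : Real.exp (Real.log (Real.log Y) ^ 5) ≤ thr Y 1)
    {h : Fin N × Fin 3 → Finset (Pl K)} (hw : ∀ a, ∀ v ∈ h a, mgW N Y a (nm v : ℝ)) :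
    FulL (spt h) ↔ Big (thr Y 1) (clw (UM N Y) h) := by
  unfold FulL Big
  refine forall_congr' fun i => ?_
  constructor
  · intro hi
    obtain ⟨v, hv⟩ := Finset.nonempty_iff_ne_empty.mpr (Finset.mem_filter.mp hi).2
    exact ⟨v, mg_mem.mpr ⟨2, hv⟩, (mg_w2.mp (hw _ v hv)).1⟩
  · rintro ⟨v, hv, hx⟩
    obtain ⟨t, ht⟩ := mg_mem.mp hv
    have h2 : t = 2 := mg_two hY (hw _ v ht) hx
    rw [h2] at ht
    exact Finset.mem_filter.mpr ⟨Finset.mem_univ _, Finset.nonempty_iff_ne_empty.mp ⟨v, ht⟩⟩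

theorem mg [NeZero p] {L : LDs D Ω} (Dg : GP p m l w N P R) (Fr : FR L)
    (φ : Fin N → (Fin w → ZMod p) → ℂ) (b : Fin m → Kˣ) (E : Finset (Pl K))
    (ε : Pl K → Gal(Ω/K) → R) (u : Fin N → Pl K → ZMod p) (lam : Fin N → Fin N → ZMod p)
    (Y : ℝ) (hY : Real.exp (Real.log (Real.log Y) ^ 5) ≤ thr Y 1) :
    PCU Dg Fr (UM N Y) (fun a => φ a.1) b E ε (fun a => u a.1) (fun a a' => lam a.1 a'.1)
        (fun S => ((omL S : ℝ) : ℂ)) Y =
      PF0 Dg Fr φ b E ε u lam Y := by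
  set A := (Fintype.piFinset (fun _ : Fin N × Fin 3 => GF D (2 * Y))).filter
    (fun h => (Wc D (UM N Y) E Y h ∧ SpR Dg.cr b (clw (UM N Y) h)) ∧ FulL (spt h)) with hA
  set B := (Fintype.piFinset (fun _ : Fin N => GF D (2 * Y))).filter
    (fun f => (Dj f ∧ (∀ i, Disjoint (f i) E) ∧ ∏ i, nr (f i) ≤ 2 * Y ∧ SpR Dg.cr b f) ∧
        Big (thr Y 1) f) with hB
  have e1 : PCU Dg Fr (UM N Y) (fun a => φ a.1) b E ε (fun a => u a.1)
      (fun a a' => lam a.1 a'.1) (fun S => ((omL S : ℝ) : ℂ)) Y =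
      ∑ h ∈ A, ((wl ((∏ a, nr (h a)) / Y) : ℝ) : ℂ) *
        (∑ ρ ∈ RHf L Dg b E ε (clw (UM N Y) h), ∏ a, ∏ v ∈ h a, φ a.1 (cq Dg Fr ρ v)) *
          ep p (UU D (fun a => u a.1) (fun a a' => lam a.1 a'.1) h) := by
    rw [hA, Finset.sum_filter]
    unfold PCU
    refine Finset.sum_congr (by ext x; simp only [Fintype.mem_piFinset]) fun h _ => ?_
    by_cases h1 : Wc D (UM N Y) E Y h ∧ SpR Dg.cr b (clw (UM N Y) h)
    · rw [if_pos h1]
      by_cases h2 : FulL (spt h)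
      · rw [if_pos ⟨h1, h2⟩]
        have h3 : omL (spt h) = 1 := if_pos h2
        beta_reduce
        rw [h3, Complex.ofReal_one, one_mul]
      · rw [if_neg fun h4 => h2 h4.2]
        have h3 : omL (spt h) = 0 := if_neg h2
        beta_reduce
        rw [h3, Complex.ofReal_zero]
        ring
    · rw [if_neg h1, if_neg fun h4 => h1 h4.1]
  have e2 : PF0 Dg Fr φ b E ε u lam Y =
      ∑ f ∈ B, ((wl ((∏ i, nr (f i)) / Y) : ℝ) : ℂ) *
        (∑ ρ ∈ RHf L Dg b E ε f, ∏ i, ∏ v ∈ f i, φ i (cq Dg Fr ρ v)) * ep p (UU D u lam f) := by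
    rw [hB, Finset.sum_filter]
    rfl
  rw [e1, e2]
  refine Finset.sum_nbij' (fun h => clw (UM N Y) h) (fun f => mgG Y f) ?_ ?_ ?_ ?_ ?_
  · intro h hh
    obtain ⟨hpi, ⟨⟨hd, hdE, hnr, hw⟩, hsp⟩, hful⟩ := Finset.mem_filter.mp hh
    rw [Fintype.mem_piFinset] at hpi
    rw [mg_nr Y hd] at hnr
    refine Finset.mem_filter.mpr ⟨?_, ⟨mg_dj hd, ?_, hnr, hsp⟩, (mg_full hY hw).mp hful⟩
    · rw [Fintype.mem_piFinset]
      intro i
      rw [atupa_mem_GF]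
      refine ⟨(atupa_le_prod (clw (UM N Y) h) i).trans hnr, ?_⟩
      intro v hv
      obtain ⟨t, ht⟩ := mg_mem.mp hv
      exact (atupa_mem_GF.mp (hpi (i, t))).2 v ht
    · intro i
      rw [Finset.disjoint_left]
      intro v hv
      obtain ⟨t, ht⟩ := mg_mem.mp hv
      exact Finset.disjoint_left.mp (hdE (i, t)) ht
  · intro f hf
    obtain ⟨hpi, ⟨hd, hdE, hnr, hsp⟩, hbig⟩ := Finset.mem_filter.mp hf
    rw [Fintype.mem_piFinset] at hpi
    have h0 : ∀ i, ∀ v ∈ f i, (0 : ℝ) < nm v := by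
      intro i v hv
      have h1 := (atupa_mem_GF.mp (hpi i)).2 v hv
      exact_mod_cast h1.2.pos
    have hr := mg_right (Y := Y) h0 fun i => (atupa_mem_GF.mp (hpi i)).1
    have hw : ∀ a, ∀ v ∈ mgG Y f a, mgW N Y a (nm v : ℝ) := fun a v hv => (mg_memG.mp hv).2
    have hdG : Dj (mgG Y f) := by
      rintro ⟨i, t⟩ ⟨i', t'⟩ haa
      rw [Finset.disjoint_left]
      intro v hv hv'
      obtain ⟨h1, h2⟩ := mg_memG.mp hv
      obtain ⟨h1', h2'⟩ := mg_memG.mp hv'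
      by_cases hii : i = i'
      · subst hii
        exact haa (by rw [mg_uniq hY h2 h2'])
      · exact Finset.disjoint_left.mp (hd i i' hii) h1 h1'
    have hnG : ∏ a, nr (mgG Y f a) ≤ 2 * Y := by
      rw [mg_nr Y hdG, hr]
      exact hnr
    refine Finset.mem_filter.mpr ⟨?_, ⟨⟨hdG, ?_, hnG, hw⟩, ?_⟩, ?_⟩
    · rw [Fintype.mem_piFinset]
      intro a
      rw [atupa_mem_GF]
      refine ⟨(atupa_le_prod (mgG Y f) a).trans hnG, ?_⟩
      intro v hv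
      exact (atupa_mem_GF.mp (hpi a.1)).2 v (mg_memG.mp hv).1
    · intro a
      rw [Finset.disjoint_left]
      intro v hv
      exact Finset.disjoint_left.mp (hdE a.1) (mg_memG.mp hv).1
    · rw [hr]
      exact hsp
    · rw [mg_full hY hw, hr]
      exact hbig
  · intro h hh
    obtain ⟨-, ⟨⟨-, -, -, hw⟩, -⟩, -⟩ := Finset.mem_filter.mp hh
    exact mg_left hY hw
  · intro f hf
    obtain ⟨hpi, -⟩ := Finset.mem_filter.mp hf
    rw [Fintype.mem_piFinset] at hpi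
    have h0 : ∀ i, ∀ v ∈ f i, (0 : ℝ) < nm v := by
      intro i v hv
      have h1 := (atupa_mem_GF.mp (hpi i)).2 v hv
      exact_mod_cast h1.2.pos
    exact mg_right (Y := Y) h0 fun i => (atupa_mem_GF.mp (hpi i)).1
  · intro h hh
    obtain ⟨-, ⟨⟨hd, -, -, -⟩, -⟩, -⟩ := Finset.mem_filter.mp hh
    rw [mg_nr Y hd, mg_uu Y hd]
    congr 2
    refine Finset.sum_congr rfl fun ρ _ => ?_
    exact mg_prod Y hd fun i v => φ i (cq Dg Fr ρ v)

end H57.MP
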