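import Pool.Agent.H57.MP.Ma

/-!
# [H57 MP MB] the small primes linked with two large ones are negligible, 100-170 lines. File Pool/Agent/H57/MP/Mb.lean

`mp_b`: `PCU (fB 0) = PCU (fC 0) + O(Y (log Y)^(-A))`.

PROOF. `U = UM N Y`, `c = cB Dg`, `T = U.ex c`: the types `(a, ν)`, `a.2 ≠ 0`, `rs Dg a.1 ν ≠ 0` have weight `0` and so `T.psi = 0`. By `fB0_cf` and `pcu_ts` the first sum is `TSU T ω`, `ω S = omL (S.image fst)`. By `fC0_cf` and `tsu_sub` with `S₀ = {a | rs Dg a.1.1 a.2 = 0}` the second sum is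
`TSU T (if S ⊆ S₀ then ω S else 0)` (the coefficient in `fC0_cf` is `if (a, ν) ∈ S₀ then cB Dg a ν else 0`). The difference is `TSU T (if S ⊆ S₀ then 0 else ω S)` (`tsu_sub2`). But types of weight `0` may be in `S`: first replace `ω` by `ω` restricted to the supports without types of weight `0`
(termwise: if `g a ≠ ∅` and `wt a = 0` the factor `wt a ^ #(g a)` is `0`; lemma `mb_wt`: `TSU T ω = TSU T (if (∀ a ∈ S, T.wt a ≠ 0) then ω S else 0)`).
If `ω S ≠ 0`, `¬ S ⊆ S₀` and all weights in `S` are `≠ 0`: there is `a₀ ∈ S` with `rs Dg a₀.1.1 a₀.2 ≠ 0`, so `a₀.1.2 = 0` and `T.psi a₀ = a₀.2`; by `rs_ex` there are `j, k` with `a₀.2 · β (kV (s j) (s k)) (s i) ≠ 0`; by `FulL` there are `a₁, a₂ ∈ S` with `a₁.1 = (j, 2)`, `a₂.1 = (k, 2)`, of weight `≠ 0`,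
so `rs Dg j a₁.2 = 0`, `rs Dg k a₂.2 = 0`. `tsu_bad` with `B` the set of the triples `(a₀, a₁, a₂)` with `a₁.1.2 = a₂.1.2 = 2`, `T.psi a₀ · β (kV (s a₁) (s a₂)) (s a₀) ≠ 0`; `lls_mainU` with `z = exp ((log log Y)^5)`:
every type has `hi ≤ z` (window `0`) or `T.psi a · β v (s) = 0` for all `v` (`T.psi a = 0`, or `c ≠ 0` and `rs = 0`: `rs_dt`); `z ^ ((log log Y)^2) = exp ((log log Y)^7) ≤ thr Y 1 = exp ((log log Y)^8)` for `log log Y ≥ 1` (`Real.exp_mul`, `Real.rpow`: the exponent is a real number `Real.log (Real.log Y) ^ 2`);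
`exp ((log log Y)^4) ≤ z`. Weights `≤ M = ∑ i, Wn i` as in Ma.lean.
-/

set_option autoImplicit false

open scoped NumberField
open IsDedekindDomain
open scoped Classical

noncomputable section

namespace H57.MP

open H57.PC H57.LOW H57.BRA H63.MA H38.BB H38.BG H51.CUB H77.PT

variable {K : Type} [Field K] [NumberField K] {p : ℕ} {ζ : K} {Ω : Type} [Field Ω] [Algebra K Ω]
  [IsAlgClosure K Ω] {m l w N : ℕ} {P R : Type} [Group P] [Group R]

/-- types of weight zero do not contribute -/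
theorem mb_wt [NeZero p] {D : RD0 K p ζ} {L : LDs D Ω} {J : Type} [Fintype J]
    (Dg : GP p m l w N P R) (Fr : FR L) (T : TY N w p J)
    (b : Fin m → Kˣ) (E : Finset (Pl K)) (ε : Pl K → Gal(Ω/K) → R) (u : J → Pl K → ZMod p)
    (lam : J → J → ZMod p) (ω : Finset J → ℂ) (Y : ℝ) :
    TSU Dg Fr T b E ε u lam ω Y =
      TSU Dg Fr T b E ε u lam (fun S => if ∀ a ∈ S, T.wt a ≠ 0 then ω S else 0) Y := by
  unfold TSU
  refine Finset.sum_congr rfl fun g _ => ?_
  by_cases hc : Wd D T E Y g ∧ SpR Dg.cr b (clf T g)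
  · rw [if_pos hc, if_pos hc]
    beta_reduce
    by_cases h1 : ∀ a ∈ spt g, T.wt a ≠ 0
    · rw [if_pos h1]
    · rw [if_neg h1]
      push Not at h1
      obtain ⟨a, ha, ha0⟩ := h1
      have ha1 : g a ≠ ∅ := (Finset.mem_filter.1 ha).2
      have h2 : (g a).card ≠ 0 := fun h => ha1 (Finset.card_eq_zero.1 h)
      have h3 : (∏ a, T.wt a ^ (g a).card : ℝ) = 0 := by
        refine Finset.prod_eq_zero (Finset.mem_univ a) ?_
        rw [ha0, zero_pow h2]
      rw [h3]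
      simp only [Complex.ofReal_zero, mul_zero, zero_mul]
  · rw [if_neg hc, if_neg hc]

theorem mb_cB_le [NeZero p] (Dg : GP p m l w N P R) (a : Fin N × Fin 3) (ν : Fin w → ZMod p) :
    cB Dg a ν ≤ ∑ j, (Dg.Wn j : ℝ) := by
  unfold cB
  have h0 : (0 : ℝ) ≤ ∑ j, (Dg.Wn j : ℝ) := Finset.sum_nonneg fun j _ => Nat.cast_nonneg _
  split_ifs
  · have h2 : (1 : ℝ) ≤ (p : ℝ) ^ w := by
      have h3 : (1 : ℝ) ≤ (p : ℝ) := by exact_mod_cast NeZero.pos p
      exact one_le_pow₀ h3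
    refine (div_le_self (Nat.cast_nonneg _) h2).trans ?_
    exact Finset.single_le_sum (f := fun j => (Dg.Wn j : ℝ)) (fun j _ => Nat.cast_nonneg _)
      (Finset.mem_univ a.1)
  · exact h0

theorem mb_rs (Dg : GP p m l w N P R) (a : Fin N × Fin 3) (ν : Fin w → ZMod p)
    (h : cB Dg a ν ≠ 0) (ha : a.2 ≠ 0) : rs Dg a.1 ν = 0 := by
  unfold cB at h
  by_contra hr
  refine h (if_neg ?_)
  rintro (h1 | h1)
  · exact ha h1
  · exact hr h1

/-- the linked triples -/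
def mbB [NeZero p] (Dg : GP p m l w N P R) :
    Finset (((Fin N × Fin 3) × (Fin w → ZMod p)) × ((Fin N × Fin 3) × (Fin w → ZMod p)) ×
      ((Fin N × Fin 3) × (Fin w → ZMod p))) :=
  Finset.univ.filter fun t =>
    (t.2.1.1.2 = 2 ∧ t.2.2.1.2 = 2 ∧ rs Dg t.2.1.1.1 t.2.1.2 = 0 ∧
      rs Dg t.2.2.1.1 t.2.2.2 = 0) ∧ cB Dg t.1.1 t.1.2 ≠ 0 ∧
      dt t.1.2 (Dg.β (Dg.kV (Dg.s t.2.1.1.1) (Dg.s t.2.2.1.1)) (Dg.s t.1.1.1)) ≠ 0

theorem mb_psi [NeZero p] (Dg : GP p m l w N P R) (Y : ℝ)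
    (a : (Fin N × Fin 3) × (Fin w → ZMod p)) (h : rs Dg a.1.1 a.2 = 0) (v : Fin l → ZMod p) :
    dt (((UM N Y).ex (fun a ν => cB Dg a ν)).psi a)
      (Dg.β v (Dg.s (((UM N Y).ex (fun a ν => cB Dg a ν)).cls a))) = 0 := by
  have hcls : ((UM N Y).ex (fun a ν => cB Dg a ν)).cls a = a.1.1 := rfl
  rw [hcls]
  have hpsi : ((UM N Y).ex (fun a ν => cB Dg a ν)).psi a =
      if cB Dg a.1 a.2 = 0 then 0 else a.2 := rfl
  rw [hpsi]
  split_ifs with hc
  · rw [← rs_dt, rs_zero, ga_dt0l]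
  · rw [← rs_dt, h, ga_dt0l]

theorem mp_b [NeZero p] [Finite P] [Finite R] (hp : p.Prime) (hp2 : MOne p K)
    (hζ : IsPrimitiveRoot ζ p) (hz : Z2 p K) (D : RD K p ζ) (L : LDs D.toRD0 Ω) (Fr : FR L)
    (Dg : GP p m l w N P R) (A : ℝ) :
    ∃ C Y₀ : ℝ, 0 < C ∧ 3 ≤ Y₀ ∧ ∀ Y : ℝ, Y₀ ≤ Y → ∀ (E : Finset (Pl K)) (b : Fin m → Kˣ),
      BS2 D.toRD0 b E → nr E ≤ Real.exp (Real.log (Real.log Y) ^ 4) →
      ∀ (ε : Pl K → Gal(Ω/K) → R) (u : Fin N × Fin 3 → Pl K → ZMod p)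
        (lam : Fin N × Fin 3 → Fin N × Fin 3 → ZMod p),
        ‖PCU Dg Fr (UM N Y) (fB Dg 0) b E ε u lam (fun S => ((omL S : ℝ) : ℂ)) Y -
            PCU Dg Fr (UM N Y) (fun a => fC Dg 0 a.1) b E ε u lam
              (fun S => ((omL S : ℝ) : ℂ)) Y‖ ≤
          C * Y * Real.log Y ^ (-A) := by
  obtain ⟨C, Y₀, hC, hY₀, h⟩ := lls_mainU hp hp2 hζ hz D L Fr Dg
    ((Fin N × Fin 3) × (Fin w → ZMod p)) (∑ j, (Dg.Wn j : ℝ)) A
  refine ⟨((mbB Dg).card + 1) * C, max Y₀ (Real.exp (Real.exp 1)), by positivity,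
    hY₀.trans (le_max_left _ _), fun Y hY E b hb hE ε u lam => ?_⟩
  have hY1 : Y₀ ≤ Y := (le_max_left _ _).trans hY
  have hY2 : Real.exp (Real.exp 1) ≤ Y := (le_max_right _ _).trans hY
  have hYp : 0 < Y := lt_of_lt_of_le (by linarith) hY1
  have hL : 0 < Real.log Y := Real.log_pos (by linarith)
  have hLL : (1 : ℝ) ≤ Real.log (Real.log Y) := by
    have e1 : Real.exp 1 ≤ Real.log Y := by
      rw [← Real.log_exp (Real.exp 1)]
      exact Real.log_le_log (Real.exp_pos _) hY2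
    rw [← Real.log_exp 1]
    exact Real.log_le_log (Real.exp_pos _) e1
  set c : Fin N × Fin 3 → (Fin w → ZMod p) → ℝ := fun a ν => cB Dg a ν with hc
  set U := UM N Y with hU
  set S₀ : Finset ((Fin N × Fin 3) × (Fin w → ZMod p)) :=
    Finset.univ.filter fun a => rs Dg a.1.1 a.2 = 0 with hS₀
  have hI : ∀ S : Finset ((Fin N × Fin 3) × (Fin w → ZMod p)),
      @Finset.image _ _ (fun a b => Classical.propDecidable (a = b)) Prod.fst S =
        S.image Prod.fst := by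
    intro S
    ext x
    simp only [Finset.mem_image]
  have e1 : PCU Dg Fr U (fB Dg 0) b E ε u lam (fun S => ((omL S : ℝ) : ℂ)) Y =
      TSU Dg Fr (U.ex c) b E ε (fun a => u a.1) (fun a a' => lam a.1 a'.1)
        (fun S => ((omL (S.image Prod.fst) : ℝ) : ℂ)) Y := by
    have e0 := pcu_ts hp Dg Fr U c b E ε u lam (fun S => ((omL S : ℝ) : ℂ)) Y
    simp only [hI] at e0
    rw [← e0]
    congr 1
    funext a x
    exact fB0_cf hp Dg a x
  have e2 : PCU Dg Fr U (fun a => fC Dg 0 a.1) b E ε u lam (fun S => ((omL S : ℝ) : ℂ)) Y =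
      TSU Dg Fr (U.ex c) b E ε (fun a => u a.1) (fun a a' => lam a.1 a'.1)
        (fun S => if S ⊆ S₀ then ((omL (S.image Prod.fst) : ℝ) : ℂ) else 0) Y := by
    have e0 := tsu_sub hp Dg Fr U c S₀ b E ε u lam (fun S => ((omL S : ℝ) : ℂ)) Y
    simp only [hI] at e0
    rw [e0]
    congr 1
    funext a x
    refine (fC0_cf hp Dg a x).trans (Finset.sum_congr rfl fun ν _ => ?_)
    have hiff : (a, ν) ∈ S₀ ↔ rs Dg a.1 ν = 0 := by
      rw [hS₀, Finset.mem_filter]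
      exact ⟨fun h => h.2, fun h => ⟨Finset.mem_univ _, h⟩⟩
    by_cases h1 : rs Dg a.1 ν = 0
    · rw [if_pos h1, if_pos (hiff.2 h1)]
    · rw [if_neg h1, if_neg (fun h' => h1 (hiff.1 h'))]
  rw [e1, e2, ← tsu_sub2, mb_wt]
  refine (?_ : _ ≤ ((mbB Dg).card : ℝ) * (C * Y * Real.log Y ^ (-A))).trans ?_
  · refine tsu_bad Dg Fr (U.ex c) b E ε (fun a => u a.1) (fun a a' => lam a.1 a'.1) (mbB Dg)
      (fun t S => t.1 ∈ S ∧ t.2.1 ∈ S ∧ t.2.2 ∈ S) Y (C * Y * Real.log Y ^ (-A)) ?_ _ ?_ ?_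
    · intro t ht ω hω hω'
      unfold mbB at ht
      obtain ⟨_, ⟨w1, w2, w3, w4⟩, w5, w6⟩ := Finset.mem_filter.1 ht
      refine h Y hY1 E b hb hE ε (U.ex c) ?_ _ _ ω hω (Real.exp (Real.log (Real.log Y) ^ 5)) ?_
        t.1 t.2.1 t.2.2 ?_ ?_ ?_ ?_ hω'
      · intro a
        exact ⟨cB_nonneg Dg a.1 a.2, mb_cB_le Dg a.1 a.2⟩
      · exact Real.exp_le_exp.2 (pow_le_pow_right₀ hLL (by norm_num))
      · intro a
        by_cases ha : a.1.2 = 0
        · left
          have h1 : (U.ex c).hi a = Real.exp (Real.log (Real.log Y) ^ 5) := if_pos ha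
          rw [h1]
        · right
          intro v
          by_cases hca : cB Dg a.1 a.2 = 0
          · have h1 : (U.ex c).psi a = 0 := if_pos hca
            rw [h1, ← rs_dt, rs_zero, ga_dt0l]
          · exact mb_psi Dg Y a (mb_rs Dg a.1 a.2 hca ha) v
      · intro a ha v
        rw [@Finset.mem_insert _ (fun a b => Classical.propDecidable (a = b)),
          Finset.mem_singleton] at ha
        rcases ha with rfl | rfl
        · exact mb_psi Dg Y _ w3 v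
        · exact mb_psi Dg Y _ w4 v
      · intro a ha
        have h2 : a.1.2 = 2 := by
          rw [@Finset.mem_insert _ (fun a b => Classical.propDecidable (a = b)),
            Finset.mem_singleton] at ha
          rcases ha with rfl | rfl
          · exact w1
          · exact w2
        have h3 : (U.ex c).lo a = thr Y 1 := by
          have h4 : ¬ a.1.2 = 0 := by rw [h2]; decide
          have h5 : ¬ a.1.2 = 1 := by rw [h2]; decide
          show (if a.1.2 = 0 then (0 : ℝ) else if a.1.2 = 1 then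
            Real.exp (Real.log (Real.log Y) ^ 5) else thr Y 1) = thr Y 1
          rw [if_neg h4, if_neg h5]
        rw [h3, ← Real.exp_mul]
        unfold thr
        refine Real.exp_le_exp.2 ?_
        rw [← pow_add]
        exact pow_le_pow_right₀ hLL (by norm_num)
      · have h1 : (U.ex c).psi t.1 = t.1.2 := if_neg w5
        rw [h1]
        exact w6
    · intro S
      unfold omL
      split_ifs <;> simp
    · intro S hS
      beta_reduce at hS
      have h1 : ∀ a ∈ S, (U.ex c).wt a ≠ 0 := by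
        by_contra hcon
        exact hS (if_neg hcon)
      rw [if_pos h1] at hS
      have h2 : ¬ S ⊆ S₀ := by
        intro hcon
        rw [if_pos hcon, sub_self] at hS
        exact hS rfl
      rw [if_neg h2, sub_zero] at hS
      have h3 : FulL (S.image Prod.fst) := by
        by_contra hcon
        apply hS
        unfold omL
        rw [if_neg hcon, Complex.ofReal_zero]
      obtain ⟨a₀, ha₀, ha₀'⟩ := Finset.not_subset.1 h2
      have h4 : rs Dg a₀.1.1 a₀.2 ≠ 0 := by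
        intro hcon
        apply ha₀'
        rw [hS₀, Finset.mem_filter]
        exact ⟨Finset.mem_univ _, hcon⟩
      obtain ⟨j, k, hjk⟩ := rs_ex Dg a₀.1.1 a₀.2 h4
      obtain ⟨a₁, ha₁, ha₁'⟩ := Finset.mem_image.1 (h3 j)
      obtain ⟨a₂, ha₂, ha₂'⟩ := Finset.mem_image.1 (h3 k)
      have h20 : (2 : Fin 3) ≠ 0 := by decide
      refine ⟨(a₀, a₁, a₂), ?_, ha₀, ha₁, ha₂⟩
      unfold mbB
      rw [Finset.mem_filter]
      have h5 : rs Dg a₁.1.1 a₁.2 = 0 := mb_rs Dg a₁.1 a₁.2 (h1 a₁ ha₁) (by rw [ha₁']; exact h20)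
      have h6 : rs Dg a₂.1.1 a₂.2 = 0 := mb_rs Dg a₂.1 a₂.2 (h1 a₂ ha₂) (by rw [ha₂']; exact h20)
      refine ⟨Finset.mem_univ _, ⟨by rw [ha₁'], by rw [ha₂'], h5, h6⟩, h1 a₀ ha₀, ?_⟩
      show dt a₀.2 (Dg.β (Dg.kV (Dg.s a₁.1.1) (Dg.s a₂.1.1)) (Dg.s a₀.1.1)) ≠ 0
      rw [ha₁', ha₂']
      exact hjk
  have h6 : 0 ≤ C * Y * Real.log Y ^ (-A) := by positivity
  nlinarith

end H57.MP
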