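import Pool.Agent.H57.MP.Me
import Pool.Agent.H57.LS.Mlw
import Pool.Agent.H77.PC3.CLy
import Pool.Agent.H77.PC3.CLw

/-!
# H57-MP-MF: the lower bound
-/

set_option autoImplicit false

open scoped NumberField
open IsDedekindDomain
open scoped Classical

noncomputable section

namespace H57.MP

open H57.PC H57.LOW H57.LS H57.BRA H63.MA H38.BB H38.BG H51.CUB H77.PT H77.PC3

theorem thr_mono {x y : ℝ} (hx : 3 ≤ x) (hxy : x ≤ y) : thr x 1 ≤ thr y 1 := by
  unfold thr
  have h1 : 1 ≤ Real.log x := by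
    rw [Real.le_log_iff_exp_le (by linarith)]
    have := Real.exp_one_lt_d9
    linarith
  have h2 : Real.log x ≤ Real.log y := Real.log_le_log (by linarith) hxy
  have h3 : 0 ≤ Real.log (Real.log x) := Real.log_nonneg h1
  have h4 : Real.log (Real.log x) ≤ Real.log (Real.log y) := Real.log_le_log (by linarith) h2
  exact Real.exp_le_exp.2 (pow_le_pow_left₀ h3 h4 _)

theorem lb0All (p : ℕ) [NeZero p] (hp : p.Prime) (h2 : p ≠ 2) : LB0All p := by
  intro K _ _ Ω _ _ _ ζ hζ hp2 hz D L Fr m l w N P R _ _ _ Dg hN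
  haveI : Finite R := Finite.of_surjective Dg.q Dg.qs
  exact lb0_ofs hp h2 hζ hz Dg Fr hN (rcard hp hp2 hζ hz Fr Dg) (fun Y => thr Y 1)
    (fun x y hx hxy => thr_mono hx hxy) (mids hp h2 hp2 hζ hz D L Fr Dg)
    (by
      have h := mlow (m := m) (N := N) hp hp2 hζ D Dg.cr hN 8 (by norm_num)
      exact h)

end H57.MP
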