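import Pool.Agent.H57.MP.Mb
import Pool.Agent.H57.MP.Mc
import Pool.Agent.H57.LOW.Log
import Pool.Agent.H38.BB.CUb
import Pool.Agent.H57.MP.Tua
import Pool.Agent.H57.MP.Fo
import Pool.Agent.H77.PT.Rhc

/-!
# [H57 MP MU] the upper bound of the main pattern, 100-160 lines. File Pool/Agent/H57/MP/Mu.lean

`mup : MUp Dg Fr` (Pool/Agent/H77/PT/Def.lean).

PROOF. Let `ω = fun S => (omL S : ℂ)`, phases `u = 0`, `lam = 0`. Let `Y₀` be large: `log log Y ≥ 1`, so `exp ((log log Y)^5) ≤ thr Y 1` and `nr E ≤ thr Y 0 = exp ((log log Y)^3) ≤ exp ((log log Y)^4)`; `Y₀` from `mp_a`, `mp_b` (`A = 0`: errors `≤ C Y`, `log Y ^ (-0) = 1`).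
(1) The sum of `MUp` is at most `PF0 Dg Fr (fA Dg) b E ε 0 0 Y` (real part): `FW f = ∑_ρ ∏ fA i (cq ρ v)` (`∏ i, ∏ v ∈ f i, (if cq = 0 then Wn else 0) = if all cq = 0 then ∏ Wn^{#} else 0`), `FW ≥ 0` (`log_fw_nonneg`, Pool/Agent/H57/LOW/Log.lean), `wl (x) = 1` for `x ≤ 1`, `wl ≥ 0`, `GF D Y ⊆ GF D (2 Y)`;
`Big (thr Y 1) f` is the last condition of `MUp`. `uu_zero`, `ep_zero`.
(2) By `mg` it is `PCU (fA)`, and `‖PCU fA‖ ≤ C Y + ∑ χ ∈ J0, ‖PCU (fB χ)‖` (`mp_a`).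
(3) `‖PCU (fB χ)‖ ≤ PR (‖fB χ‖) (‖ω‖) = PR (‖fB 0‖) omL` (`pcu_abs`; `‖ep‖ = 1`, `xi Dg 0 = 0`, `omL ≥ 0`), and `PR (‖fB 0‖) = PCU (fB 0)` as a complex number, because `fB Dg 0 a x = (‖fB Dg 0 a x‖ : ℂ)` is real and nonnegative (`pr_pc`, `pcu_zero`).
(4) `mp_b`: `‖PCU (fB 0)‖ ≤ C Y + ‖PCU (fC 0)‖ ≤ C Y + PR (‖fC 0‖) ≤ C Y + rhn * SW (2 Y)` (`pcu_abs`, `mp_c`).
(5) The bound for `SW`: Pool/Agent/H38/BB/CUb.lean (theorem with `nr E ^ η`, `1 ≤ Y`; `hc`-type hypotheses if any: see the file; it is used in Pool/Agent/H38/AS/GUe.lean) at `2 Y`: `(1 + log (2 Y)) ≤ 2 (1 + log Y)`. `nr E ^ η ≥ 1` (`nr E ≥ 1`), so `C Y ≤ C (nr E)^η Y (1 + log Y)^(N - 1)`.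
-/

set_option autoImplicit false

open scoped NumberField
open IsDedekindDomain
open scoped Classical

noncomputable section

namespace H57.MP

open H57.PC H57.LOW H57.BRA H63.MA H38.BB H38.BG H51.CUB H77.PT H77.PC3

variable {K : Type} [Field K] [NumberField K] {p : ℕ} {ζ : K} {Ω : Type} [Field Ω] [Algebra K Ω]
  [IsAlgClosure K Ω] {m l w N : ℕ} {P R : Type} [Group P] [Group R]

theorem mu_xi (Dg : GP p m l w N P R) (i : Fin N) (x : Fin w → ZMod p) :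
    H57.PC.xi Dg 0 i x = 0 := by
  unfold H57.PC.xi
  split_ifs
  · exact ga_dt0l _
  · rfl

theorem mu_fC [NeZero p] (Dg : GP p m l w N P R) (i : Fin N) (x : Fin w → ZMod p) :
    fC Dg 0 i x = ((‖fC Dg 0 i x‖ : ℝ) : ℂ) := by
  unfold fC
  rw [Pi.zero_apply, mu_xi, ep_zero, mul_one]
  split_ifs
  · rw [Complex.norm_real, Real.norm_of_nonneg (by positivity)]
  · rw [norm_zero, Complex.ofReal_zero]

theorem mu_fA (Dg : GP p m l w N P R) (i : Fin N) (x : Fin w → ZMod p) :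
    fA Dg i x = ((‖fA Dg i x‖ : ℝ) : ℂ) := by
  unfold fA
  split_ifs
  · rw [Complex.norm_natCast, Complex.ofReal_natCast]
  · rw [norm_zero, Complex.ofReal_zero]

theorem mu_fB [NeZero p] (Dg : GP p m l w N P R) (a : Fin N × Fin 3) (x : Fin w → ZMod p) :
    fB Dg 0 a x = ((‖fB Dg 0 a x‖ : ℝ) : ℂ) := by
  unfold fB
  split_ifs
  · exact mu_fA Dg a.1 x
  · exact mu_fC Dg a.1 x

theorem mu_nB [NeZero p] (Dg : GP p m l w N P R) (χ : Fin N → Fin l → ZMod p)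
    (a : Fin N × Fin 3) (x : Fin w → ZMod p) : ‖fB Dg χ a x‖ = ‖fB Dg 0 a x‖ := by
  unfold fB
  split_ifs
  · rfl
  · unfold fC
    split_ifs
    · rw [norm_mul, norm_mul, ep_norm, ep_norm]
    · rfl

theorem mu_om (S : Finset (Fin N × Fin 3)) : ‖((omL S : ℝ) : ℂ)‖ = omL S := by
  have h : 0 ≤ omL S := by
    unfold omL
    split_ifs
    · exact zero_le_one
    · exact le_rfl
  rw [Complex.norm_real, Real.norm_of_nonneg h]

theorem mu_fw [NeZero p] {D : RD0 K p ζ} {L : LDs D Ω} (Dg : GP p m l w N P R) (Fr : FR L)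
    (b : Fin m → Kˣ) (E : Finset (Pl K)) (ε : Pl K → Gal(Ω/K) → R)
    (f : Fin N → Finset (Pl K)) :
    ((FW Dg Fr b E ε f : ℝ) : ℂ) =
      ∑ ρ ∈ RHf L Dg b E ε f, ∏ i, ∏ v ∈ f i, fA Dg i (cq Dg Fr ρ v) := by
  unfold FW
  rw [Complex.ofReal_sum]
  refine Finset.sum_congr rfl fun ρ _ => ?_
  by_cases h : ∀ i, ∀ v ∈ f i, cq Dg Fr ρ v = 0
  · rw [if_pos h]
    push_cast
    refine Finset.prod_congr rfl fun i _ => ?_
    rw [← Finset.prod_const]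
    refine Finset.prod_congr rfl fun v hv => ?_
    unfold fA
    rw [if_pos (h i v hv)]
  · rw [if_neg h, Complex.ofReal_zero]
    push Not at h
    obtain ⟨i, v, hv, hne⟩ := h
    symm
    refine Finset.prod_eq_zero (Finset.mem_univ i) (Finset.prod_eq_zero hv ?_)
    unfold fA
    rw [if_neg hne]

/-- step (1) -/
theorem mu_one [NeZero p] {D : RD0 K p ζ} {L : LDs D Ω} (Dg : GP p m l w N P R) (Fr : FR L)
    (b : Fin m → Kˣ) (E : Finset (Pl K)) (ε : Pl K → Gal(Ω/K) → R) (Y : ℝ) (hY : 0 < Y) :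
    (∑ f ∈ Fintype.piFinset (fun _ : Fin N => GF D Y),
        if (Dj f ∧ (∀ i, Disjoint (f i) E) ∧ ∏ i, nr (f i) ≤ Y ∧ SpR Dg.cr b f) ∧
            ∀ i, ∃ v ∈ f i, thr Y 1 < nm v then FW Dg Fr b E ε f else 0) ≤
      ‖PF0 Dg Fr (fA Dg) b E ε (fun _ _ => 0) (fun _ _ => 0) Y‖ := by
  have h2 : PF0 Dg Fr (fA Dg) b E ε (fun _ _ => 0)
      (fun _ _ => 0) Y = ((∑ f ∈ Fintype.piFinset (fun _ : Fin N => GF D (2 * Y)),
      if (Dj f ∧ (∀ i, Disjoint (f i) E) ∧ ∏ i, nr (f i) ≤ 2 * Y ∧ SpR Dg.cr b f) ∧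
        Big (thr Y 1) f then
        wl ((∏ i, nr (f i)) / Y) * FW Dg Fr b E ε f else 0 : ℝ) : ℂ) := by
    unfold PF0
    rw [Complex.ofReal_sum]
    refine Finset.sum_congr rfl fun f _ => ?_
    split_ifs
    · rw [uu_zero, ep_zero, mul_one, Complex.ofReal_mul, mu_fw]
    · exact Complex.ofReal_zero.symm
  rw [h2, Complex.norm_real]
  refine le_trans ?_ (Real.le_norm_self _)
  have hsub : Fintype.piFinset (fun _ : Fin N => GF D Y) ⊆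
      Fintype.piFinset (fun _ : Fin N => GF D (2 * Y)) := by
    intro f hf
    rw [Fintype.mem_piFinset] at hf ⊢
    intro i
    have h3 := (akb_mem_GF D).1 (hf i)
    exact (akb_mem_GF D).2 ⟨h3.1.trans (by linarith), h3.2⟩
  have hnn : ∀ f : Fin N → Finset (Pl K), 0 ≤ (if (Dj f ∧ (∀ i, Disjoint (f i) E) ∧
      ∏ i, nr (f i) ≤ 2 * Y ∧ SpR Dg.cr b f) ∧
        Big (thr Y 1) f then
        wl ((∏ i, nr (f i)) / Y) * FW Dg Fr b E ε f else 0 : ℝ) := by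
    intro f
    split_ifs
    · exact mul_nonneg (H77.PT.wl_nonneg _) (log_fw_nonneg Dg Fr b E ε f)
    · exact le_rfl
  refine le_trans (Finset.sum_le_sum fun f _ => ?_)
    (Finset.sum_le_sum_of_subset_of_nonneg hsub fun f _ _ => hnn f)
  by_cases hc : (Dj f ∧ (∀ i, Disjoint (f i) E) ∧ ∏ i, nr (f i) ≤ Y ∧ SpR Dg.cr b f) ∧
            ∀ i, ∃ v ∈ f i, thr Y 1 < nm v
  · rw [if_pos hc, if_pos ⟨⟨hc.1.1, hc.1.2.1, hc.1.2.2.1.trans (by linarith), hc.1.2.2.2⟩, hc.2⟩]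
    have h4 : (∏ i, nr (f i)) / Y ≤ 1 := by
      rw [div_le_one hY]
      exact hc.1.2.2.1
    have h5 : wl ((∏ i, nr (f i)) / Y) = 1 := by
      unfold wl
      rw [min_eq_left (by linarith), max_eq_right zero_le_one]
    rw [h5, one_mul]
  · rw [if_neg hc]
    exact hnn f

/-- step (3) -/
theorem mu_three [NeZero p] {D : RD0 K p ζ} {L : LDs D Ω} (Dg : GP p m l w N P R) (Fr : FR L)
    (b : Fin m → Kˣ) (E : Finset (Pl K)) (ε : Pl K → Gal(Ω/K) → R) (Y : ℝ)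
    (χ : Fin N → Fin l → ZMod p) :
    ‖PCU Dg Fr (UM N Y) (fB Dg χ) b E ε (fun _ _ => 0) (fun _ _ => 0)
        (fun S => ((omL S : ℝ) : ℂ)) Y‖ ≤
      ‖PCU Dg Fr (UM N Y) (fB Dg 0) b E ε (fun _ _ => 0) (fun _ _ => 0)
        (fun S => ((omL S : ℝ) : ℂ)) Y‖ := by
  refine (pcu_abs Dg Fr (UM N Y) (fB Dg χ) b E ε _ _ _ Y).trans ?_
  have e1 : (fun (a : Fin N × Fin 3) (x : Fin w → ZMod p) => ‖fB Dg χ a x‖) =
      fun a x => ‖fB Dg 0 a x‖ := by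
    funext a x
    exact mu_nB Dg χ a x
  have e2 : (fun S : Finset (Fin N × Fin 3) => ‖((omL S : ℝ) : ℂ)‖) = omL := by
    funext S
    exact mu_om S
  have e3 : fB Dg 0 = fun a x => ((‖fB Dg 0 a x‖ : ℝ) : ℂ) := by
    funext a x
    exact mu_fB Dg a x
  rw [e1, e2]
  have h1 := pr_pc Dg Fr (UM N Y) (fun a x => ‖fB Dg 0 a x‖) b E ε omL Y
  rw [← e3, ← pcu_zero] at h1
  rw [← h1, Complex.norm_real]
  exact Real.le_norm_self _

theorem mu_x {Y : ℝ} (hY : Real.exp (Real.exp 1) ≤ Y) :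
    Real.exp (Real.log (Real.log Y) ^ 5) ≤ thr Y 1 ∧
      thr Y 0 ≤ Real.exp (Real.log (Real.log Y) ^ 4) := by
  have hY0 : 0 < Y := (Real.exp_pos _).trans_le hY
  have hl : Real.exp 1 ≤ Real.log Y := (Real.le_log_iff_exp_le hY0).2 hY
  have hl0 : 0 < Real.log Y := (Real.exp_pos _).trans_le hl
  have hx : 1 ≤ Real.log (Real.log Y) := (Real.le_log_iff_exp_le hl0).2 hl
  unfold thr
  constructor
  · exact Real.exp_le_exp.2 (pow_le_pow_right₀ hx (by norm_num))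
  · exact Real.exp_le_exp.2 (pow_le_pow_right₀ hx (by norm_num))

theorem mu_num {a c1 c2 c3 r j E Y q q' k : ℝ} (h : a ≤ c1 * Y + j * (c2 * Y + r * (c3 * E * (2 * Y) * q')))
    (hq : q' ≤ k * q) (hc1 : 0 ≤ c1) (hc2 : 0 ≤ c2) (hc3 : 0 ≤ c3) (hr : 0 ≤ r) (hj : 0 ≤ j)
    (hE : 1 ≤ E) (hY : 0 ≤ Y) (hq1 : 1 ≤ q) :
    a ≤ (c1 + j * (c2 + r * (c3 * 2 * k))) * E * Y * q := by
  have hEq : 1 ≤ E * q := by nlinarith
  have h1 : Y ≤ E * Y * q := by nlinarith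
  have hE0 : 0 ≤ E := by linarith
  have h2 : c3 * E * (2 * Y) * q' ≤ c3 * E * (2 * Y) * (k * q) :=
    mul_le_mul_of_nonneg_left hq (by positivity)
  have h3 : c1 * Y ≤ c1 * (E * Y * q) := mul_le_mul_of_nonneg_left h1 hc1
  have h4 : c2 * Y ≤ c2 * (E * Y * q) := mul_le_mul_of_nonneg_left h1 hc2
  have h5 : r * (c3 * E * (2 * Y) * q') ≤ r * (c3 * E * (2 * Y) * (k * q)) :=
    mul_le_mul_of_nonneg_left h2 hr
  have h6 : j * (c2 * Y + r * (c3 * E * (2 * Y) * q')) ≤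
      j * (c2 * (E * Y * q) + r * (c3 * E * (2 * Y) * (k * q))) :=
    mul_le_mul_of_nonneg_left (add_le_add h4 h5) hj
  calc a ≤ c1 * Y + j * (c2 * Y + r * (c3 * E * (2 * Y) * q')) := h
    _ ≤ c1 * (E * Y * q) + j * (c2 * (E * Y * q) + r * (c3 * E * (2 * Y) * (k * q))) :=
        add_le_add h3 h6
    _ = _ := by ring

theorem mup [NeZero p] [Finite P] [Finite R] (hp : p.Prime) (hp2 : MOne p K)
    (hζ : IsPrimitiveRoot ζ p) (hz : Z2 p K) (D : RD K p ζ) (L : LDs D.toRD0 Ω) (Fr : FR L)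
    (Dg : GP p m l w N P R) (hN : 1 ≤ N) : MUp Dg Fr := by
  intro η hη
  obtain ⟨C₁, Y₁, hC₁, hY₁, ha⟩ := mp_a hp hp2 hζ hz D L Fr Dg 0
  obtain ⟨C₂, Y₂, hC₂, hY₂, hb⟩ := mp_b hp hp2 hζ hz D L Fr Dg 0
  obtain ⟨C₃, hC₃, hub⟩ := ub hp hp2 hζ D Dg.cr hN η hη
  refine ⟨C₁ + (J0 Dg).card * (C₂ + rhn L Dg * (C₃ * 2 * 2 ^ (N - 1))),
    max (max Y₁ Y₂) (Real.exp (Real.exp 1)), by positivity,
    hY₁.trans ((le_max_left _ _).trans (le_max_left _ _)), ?_⟩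
  intro Y hY b E hbE hE ε
  have hYa : Y₁ ≤ Y := ((le_max_left _ _).trans (le_max_left _ _)).trans hY
  have hYb : Y₂ ≤ Y := ((le_max_right _ _).trans (le_max_left _ _)).trans hY
  have hYe : Real.exp (Real.exp 1) ≤ Y := (le_max_right _ _).trans hY
  have hY3 : 3 ≤ Y := hY₁.trans hYa
  have hY0 : 0 < Y := by linarith
  obtain ⟨hx1, hx2⟩ := mu_x hYe
  have h1 := mu_one Dg Fr b E ε Y hY0
  have hmg := mg Dg Fr (fA Dg) b E ε (fun _ _ => 0) (fun _ _ => 0) Y hx1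
  rw [← hmg] at h1
  have h2 := ha Y hYa E b hbE (hE.trans hx2) ε (fun _ _ => 0) (fun _ _ => 0)
  have h3 := hb Y hYb E b hbE (hE.trans hx2) ε (fun _ _ => 0) (fun _ _ => 0)
  rw [neg_zero, Real.rpow_zero, mul_one] at h2 h3
  obtain ⟨PA, hPA⟩ : ∃ z : ℂ, z = PCU Dg Fr (UM N Y) (fun a => fA Dg a.1) b E ε (fun _ _ => 0)
    (fun _ _ => 0) (fun S => ((omL S : ℝ) : ℂ)) Y := ⟨_, rfl⟩
  obtain ⟨PB, hPB⟩ : ∃ z : ℂ, z = PCU Dg Fr (UM N Y) (fB Dg 0) b E ε (fun _ _ => 0)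
    (fun _ _ => 0) (fun S => ((omL S : ℝ) : ℂ)) Y := ⟨_, rfl⟩
  obtain ⟨PD, hPD⟩ : ∃ z : ℂ, z = PCU Dg Fr (UM N Y) (fun a => fC Dg 0 a.1) b E ε (fun _ _ => 0)
    (fun _ _ => 0) (fun S => ((omL S : ℝ) : ℂ)) Y := ⟨_, rfl⟩
  rw [← hPA] at h1 h2
  rw [← hPB, ← hPD] at h3
  have h4 : ‖∑ χ ∈ J0 Dg, PCU Dg Fr (UM N Y) (fB Dg χ) b E ε (fun _ _ => 0) (fun _ _ => 0)
      (fun S => ((omL S : ℝ) : ℂ)) Y‖ ≤ (J0 Dg).card * ‖PB‖ := by
    refine (norm_sum_le _ _).trans ?_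
    rw [← nsmul_eq_mul]
    refine Finset.sum_le_card_nsmul _ _ _ fun χ _ => ?_
    rw [hPB]
    exact mu_three Dg Fr b E ε Y χ
  have h5 : ‖PD‖ ≤ rhn L Dg * SW D.toRD0 Dg.cr b E (fun _ => 1) (2 * Y) := by
    rw [hPD]
    refine (pcu_abs Dg Fr (UM N Y) (fun a => fC Dg 0 a.1) b E ε _ _ _ Y).trans ?_
    have e2 : (fun S : Finset (Fin N × Fin 3) => ‖((omL S : ℝ) : ℂ)‖) = omL := by
      funext S
      exact mu_om S
    rw [e2]
    exact mp_c hp hζ Fr Dg b E ε Y hx1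
  have h6 := hub b E hbE (2 * Y) (by linarith)
  have h7 : ‖PB‖ ≤ C₂ * Y + ‖PD‖ := by
    have h8 : ‖PB‖ ≤ ‖PB - PD‖ + ‖PD‖ := by
      have h9 := norm_add_le (PB - PD) PD
      rwa [sub_add_cancel] at h9
    linarith
  have h8 : ‖PA‖ ≤ C₁ * Y + (J0 Dg).card * ‖PB‖ := by
    have h9 := norm_add_le (PA - ∑ χ ∈ J0 Dg, PCU Dg Fr (UM N Y) (fB Dg χ) b E ε (fun _ _ => 0)
      (fun _ _ => 0) (fun S => ((omL S : ℝ) : ℂ)) Y) (∑ χ ∈ J0 Dg, PCU Dg Fr (UM N Y) (fB Dg χ)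
      b E ε (fun _ _ => 0) (fun _ _ => 0) (fun S => ((omL S : ℝ) : ℂ)) Y)
    rw [sub_add_cancel] at h9
    linarith
  have hJ0 : (0 : ℝ) ≤ (J0 Dg).card := Nat.cast_nonneg _
  have hr0 : (0 : ℝ) ≤ rhn L Dg := Nat.cast_nonneg _
  have h10 : ‖PB‖ ≤ C₂ * Y + rhn L Dg * (C₃ * nr E ^ η * (2 * Y) *
      (1 + Real.log (2 * Y)) ^ (N - 1)) := by
    refine h7.trans (add_le_add le_rfl (h5.trans ?_))
    exact mul_le_mul_of_nonneg_left h6 hr0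
  have h11 := (h1.trans h8).trans (add_le_add (le_refl (C₁ * Y))
    (mul_le_mul_of_nonneg_left h10 hJ0))
  have hl0 : 0 ≤ Real.log Y := Real.log_nonneg (by linarith)
  have hq : (1 + Real.log (2 * Y)) ^ (N - 1) ≤ 2 ^ (N - 1) * (1 + Real.log Y) ^ (N - 1) := by
    rw [← mul_pow]
    refine pow_le_pow_left₀ ?_ ?_ _
    · have := Real.log_nonneg (show (1 : ℝ) ≤ 2 * Y by linarith)
      linarith
    · rw [Real.log_mul (by norm_num) hY0.ne']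
      have := Real.log_two_lt_d9
      linarith
  exact mu_num h11 hq hC₁.le hC₂.le hC₃.le hr0 hJ0
    (Real.one_le_rpow (one_le_nr E) hη.le) hY0.le (one_le_pow₀ (by linarith))

end H57.MP
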