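import Pool.Agent.H57.MP.Ga
import Pool.Agent.H51.CUB.TDU

/-!
# H57-MP-DEF: the main pattern (MP_b39724_nt), definitions

* `UM N Y`: the windows `(i, t)`, `i` a class, `t ∈ Fin 3`: `t = 0`: norms `≤ exp ((log log Y)^5)`, `t = 1`: up to `thr Y 1 = exp ((log log Y)^8)`, `t = 2`: larger norms.
* `omL S`: `1` if all windows `(i, 2)` occur.
* `PCU`: `PC` with the extra phase `UU` of level one.
* `uk κ`: the phase `κ_i · q v` of the classes.
* `PF0`: the sum over the families `f` (without windows) with a prime of norm `> thr Y 1` in every class.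
-/

set_option autoImplicit false

open scoped NumberField
open IsDedekindDomain
open scoped Classical

noncomputable section

namespace H57.MP

open H57.PC H57.LOW H63.MA H38.BB H38.BG H51.CUB H77.PT

/-- the windows of the main pattern -/
def UM (N : ℕ) (Y : ℝ) : WY N (Fin N × Fin 3) where
  cls a := a.1
  lo a := if a.2 = 0 then 0 else
    if a.2 = 1 then Real.exp (Real.log (Real.log Y) ^ 5) else thr Y 1
  hi a := if a.2 = 0 then Real.exp (Real.log (Real.log Y) ^ 5) else
    if a.2 = 1 then thr Y 1 else 2 * Y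

/-- all large windows occur -/
def omL {N : ℕ} (S : Finset (Fin N × Fin 3)) : ℝ := if FulL S then 1 else 0

variable {K : Type} [Field K] [NumberField K] {p : ℕ} {ζ : K} {D : RD0 K p ζ} {Ω : Type}
  [Field Ω] [Algebra K Ω] {m l w N : ℕ} {P R : Type} [Group P] [Group R] {J : Type} [Fintype J]

/-- the sum over the families with windows with an extra phase of level one -/
def PCU [NeZero p] {L : LDs D Ω} (Dg : GP p m l w N P R) (Fr : FR L) (U : WY N J)
    (φ : J → (Fin w → ZMod p) → ℂ) (b : Fin m → Kˣ) (E : Finset (Pl K))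
    (ε : Pl K → Gal(Ω/K) → R) (u : J → Pl K → ZMod p) (lam : J → J → ZMod p)
    (ω : Finset J → ℂ) (Y : ℝ) : ℂ :=
  ∑ h ∈ Fintype.piFinset (fun _ : J => GF D (2 * Y)),
    if Wc D U E Y h ∧ SpR Dg.cr b (clw U h) then
      ω (spt h) * ((wl ((∏ a, nr (h a)) / Y) : ℝ) : ℂ) *
        (∑ ρ ∈ RHf L Dg b E ε (clw U h), ∏ a, ∏ v ∈ h a, φ a (cq Dg Fr ρ v)) *
          ep p (UU D u lam h)
    else 0

/-- the phase of the classes -/
def uk (D : RD0 K p ζ) (κ : Fin N → Fin D.r → ZMod p) (i : Fin N) (v : Pl K) : ZMod p :=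
  ∑ j, κ i j * D.q v j

/-- the sum over the families without windows, with a large prime in every class -/
def PF0 [NeZero p] {L : LDs D Ω} (Dg : GP p m l w N P R) (Fr : FR L)
    (φ : Fin N → (Fin w → ZMod p) → ℂ) (b : Fin m → Kˣ) (E : Finset (Pl K))
    (ε : Pl K → Gal(Ω/K) → R) (u : Fin N → Pl K → ZMod p) (lam : Fin N → Fin N → ZMod p)
    (Y : ℝ) : ℂ :=
  ∑ f ∈ Fintype.piFinset (fun _ : Fin N => GF D (2 * Y)),
    if (Dj f ∧ (∀ i, Disjoint (f i) E) ∧ ∏ i, nr (f i) ≤ 2 * Y ∧ SpR Dg.cr b f) ∧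
        Big (thr Y 1) f then
      ((wl ((∏ i, nr (f i)) / Y) : ℝ) : ℂ) *
        (∑ ρ ∈ RHf L Dg b E ε f, ∏ i, ∏ v ∈ f i, φ i (cq Dg Fr ρ v)) * ep p (UU D u lam f)
    else 0

end H57.MP
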