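import Pool.Agent.H57.MP.Tua
import Pool.Agent.H57.MP.Fo
import Pool.Agent.H51.CUB.LNK

/-!
# [H57 MP MA] the linked triples of large primes are negligible, 100-180 lines. File Pool/Agent/H57/MP/Ma.lean

`mp_a`: `PCU fA = ∑ χ ∈ J0, PCU (fB χ) + O(Y (log Y)^(-A))`.

PROOF. `U = UM N Y`, `c a ν = cA Dg a.1 ν` (`= Wn / p^w > 0`?: `Wn ≥ 1` because `g i` itself is counted, so `c a ν ≠ 0` and `(U.ex c).psi a = a.2`; not needed below if one works with `psi`: see (*)). By `fA_cf` and `pcu_ts` the first sum is `TSU (U.ex c) ω`,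
`ω S = omL (S.image fst)`. By `fB_cf` and `tsu_sub` (`S₀ = Sx Dg χ`) the sum for `χ` is `TSU (U.ex c) (if S ⊆ Sx Dg χ then ω S else 0)`. By `tsu_sum`, `tsu_sub2` and `ul_sum` (if `ω S ≠ 0` then `FulL (S.image fst)`) the difference is
`TSU (U.ex c) (if Ul Dg S then 0 else ω S)`. `tsu_bad` with `B` the set of all triples `(a₁, a₂, a₃)` of types with windows `≠ 0` and `Th3 ≠ 0` (in the form of `Ul`; `Th3 Dg (U.ex c) a₁ a₂ a₃` is literally the sum in `Ul` when `psi a = a.2`), `Bd t S = a₁ ∈ S ∧ a₂ ∈ S ∧ a₃ ∈ S`; for every triple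
`lllU` (constants `C, Y₀` for `J = (Fin N × Fin 3) × (Fin w → ZMod p)`, `M = ∑ i, Wn i` (`0 ≤ wt ≤ M`: `c a ν ≤ Wn`), the same for all `Y`): windows `1`, `2` have `lo ≥ exp ((log log Y)^5)`: `thr Y 1 = exp ((log log Y)^8)` and `log log Y ≥ 1` for `Y ≥ Y₀` (enlarge `Y₀ ≥ exp (exp 1)`).
`C' = (number of triples) * C`. The hypotheses `nr E ≤ exp ((log log Y)^4)` and `BS2` are those of `lllU`.
(*) `wn_pos : 0 < Dg.Wn i` (`P` finite: the subtype is nonempty and finite).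
-/

set_option autoImplicit false

open scoped NumberField
open IsDedekindDomain
open scoped Classical

noncomputable section

namespace H57.MP

open H57.PC H57.LOW H57.BRA H63.MA H38.BB H38.BG H51.CUB H77.PT

variable {K : Type} [Field K] [NumberField K] {p : ℕ} {ζ : K} {Ω : Type} [Field Ω] [Algebra K Ω]
  [IsAlgClosure K Ω] {m l w N : ℕ} {P R : Type} [Group P] [Group R]

theorem wn_pos [Finite P] (Dg : GP p m l w N P R) (i : Fin N) : 0 < Dg.Wn i := by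
  unfold GP.Wn
  have h1 : Nonempty {x : P // IsConj x (Dg.g i) ∧ Dg.q x = Dg.q (Dg.g i)} :=
    ⟨⟨Dg.g i, IsConj.refl _, rfl⟩⟩
  exact Nat.card_pos

theorem ma_cA_ne [NeZero p] [Finite P] (Dg : GP p m l w N P R) (i : Fin N) (ν : Fin w → ZMod p) :
    cA Dg i ν ≠ 0 := by
  unfold cA
  have h1 : (0 : ℝ) < (Dg.Wn i : ℝ) := by exact_mod_cast wn_pos Dg i
  have h2 : (0 : ℝ) < (p : ℝ) ^ w := by
    have := NeZero.pos p
    positivity
  exact ne_of_gt (div_pos h1 h2)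

theorem ma_cA_le [NeZero p] (Dg : GP p m l w N P R) (i : Fin N) (ν : Fin w → ZMod p) :
    cA Dg i ν ≤ ∑ j, (Dg.Wn j : ℝ) := by
  unfold cA
  have h2 : (1 : ℝ) ≤ (p : ℝ) ^ w := by
    have h3 : (1 : ℝ) ≤ (p : ℝ) := by exact_mod_cast NeZero.pos p
    exact one_le_pow₀ h3
  refine (div_le_self (Nat.cast_nonneg _) h2).trans ?_
  exact Finset.single_le_sum (f := fun j => (Dg.Wn j : ℝ)) (fun j _ => Nat.cast_nonneg _)
    (Finset.mem_univ i)

/-- the linked triples -/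
def maB [NeZero p] (Dg : GP p m l w N P R) :
    Finset (((Fin N × Fin 3) × (Fin w → ZMod p)) × ((Fin N × Fin 3) × (Fin w → ZMod p)) ×
      ((Fin N × Fin 3) × (Fin w → ZMod p))) :=
  Finset.univ.filter fun t =>
    (t.1.1.2 ≠ 0 ∧ t.2.1.1.2 ≠ 0 ∧ t.2.2.1.2 ≠ 0) ∧
      dt t.1.2 (Dg.β (Dg.kV (Dg.s t.2.1.1.1) (Dg.s t.2.2.1.1)) (Dg.s t.1.1.1)) +
      dt t.2.1.2 (Dg.β (Dg.kV (Dg.s t.2.2.1.1) (Dg.s t.1.1.1)) (Dg.s t.2.1.1.1)) +
      dt t.2.2.2 (Dg.β (Dg.kV (Dg.s t.1.1.1) (Dg.s t.2.1.1.1)) (Dg.s t.2.2.1.1)) ≠ 0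

theorem ma_lo (N : ℕ) {Y : ℝ} (hY : Real.exp (Real.exp 1) ≤ Y) (a : Fin N × Fin 3)
    (ha : a.2 ≠ 0) : Real.exp (Real.log (Real.log Y) ^ 5) ≤ (UM N Y).lo a := by
  have h1 : (1 : ℝ) ≤ Real.log (Real.log Y) := by
    have e1 : Real.exp 1 ≤ Real.log Y := by
      rw [← Real.log_exp (Real.exp 1)]
      exact Real.log_le_log (Real.exp_pos _) hY
    rw [← Real.log_exp 1]
    exact Real.log_le_log (Real.exp_pos _) e1
  unfold UM
  simp only
  rw [if_neg ha]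
  split_ifs with h2
  · exact le_refl _
  · unfold thr
    exact Real.exp_le_exp.2 (pow_le_pow_right₀ h1 (by norm_num))

theorem mp_a [NeZero p] [Finite P] [Finite R] (hp : p.Prime) (hp2 : MOne p K)
    (hζ : IsPrimitiveRoot ζ p) (hz : Z2 p K) (D : RD K p ζ) (L : LDs D.toRD0 Ω) (Fr : FR L)
    (Dg : GP p m l w N P R) (A : ℝ) :
    ∃ C Y₀ : ℝ, 0 < C ∧ 3 ≤ Y₀ ∧ ∀ Y : ℝ, Y₀ ≤ Y → ∀ (E : Finset (Pl K)) (b : Fin m → Kˣ),
      BS2 D.toRD0 b E → nr E ≤ Real.exp (Real.log (Real.log Y) ^ 4) →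
      ∀ (ε : Pl K → Gal(Ω/K) → R) (u : Fin N × Fin 3 → Pl K → ZMod p)
        (lam : Fin N × Fin 3 → Fin N × Fin 3 → ZMod p),
        ‖PCU Dg Fr (UM N Y) (fun a => fA Dg a.1) b E ε u lam (fun S => ((omL S : ℝ) : ℂ)) Y -
            ∑ χ ∈ J0 Dg,
              PCU Dg Fr (UM N Y) (fB Dg χ) b E ε u lam (fun S => ((omL S : ℝ) : ℂ)) Y‖ ≤
          C * Y * Real.log Y ^ (-A) := by
  obtain ⟨C, Y₀, hC, hY₀, h⟩ := lllU hp hp2 hζ hz D L Fr Dg
    ((Fin N × Fin 3) × (Fin w → ZMod p)) (∑ j, (Dg.Wn j : ℝ)) A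
  refine ⟨((maB Dg).card + 1) * C, max Y₀ (Real.exp (Real.exp 1)), by positivity,
    hY₀.trans (le_max_left _ _), fun Y hY E b hb hE ε u lam => ?_⟩
  have hY1 : Y₀ ≤ Y := (le_max_left _ _).trans hY
  have hY2 : Real.exp (Real.exp 1) ≤ Y := (le_max_right _ _).trans hY
  have hYp : 0 < Y := lt_of_lt_of_le (by linarith) hY1
  have hL : 0 < Real.log Y := Real.log_pos (by linarith)
  set c : Fin N × Fin 3 → (Fin w → ZMod p) → ℝ := fun a ν => cA Dg a.1 ν with hc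
  set U := UM N Y with hU
  have hI : ∀ S : Finset ((Fin N × Fin 3) × (Fin w → ZMod p)),
      @Finset.image _ _ (fun a b => Classical.propDecidable (a = b)) Prod.fst S =
        S.image Prod.fst := by
    intro S
    ext x
    simp only [Finset.mem_image]
  have e1 : PCU Dg Fr U (fun a => fA Dg a.1) b E ε u lam (fun S => ((omL S : ℝ) : ℂ)) Y =
      TSU Dg Fr (U.ex c) b E ε (fun a => u a.1) (fun a a' => lam a.1 a'.1)
        (fun S => ((omL (S.image Prod.fst) : ℝ) : ℂ)) Y := by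
    have e0 := pcu_ts hp Dg Fr U c b E ε u lam (fun S => ((omL S : ℝ) : ℂ)) Y
    simp only [hI] at e0
    rw [← e0]
    congr 1
    funext a x
    exact fA_cf hp Dg a.1 x
  have e2 : ∀ χ ∈ J0 Dg,
      PCU Dg Fr U (fB Dg χ) b E ε u lam (fun S => ((omL S : ℝ) : ℂ)) Y =
      TSU Dg Fr (U.ex c) b E ε (fun a => u a.1) (fun a a' => lam a.1 a'.1)
        (fun S => if S ⊆ Sx Dg χ then ((omL (S.image Prod.fst) : ℝ) : ℂ) else 0) Y := by
    intro χ hχ
    have e0 := tsu_sub hp Dg Fr U c (Sx Dg χ) b E ε u lam (fun S => ((omL S : ℝ) : ℂ)) Y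
    simp only [hI] at e0
    rw [e0]
    congr 1
    funext a x
    refine (fB_cf hp Dg χ hχ a x).trans (Finset.sum_congr rfl fun ν _ => ?_)
    by_cases hm : (a, ν) ∈ Sx Dg χ
    · rw [if_pos hm, if_pos hm]
    · rw [if_neg hm, if_neg hm]
  rw [e1, Finset.sum_congr rfl e2, ← tsu_sum, ← tsu_sub2]
  have key : ∀ S : Finset ((Fin N × Fin 3) × (Fin w → ZMod p)),
      ((omL (S.image Prod.fst) : ℝ) : ℂ) -
        (∑ χ ∈ J0 Dg, if S ⊆ Sx Dg χ then ((omL (S.image Prod.fst) : ℝ) : ℂ) else 0) =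
      if FulL (S.image Prod.fst) ∧ ¬ Ul Dg S then 1 else 0 := by
    intro S
    unfold omL
    by_cases hF : FulL (S.image Prod.fst)
    · rw [if_pos hF]
      have h3 := ul_sum Dg S hF
      rw [Complex.ofReal_one, h3]
      by_cases hUl : Ul Dg S
      · rw [if_pos hUl, if_neg (fun h => h.2 hUl), sub_self]
      · rw [if_neg hUl, if_pos ⟨hF, hUl⟩, sub_zero]
    · rw [if_neg hF, if_neg (fun h => hF h.1), Complex.ofReal_zero, zero_sub, neg_eq_zero]
      refine Finset.sum_eq_zero fun χ _ => ?_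
      split_ifs <;> rfl
  have hb1 : ‖TSU Dg Fr (U.ex c) b E ε (fun a => u a.1) (fun a a' => lam a.1 a'.1)
      (fun S => ((omL (S.image Prod.fst) : ℝ) : ℂ) -
        (∑ χ ∈ J0 Dg, if S ⊆ Sx Dg χ then ((omL (S.image Prod.fst) : ℝ) : ℂ) else 0)) Y‖ ≤
      (maB Dg).card * (C * Y * Real.log Y ^ (-A)) := by
    refine tsu_bad Dg Fr (U.ex c) b E ε (fun a => u a.1) (fun a a' => lam a.1 a'.1) (maB Dg)
      (fun t S => t.1 ∈ S ∧ t.2.1 ∈ S ∧ t.2.2 ∈ S) Y (C * Y * Real.log Y ^ (-A)) ?_ _ ?_ ?_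
    · intro t ht ω hω hω'
      unfold maB at ht
      obtain ⟨_, ⟨w1, w2, w3⟩, ht2⟩ := Finset.mem_filter.1 ht
      refine h Y hY1 E b hb hE ε (U.ex c) ?_ _ _ ω hω t.1 t.2.1 t.2.2 ?_ ?_ hω'
      · intro a
        exact ⟨cA_nonneg Dg a.1.1 a.2, ma_cA_le Dg a.1.1 a.2⟩
      · unfold Th3 WY.ex
        simp only [hc]
        rw [if_neg (ma_cA_ne Dg _ _), if_neg (ma_cA_ne Dg _ _), if_neg (ma_cA_ne Dg _ _)]
        exact ht2
      · intro a ha
        rw [@Finset.mem_insert _ (fun a b => Classical.propDecidable (a = b)),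
          @Finset.mem_insert _ (fun a b => Classical.propDecidable (a = b)),
          Finset.mem_singleton] at ha
        rcases ha with rfl | rfl | rfl
        · exact ma_lo N hY2 _ w1
        · exact ma_lo N hY2 _ w2
        · exact ma_lo N hY2 _ w3
    · intro S
      simp only [key S]
      split_ifs
      · rw [norm_one]
      · rw [norm_zero]
        exact zero_le_one
    · intro S hS
      simp only [key S] at hS
      have h4 : FulL (S.image Prod.fst) ∧ ¬ Ul Dg S := by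
        by_contra hcon
        exact hS (if_neg hcon)
      have h5 := h4.2
      unfold Ul at h5
      push Not at h5
      obtain ⟨x, hx, y, hy, z, hz', x1, y1, z1, hne⟩ := h5
      refine ⟨(x, y, z), ?_, hx, hy, hz'⟩
      unfold maB
      rw [Finset.mem_filter]
      exact ⟨Finset.mem_univ _, ⟨x1, y1, z1⟩, hne⟩
  refine hb1.trans ?_
  have h6 : 0 ≤ C * Y * Real.log Y ^ (-A) := by positivity
  nlinarith

end H57.MP
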