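import Pool.Agent.H57.LOW.Loa
import Pool.Agent.H77.PT.Def

/-!
# [H57 MP GA] unlinked supports are given by the families in J0, 100-160 lines. File Pool/Agent/H57/MP/Ga.lean

Types `a = ((i, t), ν)`: class `i`, window `t ∈ Fin 3` (`0`: small, `1`: middle, `2`: large), functional `ν`.
* `rs Dg i ν`: the functional `v ↦ ν · β v (s i)` on `V` (`rs_dt`: linearity in `v`: `v = ∑ k, v k • Pi.single k 1`, see `loe_dual` in Pool/Agent/H57/LOW/Loe.lean or `epc_exp`).
* `Ul Dg S`: no three types of `S` in the windows `1`, `2` are linked. `Sx Dg χ`: the types whose functional is given by `χ` if the window is `1` or `2`. `FulL S`: every class has a type in window `2`.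
* `ul_sum`: for `S` with `FulL S` the number of the `χ ∈ J0` with `S ⊆ Sx Dg χ` is `1` if `Ul Dg S`, `0` otherwise.
  PROOF. Uniqueness: `χ i = rs Dg i ν` for the types `((i, 2), ν) ∈ S`, which exist for all `i`. If `S ⊆ Sx Dg χ`, `χ ∈ J0`: `Ul` by `rs_dt` and the second part of `InJ0`. Conversely let `Ul Dg S`. For `((i, 2), ν_i) ∈ S` (choose) put `χ i = rs Dg i ν_i`.
  For `a ∈ S` with window `≠ 0` and class `i`: `Ul` for `(a, ν_j, ν_k)` minus `Ul` for `(ν_i, ν_j, ν_k)` gives `dt (rs Dg i a.2 - χ i) (kV (s j) (s k)) = 0` for all `j, k`, so `rs Dg i a.2 = χ i` by `kvs_span` (Pool/Agent/H57/LOW/Loa.lean; a linear form that vanishes on a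
  spanning set is `0`). `χ ∈ J0`: the first part of `InJ0` by `rs_dt` (`dt ν 0 = 0`), the second by `Ul` for `(ν_i, ν_j, ν_k)`.
* `rs_ex`: if `rs Dg i ν ≠ 0` there are `j, k` with `ν · β (kV (s j) (s k)) (s i) ≠ 0` (`kvs_span`).
* `rs_zero`, `rs_th3`: clear from `rs_dt`. `zero_mem_J0`.
-/

set_option autoImplicit false

open scoped Classical

noncomputable section

namespace H57.MP

open H57.PC H57.LOW H63.MA H38.BB H38.BG H51.CUB

variable {p m l w N : ℕ} {P R : Type} [Group P] [Group R]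

/-- the functional `v ↦ ν · [v, s i]` -/
def rs (Dg : GP p m l w N P R) (i : Fin N) (ν : Fin w → ZMod p) : Fin l → ZMod p :=
  fun k => dt ν (Dg.β (Pi.single k 1) (Dg.s i))

/-- no three types in the windows `1`, `2` are linked -/
def Ul (Dg : GP p m l w N P R) (S : Finset ((Fin N × Fin 3) × (Fin w → ZMod p))) : Prop :=
  ∀ a ∈ S, ∀ b ∈ S, ∀ c ∈ S, a.1.2 ≠ 0 → b.1.2 ≠ 0 → c.1.2 ≠ 0 →
    dt a.2 (Dg.β (Dg.kV (Dg.s b.1.1) (Dg.s c.1.1)) (Dg.s a.1.1)) +
      dt b.2 (Dg.β (Dg.kV (Dg.s c.1.1) (Dg.s a.1.1)) (Dg.s b.1.1)) +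
      dt c.2 (Dg.β (Dg.kV (Dg.s a.1.1) (Dg.s b.1.1)) (Dg.s c.1.1)) = 0

/-- the types given by `χ` in the windows `1`, `2` -/
def Sx [NeZero p] (Dg : GP p m l w N P R) (χ : Fin N → Fin l → ZMod p) :
    Finset ((Fin N × Fin 3) × (Fin w → ZMod p)) :=
  Finset.univ.filter fun a => a.1.2 ≠ 0 → rs Dg a.1.1 a.2 = χ a.1.1

/-- every class has a type in window `2` -/
def FulL (S : Finset (Fin N × Fin 3)) : Prop := ∀ i : Fin N, ((i, 2) : Fin N × Fin 3) ∈ S

/-- the linear form `dt θ` -/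
def gaD (θ : Fin l → ZMod p) : (Fin l → ZMod p) →ₗ[ZMod p] ZMod p where
  toFun v := dt θ v
  map_add' u v := by
    simp only [dt, Pi.add_apply, mul_add, Finset.sum_add_distrib]
  map_smul' c v := by
    simp only [dt, Pi.smul_apply, smul_eq_mul, Finset.mul_sum, RingHom.id_apply]
    exact Finset.sum_congr rfl fun k _ => by ring

theorem gaD_apply (θ v : Fin l → ZMod p) : gaD θ v = dt θ v := rfl

theorem ga_dt0r (θ : Fin l → ZMod p) : dt θ 0 = 0 := by
  rw [← gaD_apply, map_zero]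

theorem ga_dt0l (v : Fin l → ZMod p) : dt (0 : Fin l → ZMod p) v = 0 := by
  simp only [dt, Pi.zero_apply, zero_mul, Finset.sum_const_zero]

theorem ga_dts (θ : Fin l → ZMod p) (k : Fin l) : dt θ (Pi.single k 1) = θ k := by
  unfold dt
  rw [Finset.sum_eq_single k]
  · rw [Pi.single_eq_same, mul_one]
  · intro j _ hj
    rw [Pi.single_eq_of_ne hj, mul_zero]
  · intro h
    exact absurd (Finset.mem_univ k) h

theorem ga_ext (Dg : GP p m l w N P R) (θ θ' : Fin l → ZMod p)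
    (h : ∀ j k, dt θ (Dg.kV (Dg.s j) (Dg.s k)) = dt θ' (Dg.kV (Dg.s j) (Dg.s k))) : θ = θ' := by
  have h1 : gaD θ = gaD θ' := by
    refine LinearMap.ext_on (kvs_span Dg) ?_
    rintro _ ⟨j, k, rfl⟩
    exact h j k
  funext k
  rw [← ga_dts θ k, ← ga_dts θ' k, ← gaD_apply, ← gaD_apply, h1]

theorem rs_dt (Dg : GP p m l w N P R) (i : Fin N) (ν : Fin w → ZMod p) (v : Fin l → ZMod p) :
    dt (rs Dg i ν) v = dt ν (Dg.β v (Dg.s i)) := by
  have h1 : ∀ F : (Fin l → ZMod p) →ₗ[ZMod p] ZMod p, F v = ∑ k, F (Pi.single k 1) * v k := by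
    intro F
    rw [LinearMap.pi_apply_eq_sum_univ F v]
    refine Finset.sum_congr rfl fun k _ => ?_
    have h2 : (fun j => if k = j then (1 : ZMod p) else 0) = Pi.single k 1 := by
      funext j
      rw [Pi.single_apply]
      by_cases hj : k = j
      · rw [if_pos hj, if_pos hj.symm]
      · rw [if_neg hj, if_neg fun h => hj h.symm]
    rw [h2, smul_eq_mul, mul_comm]
  exact (h1 ((gaD ν).comp (Dg.β.flip (Dg.s i)))).symm

theorem rs_zero (Dg : GP p m l w N P R) (i : Fin N) : rs Dg i 0 = 0 := by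
  funext k
  exact ga_dt0l _

theorem zero_mem_J0 [NeZero p] (Dg : GP p m l w N P R) : (0 : Fin N → Fin l → ZMod p) ∈ J0 Dg := by
  unfold J0
  rw [Finset.mem_filter]
  refine ⟨Finset.mem_univ _, fun i v _ => ga_dt0l v, fun i j k => ?_⟩
  rw [Pi.zero_apply, Pi.zero_apply, Pi.zero_apply, ga_dt0l, ga_dt0l, ga_dt0l,
    add_zero, add_zero]

theorem rs_ex (Dg : GP p m l w N P R) (i : Fin N) (ν : Fin w → ZMod p) (h : rs Dg i ν ≠ 0) :
    ∃ j k, dt ν (Dg.β (Dg.kV (Dg.s j) (Dg.s k)) (Dg.s i)) ≠ 0 := by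
  by_contra hn
  push Not at hn
  apply h
  refine ga_ext Dg _ _ fun j k => ?_
  rw [rs_dt, hn j k, ga_dt0l]

theorem ul_sum [NeZero p] (Dg : GP p m l w N P R)
    (S : Finset ((Fin N × Fin 3) × (Fin w → ZMod p))) (hS : FulL (S.image Prod.fst)) :
    (∑ χ ∈ J0 Dg, if S ⊆ Sx Dg χ then (1 : ℂ) else 0) = if Ul Dg S then 1 else 0 := by
  have hex : ∀ i : Fin N, ∃ ν : Fin w → ZMod p, ((i, (2 : Fin 3)), ν) ∈ S := by
    intro i
    obtain ⟨a, ha, ha'⟩ := Finset.mem_image.1 (hS i)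
    refine ⟨a.2, ?_⟩
    rw [← ha']
    exact ha
  choose ν hν using hex
  have h20 : (2 : Fin 3) ≠ 0 := by decide
  have h1 : ∀ χ ∈ J0 Dg, S ⊆ Sx Dg χ → (∀ i, rs Dg i (ν i) = χ i) ∧ Ul Dg S := by
    intro χ hχ hsub
    have hm : ∀ a ∈ S, a.1.2 ≠ 0 → rs Dg a.1.1 a.2 = χ a.1.1 := fun a ha =>
      (Finset.mem_filter.1 (hsub ha)).2
    refine ⟨fun i => hm _ (hν i) h20, ?_⟩
    intro a ha b hb c hc ha0 hb0 hc0
    rw [← rs_dt, ← rs_dt, ← rs_dt, hm a ha ha0, hm b hb hb0, hm c hc hc0]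
    unfold J0 at hχ
    exact (Finset.mem_filter.1 hχ).2.2 _ _ _
  by_cases hU : Ul Dg S
  · rw [if_pos hU]
    have hJ : (fun i => rs Dg i (ν i)) ∈ J0 Dg := by
      unfold J0
      rw [Finset.mem_filter]
      refine ⟨Finset.mem_univ _, fun i v hv => ?_, fun i j k => ?_⟩
      · rw [rs_dt, hv, ga_dt0r]
      · have e0 := hU ((i, 2), ν i) (hν i) ((j, 2), ν j) (hν j) ((k, 2), ν k) (hν k) h20 h20 h20
        rw [rs_dt, rs_dt, rs_dt]
        dsimp only at e0 ⊢
        exact e0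
    have hsub : S ⊆ Sx Dg (fun i => rs Dg i (ν i)) := by
      intro a ha
      unfold Sx
      rw [Finset.mem_filter]
      refine ⟨Finset.mem_univ _, fun ha0 => ?_⟩
      refine ga_ext Dg _ _ fun j k => ?_
      have e1 := hU a ha _ (hν j) _ (hν k) ha0 h20 h20
      have e2 := hU _ (hν a.1.1) _ (hν j) _ (hν k) h20 h20 h20
      rw [rs_dt, rs_dt]
      exact add_right_cancel (add_right_cancel (e1.trans e2.symm))
    rw [Finset.sum_eq_single (fun i => rs Dg i (ν i))]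
    · rw [if_pos hsub]
    · intro χ hχ hne
      rw [if_neg]
      intro hs
      apply hne
      funext i
      exact ((h1 χ hχ hs).1 i).symm
    · intro h
      exact absurd hJ h
  · rw [if_neg hU]
    refine Finset.sum_eq_zero fun χ hχ => ?_
    rw [if_neg]
    intro hs
    exact hU (h1 χ hχ hs).2

end H57.MP
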