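import Pool.Agent.H57.MP.Mg
import Pool.Agent.H57.MP.Fo
import Pool.Agent.H57.LOW.Lof
import Pool.Agent.H57.LOW.Log
import Pool.Agent.H57.LOW.Lod

/-!
# [H57 MP MD] detection of the classes and the phase of a constant family, 150-230 lines. File Pool/Agent/H57/MP/Md.lean

* `kd_sum`: orthogonality: `∑ κ, ep (∑ i, ∑ v ∈ f i, uk D κ i v) = p^(N r)` if all classes `qf D (f i) = ∑ v ∈ f i, D.q v` vanish, `0` otherwise (`uk D κ i v = ∑ j, κ i j * D.q v j`, so the exponent is `∑ i, ∑ j, κ i j * qf D (f i) j`; `Finset.prod_univ_sum`/`Fintype.piFinset`, or one nonzero coordinate and a translation;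
  character sums: `rx_char` in Pool/Agent/H38/BB/CExp.lean, `ep_sum`).
* `kd_pf0`: `∑ κ, PF0 φ (b = 1, E = ∅, ε = 1, u = uk D κ, lam) = p^(N r) * ∑ f ∈ (Fam0 D N (2 Y)).filter (Big (thr Y 1)), wl * (∑_ρ ∏ φ) * ep (UU D 0 lam f)`: exchange the sums; `UU D (uk D κ) lam f = (∑ i, ∑ v ∈ f i, uk D κ i v) + UU D 0 lam f`, `ep_add`; `SpR` follows from `Big` (`log_big` in
  Pool/Agent/H57/LOW/Log.lean is for `Dg.cr`; import it if needed). `∑ κ` of the terms with a condition: `Finset.sum_comm`.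
* `awf_fc`: `∑ ρ ∈ RHf .., ∏ i, ∏ v ∈ f i, fC Dg χ i (cq ρ v) = AWf Dg Fr b E ε χ f`, and `fw_fa` for `fA`, `FW`: termwise (product of indicators, `ep` of a sum is the product: `aexp_ep_sum`).
* `tw_k`: for `χ ∈ J0` there is `lam` such that for all `φ` with `φ a x ≠ 0 → x ∈ Bi a.1` and all `Y`, `ω`:
  `∑ κ, PCU (φ a x * ep (xi (χ a.1) a.1 x)) (1, ∅, 1, u = uk D κ a.1, lam = 0) = ∑ κ, PCU φ (1, ∅, 1, uk D κ a.1, lam a.1 a'.1)`.
  PROOF. `θ` from `lo_phase` (Pool/Agent/H57/LOW/Lod.lean), `lam i j = dt (θ i) (Dg.s j)`. Exchange the sums; for fixed `h` (with `Wc`, so `Dj h`) let `f = clw (UM N Y) h`; `∑ κ` gives the factor `p^(N r) 1[∀ i, qf D (f i) = 0]` on both sides (`kd_sum`; `∑ a, ∑ v ∈ h a, uk D κ a.1 v = ∑ i, ∑ v ∈ f i, uk D κ i v`),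
  so we may assume `qf D (f i) = 0`. For every `ρ ∈ RHf L Dg 1 ∅ 1 f` both products over `a`, `v ∈ h a` vanish if some `cq ρ v ∉ Bi` (`v ∈ h a`, `a.1 = i`), otherwise the left one is the right one times `ep (∑ i, ∑ v ∈ f i, xi Dg (χ i) i (cq ρ v))`, and by `lo_phase` the exponent is
  `∑ i, ∑ v ∈ f i, dt (θ i) (fun k => LL v (akR D Dg.cr 1 f k)) = ∑ a, ∑ v ∈ h a, ∑ a', lam a.1 a'.1 * ∑ v' ∈ h a', LL v (pi v')` (`LL v` is additive on products: `ll_mul` in Pool/Agent/H51/CUB/BXA.lean or the library lemma; `akR D c 1 f k = ∏ i, ∏ v' ∈ f i, pi v' ^ (s i k).val`, see Pool/Agent/H38/BB/CDef.lean).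
* `fB_tw`, `fC_tw`: `fB Dg χ a x = fB Dg 0 a x * ep (xi Dg (χ a.1) a.1 x)` for `χ ∈ J0` (`xi Dg 0 = 0`; at `x = 0`: `xi Dg ψ i 0 = 0` by the first part of `InJ0`), `fB Dg 0 a x ≠ 0 → x ∈ Bi`; the same for `fC`.
-/

set_option autoImplicit false

open scoped NumberField
open IsDedekindDomain
open scoped Classical

noncomputable section

namespace H57.MP

open H57.PC H57.LOW H57.BRA H63.MA H38.BB H38.BG H51.CUB H77.PT

variable {K : Type} [Field K] [NumberField K] {p : ℕ} {ζ : K} {D : RD0 K p ζ} {Ω : Type}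
  [Field Ω] [Algebra K Ω] {m l w N : ℕ} {P R : Type} [Group P] [Group R]

private theorem md_mem {J : Type} [Fintype J] {X : ℝ} {h : J → Finset (Pl K)}
    (hh : h ∈ Fintype.piFinset (fun _ : J => GF D X)) : ∀ a, h a ∈ GF D X :=
  Fintype.mem_piFinset.1 hh

private theorem md_ep_sum [NeZero p] {I : Type*} (s : Finset I) (f : I → ZMod p) :
    ep p (∑ i ∈ s, f i) = ∏ i ∈ s, ep p (f i) := by
  have hadd : ∀ a b : ZMod p, ep p (a + b) = ep p a * ep p b := by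
    intro a b
    rw [rayc_std, rayc_std, rayc_std, AddChar.map_add_eq_mul]
  induction s using Finset.induction_on with
  | empty => rw [Finset.sum_empty, Finset.prod_empty, ep_zero]
  | insert a s ha ih => rw [Finset.sum_insert ha, Finset.prod_insert ha, hadd, ih]

private theorem md_xi_zero (Dg : GP p m l w N P R) {i : Fin N} {ψ : Fin l → ZMod p}
    (hψ : ∀ v, Dg.β v (Dg.s i) = 0 → dt ψ v = 0) : xi Dg ψ i 0 = 0 := by
  have hex : ∃ v, Dg.β v (Dg.s i) = 0 := ⟨0, by rw [map_zero, LinearMap.zero_apply]⟩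
  unfold H57.PC.xi
  rw [dif_pos hex]
  exact hψ _ hex.choose_spec

private theorem md_xi0 (Dg : GP p m l w N P R) (i : Fin N) (x : Fin w → ZMod p) :
    xi Dg 0 i x = 0 := by
  unfold H57.PC.xi
  split_ifs
  · simp [dt]
  · rfl

private theorem md_fC [NeZero p] (Dg : GP p m l w N P R) (χ : Fin N → Fin l → ZMod p) (i : Fin N)
    (x : Fin w → ZMod p) :
    fC Dg χ i x = fC Dg 0 i x * ep p (xi Dg (χ i) i x) ∧ (fC Dg 0 i x ≠ 0 → x ∈ Dg.Bi i) := by
  unfold fC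
  by_cases hx : x ∈ Dg.Bi i
  · rw [if_pos hx, if_pos hx, Pi.zero_apply, md_xi0, ep_zero, mul_one]
    exact ⟨rfl, fun _ => hx⟩
  · rw [if_neg hx, if_neg hx, zero_mul]
    exact ⟨rfl, fun h => absurd rfl h⟩

private theorem md_sum_clw' {J : Type} [Fintype J] {U : WY N J} {h : J → Finset (Pl K)}
    (hdj : Dj h) (g : Fin N → Pl K → ZMod p) :
    (∑ i, ∑ v ∈ clw U h i, g i v) = ∑ a, ∑ v ∈ h a, g (U.cls a) v := by
  unfold clw
  have h1 : ∀ i, (∑ v ∈ (Finset.univ.filter fun a => U.cls a = i).biUnion h, g i v) =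
      ∑ a ∈ Finset.univ.filter (fun a => U.cls a = i), ∑ v ∈ h a, g (U.cls a) v := by
    intro i
    rw [Finset.sum_biUnion (fun a _ a' _ hne => hdj a a' hne)]
    refine Finset.sum_congr rfl fun a ha => ?_
    rw [(Finset.mem_filter.1 ha).2]
  rw [Finset.sum_congr rfl fun i _ => h1 i]
  exact Finset.sum_fiberwise _ _ _

private theorem md_sum_clw {Y : ℝ} {h : Fin N × Fin 3 → Finset (Pl K)}
    (hdj : Dj h) (g : Fin N → Pl K → ZMod p) :
    (∑ i, ∑ v ∈ clw (UM N Y) h i, g i v) = ∑ a, ∑ v ∈ h a, g a.1 v :=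
  md_sum_clw' (U := UM N Y) hdj g

private theorem md_dt_ak [NeZero p] (hp : p.Prime) (hζ : IsPrimitiveRoot ζ p) (c : CR p m N)
    (f : Fin N → Finset (Pl K)) {v : Pl K} (hv : v ∉ D.S0) (θ : Fin m → ZMod p) :
    dt θ (fun k => D.LL v (akR D c (fun _ => 1) f k)) =
      ∑ j, dt θ (c.x j) * ∑ v' ∈ f j, D.LL v (D.pi v') := by
  have h1 : ∀ k, D.LL v (akR D c (fun _ => 1) f k) =
      ∑ j, c.x j k * ∑ v' ∈ f j, D.LL v (D.pi v') := by
    intro k
    unfold akR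
    rw [one_mul, aexp_LL_prod hp hζ D hv]
    refine Finset.sum_congr rfl fun j _ => ?_
    rw [aexp_LL_prod hp hζ D hv, Finset.mul_sum]
    refine Finset.sum_congr rfl fun v' _ => ?_
    exact aexp_LL_pow hp hζ D hv _ _
  unfold dt
  simp only [h1]
  have h2 : ∀ k, θ k * ∑ j, c.x j k * ∑ v' ∈ f j, D.LL v (D.pi v') =
      ∑ j, θ k * c.x j k * ∑ v' ∈ f j, D.LL v (D.pi v') := by
    intro k
    rw [Finset.mul_sum]
    refine Finset.sum_congr rfl fun j _ => ?_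
    rw [mul_assoc]
  rw [Finset.sum_congr rfl fun k _ => h2 k, Finset.sum_comm]
  refine Finset.sum_congr rfl fun j _ => ?_
  rw [Finset.sum_mul]

theorem kd_sum [NeZero p] (hp : p.Prime) (D : RD0 K p ζ) (f : Fin N → Finset (Pl K)) :
    (∑ κ : Fin N → Fin D.r → ZMod p, ep p (∑ i, ∑ v ∈ f i, uk D κ i v)) =
      if ∀ i, qf D (f i) = 0 then (p : ℂ) ^ (N * D.r) else 0 := by
  have h1 : ∀ κ : Fin N → Fin D.r → ZMod p, ep p (∑ i, ∑ v ∈ f i, uk D κ i v) =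
      ∏ i, ∏ j, ep p (κ i j * qf D (f i) j) := by
    intro κ
    rw [aexp_ep_sum hp]
    refine Finset.prod_congr rfl fun i _ => ?_
    rw [← aexp_ep_sum hp]
    congr 1
    unfold uk qf
    rw [Finset.sum_comm]
    refine Finset.sum_congr rfl fun j _ => ?_
    rw [Finset.sum_apply, Finset.mul_sum]
  have h2 : ∀ i, (∏ j : Fin D.r, ∑ a : ZMod p, ep p (a * qf D (f i) j)) =
      ∑ x : Fin D.r → ZMod p, ∏ j, ep p (x j * qf D (f i) j) := by
    intro i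
    rw [Finset.prod_univ_sum, Fintype.piFinset_univ]
  have h3 : (∏ i : Fin N, ∑ x : Fin D.r → ZMod p, ∏ j, ep p (x j * qf D (f i) j)) =
      ∑ κ : Fin N → Fin D.r → ZMod p, ∏ i, ∏ j, ep p (κ i j * qf D (f i) j) := by
    rw [Finset.prod_univ_sum, Fintype.piFinset_univ]
  rw [Finset.sum_congr rfl fun κ _ => h1 κ, ← h3]
  have h4 : ∀ i, (∑ x : Fin D.r → ZMod p, ∏ j, ep p (x j * qf D (f i) j)) =
      if qf D (f i) = 0 then (p : ℂ) ^ D.r else 0 := by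
    intro i
    rw [← h2]
    simp only [ep_sum hp]
    rw [Finset.prod_ite_zero]
    by_cases h : qf D (f i) = 0
    · rw [if_pos h, if_pos (fun j _ => by rw [h]; rfl), Finset.prod_const, Finset.card_univ,
        Fintype.card_fin]
    · rw [if_neg h, if_neg]
      intro h'
      exact h (funext fun j => h' j (Finset.mem_univ j))
  simp only [h4]
  rw [Finset.prod_ite_zero]
  by_cases h : ∀ i, qf D (f i) = 0
  · rw [if_pos h, if_pos (fun i _ => h i), Finset.prod_const, Finset.card_univ,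
      Fintype.card_fin, ← pow_mul, mul_comm D.r N]
  · rw [if_neg h, if_neg]
    intro h'
    exact h fun i => h' i (Finset.mem_univ i)

theorem kd_pf0 [NeZero p] (hp : p.Prime) {L : LDs D Ω} (Dg : GP p m l w N P R) (Fr : FR L)
    (φ : Fin N → (Fin w → ZMod p) → ℂ) (Y : ℝ) :
    (∑ κ : Fin N → Fin D.r → ZMod p,
        PF0 Dg Fr φ (fun _ => 1) ∅ (fun _ _ => 1) (uk D κ) (fun _ _ => 0) Y) =
      (p : ℂ) ^ (N * D.r) *
        ∑ f ∈ (Fam0 D N (2 * Y)).filter (fun f => Big (thr Y 1) f),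
          ((wl ((∏ i, nr (f i)) / Y) : ℝ) : ℂ) *
            ∑ ρ ∈ RHf L Dg (fun _ => 1) ∅ (fun _ _ => 1) f,
              ∏ i, ∏ v ∈ f i, φ i (cq Dg Fr ρ v) := by
  have hUU : ∀ (κ : Fin N → Fin D.r → ZMod p) (f : Fin N → Finset (Pl K)),
      UU D (uk D κ) (fun _ _ => 0) f = ∑ i, ∑ v ∈ f i, uk D κ i v := by
    intro κ f
    unfold UU
    refine Finset.sum_congr rfl fun i _ => Finset.sum_congr rfl fun v _ => ?_
    simp only [zero_mul, Finset.sum_const_zero, add_zero]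
  unfold PF0
  rw [Finset.sum_comm]
  unfold Fam0
  rw [Finset.filter_filter, Finset.sum_filter, Finset.mul_sum]
  refine Finset.sum_congr rfl fun f _ => ?_
  set A : ℂ := ((wl ((∏ i, nr (f i)) / Y) : ℝ) : ℂ) *
    ∑ ρ ∈ RHf L Dg (fun _ => 1) ∅ (fun _ _ => 1) f, ∏ i, ∏ v ∈ f i, φ i (cq Dg Fr ρ v) with hA
  by_cases hc : (Dj f ∧ (∀ i, Disjoint (f i) ∅) ∧ ∏ i, nr (f i) ≤ 2 * Y ∧
      SpR Dg.cr (fun _ => (1 : Kˣ)) f) ∧ Big (thr Y 1) f
  · simp only [if_pos hc]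
    rw [← Finset.mul_sum]
    simp only [hUU]
    rw [kd_sum hp D f]
    by_cases hq : ∀ i, qf D (f i) = 0
    · rw [if_pos hq, if_pos ⟨⟨hc.1.1, hc.1.2.2.1, hq⟩, hc.2⟩]
      ring
    · rw [if_neg hq, if_neg (fun h => hq h.1.2.2), mul_zero, mul_zero]
  · simp only [if_neg hc]
    rw [Finset.sum_const_zero, if_neg, mul_zero]
    rintro ⟨⟨h1, h2, -⟩, h4⟩
    exact hc ⟨⟨h1, fun i => Finset.disjoint_empty_right _, h2, log_big Dg _ h4⟩, h4⟩

theorem fw_fa [NeZero p] {L : LDs D Ω} (Dg : GP p m l w N P R) (Fr : FR L) (b : Fin m → Kˣ)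
    (E : Finset (Pl K)) (ε : Pl K → Gal(Ω/K) → R) (f : Fin N → Finset (Pl K)) :
    ((FW Dg Fr b E ε f : ℝ) : ℂ) =
      ∑ ρ ∈ RHf L Dg b E ε f, ∏ i, ∏ v ∈ f i, fA Dg i (cq Dg Fr ρ v) := by
  unfold FW
  rw [Complex.ofReal_sum]
  refine Finset.sum_congr rfl fun ρ _ => ?_
  have h1 : ∀ i, (∏ v ∈ f i, fA Dg i (cq Dg Fr ρ v)) =
      if ∀ v ∈ f i, cq Dg Fr ρ v = 0 then (Dg.Wn i : ℂ) ^ (f i).card else 0 := by
    intro i
    unfold fA
    rw [Finset.prod_ite_zero, Finset.prod_const]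
  simp only [h1]
  rw [Finset.prod_ite_zero]
  by_cases h : ∀ i, ∀ v ∈ f i, cq Dg Fr ρ v = 0
  · rw [if_pos h, if_pos (fun i _ => h i)]
    push_cast
    rfl
  · rw [if_neg h, if_neg (fun h' => h fun i => h' i (Finset.mem_univ i)), Complex.ofReal_zero]

theorem awf_fc [NeZero p] {L : LDs D Ω} (Dg : GP p m l w N P R) (Fr : FR L) (b : Fin m → Kˣ)
    (E : Finset (Pl K)) (ε : Pl K → Gal(Ω/K) → R) (χ : Fin N → Fin l → ZMod p)
    (f : Fin N → Finset (Pl K)) :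
    AWf Dg Fr b E ε χ f =
      ∑ ρ ∈ RHf L Dg b E ε f, ∏ i, ∏ v ∈ f i, fC Dg χ i (cq Dg Fr ρ v) := by
  unfold AWf
  refine Finset.sum_congr rfl fun ρ _ => ?_
  have h1 : ∀ i, (∏ v ∈ f i, fC Dg χ i (cq Dg Fr ρ v)) =
      if ∀ v ∈ f i, cq Dg Fr ρ v ∈ Dg.Bi i then
        ∏ v ∈ f i, ((((Dg.Wn i : ℝ) / Nat.card (Dg.Bi i) : ℝ) : ℂ) *
          ep p (xi Dg (χ i) i (cq Dg Fr ρ v))) else 0 := by
    intro i
    unfold fC
    rw [Finset.prod_ite_zero]
  simp only [h1]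
  rw [Finset.prod_ite_zero]
  by_cases h : ∀ i, ∀ v ∈ f i, cq Dg Fr ρ v ∈ Dg.Bi i
  · rw [if_pos h, if_pos (fun i _ => h i), md_ep_sum, Complex.ofReal_prod,
      ← Finset.prod_mul_distrib]
    refine Finset.prod_congr rfl fun i _ => ?_
    rw [md_ep_sum, Finset.prod_mul_distrib, Finset.prod_const, Complex.ofReal_pow]
  · rw [if_neg h, if_neg (fun h' => h fun i => h' i (Finset.mem_univ i))]

theorem fB_tw [NeZero p] (Dg : GP p m l w N P R) {χ : Fin N → Fin l → ZMod p}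
    (hχ : χ ∈ J0 Dg) (a : Fin N × Fin 3) (x : Fin w → ZMod p) :
    fB Dg χ a x = fB Dg 0 a x * ep p (xi Dg (χ a.1) a.1 x) ∧
      (fB Dg 0 a x ≠ 0 → x ∈ Dg.Bi a.1) := by
  have hχ' : InJ0 Dg χ := by
    unfold J0 at hχ
    exact (Finset.mem_filter.1 hχ).2
  by_cases ha : a.2 = 0
  · unfold fB
    rw [if_pos ha, if_pos ha]
    unfold fA
    by_cases hx : x = 0
    · rw [if_pos hx, hx, md_xi_zero Dg (hχ'.1 a.1), ep_zero, mul_one]
      exact ⟨rfl, fun _ => Submodule.zero_mem _⟩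
    · rw [if_neg hx, zero_mul]
      exact ⟨rfl, fun h => absurd rfl h⟩
  · unfold fB
    rw [if_neg ha, if_neg ha]
    exact md_fC Dg χ a.1 x

theorem fC_tw [NeZero p] (Dg : GP p m l w N P R) (χ : Fin N → Fin l → ZMod p) (i : Fin N)
    (x : Fin w → ZMod p) :
    fC Dg χ i x = fC Dg 0 i x * ep p (xi Dg (χ i) i x) ∧ (fC Dg 0 i x ≠ 0 → x ∈ Dg.Bi i) := by
  exact md_fC Dg χ i x

theorem tw_k [NeZero p] [Finite P] [IsAlgClosure K Ω] (hp : p.Prime) (hp2 : p ≠ 2)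
    (hζ : IsPrimitiveRoot ζ p) (hz : Z2 p K) {L : LDs D Ω} (Dg : GP p m l w N P R) (Fr : FR L)
    (χ : Fin N → Fin l → ZMod p) (hχ : χ ∈ J0 Dg) :
    ∃ lam : Fin N → Fin N → ZMod p, ∀ φ : Fin N × Fin 3 → (Fin w → ZMod p) → ℂ,
      (∀ a x, φ a x ≠ 0 → x ∈ Dg.Bi a.1) → ∀ (ω : Finset (Fin N × Fin 3) → ℂ) (Y : ℝ),
        (∑ κ : Fin N → Fin D.r → ZMod p,
          PCU Dg Fr (UM N Y) (fun a x => φ a x * ep p (xi Dg (χ a.1) a.1 x)) (fun _ => 1) ∅
            (fun _ _ => 1) (fun a => uk D κ a.1) (fun _ _ => 0) ω Y) =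
        ∑ κ : Fin N → Fin D.r → ZMod p,
          PCU Dg Fr (UM N Y) φ (fun _ => 1) ∅ (fun _ _ => 1) (fun a => uk D κ a.1)
            (fun a a' => lam a.1 a'.1) ω Y := by
  have hχ' : InJ0 Dg χ := by
    unfold J0 at hχ
    exact (Finset.mem_filter.1 hχ).2
  obtain ⟨θ, -, -, hθ⟩ := lo_phase hp hp2 hζ hz (L := L) Dg Fr χ hχ'
  refine ⟨fun i j => dt (θ i) (Dg.s j), ?_⟩
  intro φ hφ ω Y
  unfold PCU
  rw [Finset.sum_comm]
  conv_rhs => rw [Finset.sum_comm]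
  refine Finset.sum_congr rfl fun h hh => ?_
  by_cases hc : Wc D (UM N Y) ∅ Y h ∧ SpR Dg.cr (fun _ => (1 : Kˣ)) (clw (UM N Y) h)
  swap
  · simp only [if_neg hc]
  simp only [if_pos hc]
  have hdj : Dj h := hc.1.1
  have hgd : ∀ a, ∀ v ∈ h a, D.Gd v := fun a =>
    (aexp_mem_GF.1 (md_mem hh a)).2
  obtain ⟨f, hf⟩ : ∃ f, f = clw (UM N Y) h := ⟨_, rfl⟩
  have hsum : ∀ g : Fin N → Pl K → ZMod p, (∑ i, ∑ v ∈ f i, g i v) =
      ∑ a, ∑ v ∈ h a, g a.1 v := fun g => by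
    rw [hf]
    exact md_sum_clw hdj g
  have hmem : ∀ i v, v ∈ f i ↔ ∃ a, a.1 = i ∧ v ∈ h a := by
    intro i v
    rw [hf]
    unfold clw
    simp only [Finset.mem_biUnion, Finset.mem_filter, Finset.mem_univ, true_and]
    rfl
  have hfdj : Dj f := by
    intro i j hij
    rw [Finset.disjoint_left]
    intro v hv hv'
    obtain ⟨a, ha, hva⟩ := (hmem i v).1 hv
    obtain ⟨a', ha', hva'⟩ := (hmem j v).1 hv'
    have hne : a ≠ a' := by
      rintro rfl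
      exact hij (ha.symm.trans ha')
    exact Finset.disjoint_left.1 (hdj a a' hne) hva hva'
  have hfgd : ∀ i, ∀ v ∈ f i, D.Gd v := by
    intro i v hv
    obtain ⟨a, _, hva⟩ := (hmem i v).1 hv
    exact hgd a v hva
  -- the two phases
  set T : ZMod p := ∑ a, ∑ v ∈ h a, ∑ a' : Fin N × Fin 3,
    dt (θ a.1) (Dg.s a'.1) * ∑ v' ∈ h a', D.LL v (D.pi v') with hT
  have hU0 : ∀ κ : Fin N → Fin D.r → ZMod p,
      UU D (fun a : Fin N × Fin 3 => uk D κ a.1) (fun _ _ => 0) h =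
        ∑ i, ∑ v ∈ f i, uk D κ i v := by
    intro κ
    rw [hsum]
    unfold UU
    refine Finset.sum_congr rfl fun i _ => Finset.sum_congr rfl fun v _ => ?_
    simp only [zero_mul, Finset.sum_const_zero, add_zero]
  have hU1 : ∀ κ : Fin N → Fin D.r → ZMod p,
      UU D (fun a : Fin N × Fin 3 => uk D κ a.1) (fun a a' => dt (θ a.1) (Dg.s a'.1)) h =
        (∑ i, ∑ v ∈ f i, uk D κ i v) + T := by
    intro κ
    rw [hsum, hT, ← Finset.sum_add_distrib]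
    unfold UU
    refine Finset.sum_congr rfl fun a _ => ?_
    rw [← Finset.sum_add_distrib]
  simp only [hU0, hU1, ep_add hp]
  rw [← Finset.mul_sum, ← Finset.mul_sum, ← Finset.sum_mul, kd_sum hp D f]
  by_cases hq : ∀ i, qf D (f i) = 0
  swap
  · rw [if_neg hq, zero_mul, mul_zero, mul_zero]
  rw [if_pos hq, ← hf]
  have hkey : (∑ ρ ∈ RHf L Dg (fun _ => 1) ∅ (fun _ _ => 1) f,
      ∏ a, ∏ v ∈ h a, φ a (cq Dg Fr ρ v) * ep p (xi Dg (χ a.1) a.1 (cq Dg Fr ρ v))) =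
      (∑ ρ ∈ RHf L Dg (fun _ => 1) ∅ (fun _ _ => 1) f,
        ∏ a, ∏ v ∈ h a, φ a (cq Dg Fr ρ v)) * ep p T := by
    rw [Finset.sum_mul]
    refine Finset.sum_congr rfl fun ρ hρ => ?_
    have hρ' : ρ ∈ RH L Dg (fun _ => 1) ∅ (fun _ _ => 1) f := by
      unfold RHf at hρ
      split_ifs at hρ with hfin
      · exact hfin.mem_toFinset.1 hρ
      · exact absurd hρ (Finset.notMem_empty ρ)
    by_cases hB : ∀ a, ∀ v ∈ h a, cq Dg Fr ρ v ∈ Dg.Bi a.1
    · have h1 : (∏ a, ∏ v ∈ h a, φ a (cq Dg Fr ρ v) * ep p (xi Dg (χ a.1) a.1 (cq Dg Fr ρ v))) =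
          (∏ a, ∏ v ∈ h a, φ a (cq Dg Fr ρ v)) *
            ep p (∑ a, ∑ v ∈ h a, xi Dg (χ a.1) a.1 (cq Dg Fr ρ v)) := by
        rw [aexp_ep_sum hp, ← Finset.prod_mul_distrib]
        refine Finset.prod_congr rfl fun a _ => ?_
        rw [aexp_ep_sum hp, ← Finset.prod_mul_distrib]
      rw [h1]
      congr 2
      have h2 := hθ f hfdj hfgd hq ρ hρ' (by
        intro i v hv
        obtain ⟨a, ha, hva⟩ := (hmem i v).1 hv
        rw [← ha]
        exact hB a v hva)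
      rw [hsum (fun i v => xi Dg (χ i) i (cq Dg Fr ρ v)),
        hsum (fun i v => dt (θ i) (fun k => D.LL v (akR D Dg.cr (fun _ => 1) f k)))] at h2
      rw [h2, hT]
      refine Finset.sum_congr rfl fun a _ => Finset.sum_congr rfl fun v hv => ?_
      rw [md_dt_ak hp hζ Dg.cr f (hgd a v hv).1 (θ a.1)]
      have h3 := md_sum_clw' (U := UM N Y) hdj
        (fun j v' => dt (θ a.1) (Dg.cr.x j) * D.LL v (D.pi v'))
      rw [← hf] at h3
      have h4 : (∑ j, dt (θ a.1) (Dg.cr.x j) * ∑ v' ∈ f j, D.LL v (D.pi v')) =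
          ∑ j, ∑ v' ∈ f j, dt (θ a.1) (Dg.cr.x j) * D.LL v (D.pi v') :=
        Finset.sum_congr rfl fun j _ => Finset.mul_sum _ _ _
      rw [h4, h3]
      refine Finset.sum_congr rfl fun a' _ => ?_
      rw [Finset.mul_sum]
      rfl
    · push Not at hB
      obtain ⟨a, v, hv, hnB⟩ := hB
      have h0 : φ a (cq Dg Fr ρ v) = 0 := by
        by_contra hne
        exact hnB (hφ a _ hne)
      rw [Finset.prod_eq_zero (Finset.mem_univ a) (Finset.prod_eq_zero hv (by rw [h0, zero_mul])),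
        Finset.prod_eq_zero (Finset.mem_univ a) (Finset.prod_eq_zero hv h0), zero_mul]
  rw [hkey]
  ring

end H57.MP
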