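import Pool.Agent.H57.MP.Mb
import Pool.Agent.H57.MP.Md
import Pool.Agent.H57.LOW.Loh

/-!
# [H57 MP ME] the main identity, 80-130 lines. File Pool/Agent/H57/MP/Me.lean

`mids : MIdS Dg Fr (fun Y => thr Y 1)` (`MIdS`: Pool/Agent/H57/LOW/Loh.lean).

PROOF. Let `b = 1`, `E = ∅` (`nr ∅ = 1`, `BS2 D 1 ∅`: `ord v 1 = 0`), `ω = (omL S : ℂ)`, `q = p^(N r)`. For `κ` let `u_κ a = uk D κ a.1`. Let `Σ(φ) = ∑ f ∈ (Fam0 D N (2 Y)).filter Big, wl * ∑_ρ ∏ φ i (cq ρ v)`. By `kd_pf0` and `mg` (`PF0 φ u 0 = PCU (UM N Y) (φ a.1) (u a.1) 0 ω`):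
`q * Σ(φ) = ∑ κ, PCU (φ ∘ fst) u_κ 0`. The sum in `MIdS` is `Σ(fA) - ∑ χ ∈ J0, Σ(fC χ)` (`fw_fa`, `awf_fc`, `Finset.sum_sub_distrib`, `Finset.mul_sum`, `Finset.sum_comm`). So `q` times the sum in `MIdS` is
`∑ κ (PCU fA u_κ 0 - ∑ χ ∈ J0, PCU (fB χ) u_κ 0) + ∑ χ ∈ J0, (∑ κ, PCU (fB χ) u_κ 0 - ∑ κ, PCU (fC χ) u_κ 0)`, and by `tw_k` (with `fB_tw`, `fC_tw`; `φ = fB Dg 0`, `φ = fun a => fC Dg 0 a.1`, the same `lam_χ`) the last bracket is `∑ κ (PCU (fB 0) u_κ lam_χ - PCU (fC 0) u_κ lam_χ)`.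
`mp_a`, `mp_b` with `A = 1`: every bracket is at most `C Y (log Y)^(-1)`; there are `q` values of `κ` and `#J0` values of `χ`; divide by `q`: the norm is at most `(1 + #J0) C Y (log Y)^(-1) ≤ ε Y (log Y)^(N - 1)` for `Y` large (`(log Y)^(N - 1) ≥ 1`).
`Y` large: `exp ((log log Y)^5) ≤ thr Y 1` if `log log Y ≥ 1`.
-/

set_option autoImplicit false

open scoped NumberField
open IsDedekindDomain
open scoped Classical

noncomputable section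

namespace H57.MP

open H57.PC H57.LOW H57.BRA H63.MA H38.BB H38.BG H51.CUB H77.PT

variable {K : Type} [Field K] [NumberField K] {p : ℕ} {ζ : K} {Ω : Type} [Field Ω] [Algebra K Ω]
  [IsAlgClosure K Ω] {m l w N : ℕ} {P R : Type} [Group P] [Group R]

private theorem me_ord (v : Pl K) : ord v (1 : Kˣ) = 0 := by
  unfold ord
  simp

private theorem me_bs2 (D : RD0 K p ζ) : BS2 D (fun _ : Fin m => (1 : Kˣ)) ∅ :=
  ⟨fun v hv => absurd hv (Finset.notMem_empty v), fun _ v _ _ => me_ord v⟩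

theorem mids [NeZero p] [Finite P] [Finite R] (hp : p.Prime) (h2 : p ≠ 2) (hp2 : MOne p K)
    (hζ : IsPrimitiveRoot ζ p) (hz : Z2 p K) (D : RD K p ζ) (L : LDs D.toRD0 Ω) (Fr : FR L)
    (Dg : GP p m l w N P R) : MIdS Dg Fr (fun Y => thr Y 1) := by
  intro e he
  obtain ⟨C1, Y1, hC1, hY1, H1⟩ := mp_a hp hp2 hζ hz D L Fr Dg 1
  obtain ⟨C2, Y2, hC2, hY2, H2⟩ := mp_b hp hp2 hζ hz D L Fr Dg 1
  set CC : ℝ := C1 + (J0 Dg).card * C2 with hCC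
  have hCC0 : 0 < CC := by positivity
  refine ⟨max (max Y1 Y2) (max (Real.exp (Real.exp 1)) (Real.exp (CC / e))),
    le_trans hY1 (le_trans (le_max_left _ _) (le_max_left _ _)), fun Y hY => ?_⟩
  have hYa : Y1 ≤ Y := le_trans (le_trans (le_max_left _ _) (le_max_left _ _)) hY
  have hYb : Y2 ≤ Y := le_trans (le_trans (le_max_right _ _) (le_max_left _ _)) hY
  have hYc : Real.exp (Real.exp 1) ≤ Y :=
    le_trans (le_trans (le_max_left _ _) (le_max_right _ _)) hY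
  have hYd : Real.exp (CC / e) ≤ Y := le_trans (le_trans (le_max_right _ _) (le_max_right _ _)) hY
  have hYpos : 0 < Y := lt_of_lt_of_le (Real.exp_pos _) hYc
  have hl1 : Real.exp 1 ≤ Real.log Y := (Real.le_log_iff_exp_le hYpos).2 hYc
  have hl0 : 0 < Real.log Y := lt_of_lt_of_le (Real.exp_pos _) hl1
  have hl2 : CC / e ≤ Real.log Y := (Real.le_log_iff_exp_le hYpos).2 hYd
  have hl3 : 1 ≤ Real.log Y := le_trans (Real.one_le_exp zero_le_one) hl1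
  have hll : 1 ≤ Real.log (Real.log Y) := (Real.le_log_iff_exp_le hl0).2 hl1
  have hthr : Real.exp (Real.log (Real.log Y) ^ 5) ≤ thr Y 1 := by
    unfold thr
    exact Real.exp_le_exp.2 (pow_le_pow_right₀ hll (by norm_num))
  have hnr : nr (∅ : Finset (Pl K)) ≤ Real.exp (Real.log (Real.log Y) ^ 4) := by
    unfold nr
    rw [Finset.prod_empty]
    exact Real.one_le_exp (by positivity)
  have hbs : BS2 D.toRD0 (fun _ : Fin m => (1 : Kˣ)) ∅ := me_bs2 D.toRD0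
  -- abbreviations
  obtain ⟨X, hX⟩ : ∃ X : (Fin N × Fin 3 → (Fin w → ZMod p) → ℂ) →
      (Fin N → Fin D.r → ZMod p) → (Fin N → Fin N → ZMod p) → ℂ, X = fun φ κ lam =>
    PCU Dg Fr (UM N Y) φ (fun _ => (1 : Kˣ)) ∅ (fun _ _ => (1 : R)) (fun a => uk D.toRD0 κ a.1)
      (fun a a' => lam a.1 a'.1) (fun S => ((omL S : ℝ) : ℂ)) Y := ⟨_, rfl⟩
  obtain ⟨SS, hSS⟩ : ∃ SS : (Fin N → (Fin w → ZMod p) → ℂ) → ℂ, SS = fun φ =>
    ∑ f ∈ (Fam0 D.toRD0 N (2 * Y)).filter (fun f => Big (thr Y 1) f),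
      ((wl ((∏ i, nr (f i)) / Y) : ℝ) : ℂ) *
        ∑ ρ ∈ RHf L Dg (fun _ => 1) ∅ (fun _ _ => 1) f,
          ∏ i, ∏ v ∈ f i, φ i (cq Dg Fr ρ v) := ⟨_, rfl⟩
  have hdet : ∀ φ : Fin N → (Fin w → ZMod p) → ℂ,
      (p : ℂ) ^ (N * D.r) * SS φ = ∑ κ, X (fun a => φ a.1) κ (fun _ _ => 0) := by
    intro φ
    rw [hSS]
    simp only
    rw [← kd_pf0 hp Dg Fr φ Y, hX]
    refine Finset.sum_congr rfl fun κ _ => ?_
    rw [← mg Dg Fr φ (fun _ => 1) ∅ (fun _ _ => 1) (uk D.toRD0 κ) (fun _ _ => 0) Y hthr]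
  have hmain : (∑ f ∈ (Fam0 D.toRD0 N (2 * Y)).filter (fun f => Big (thr Y 1) f),
      ((wl ((∏ i, nr (f i)) / Y) : ℝ) : ℂ) *
        (((FW Dg Fr (fun _ => 1) ∅ (fun _ _ => 1) f : ℝ) : ℂ) -
          ∑ ψ ∈ J0 Dg, AWf Dg Fr (fun _ => 1) ∅ (fun _ _ => 1) ψ f)) =
      SS (fA Dg) - ∑ χ ∈ J0 Dg, SS (fC Dg χ) := by
    rw [hSS]
    simp only
    rw [Finset.sum_comm, ← Finset.sum_sub_distrib]
    refine Finset.sum_congr rfl fun f _ => ?_
    rw [mul_sub, fw_fa]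
    congr 1
    rw [Finset.mul_sum]
    exact Finset.sum_congr rfl fun χ _ => by rw [awf_fc]
  have hA : ∀ κ, ‖X (fun a => fA Dg a.1) κ (fun _ _ => 0) -
      ∑ χ ∈ J0 Dg, X (fB Dg χ) κ (fun _ _ => 0)‖ ≤ C1 * Y * (Real.log Y)⁻¹ := by
    intro κ
    have h := H1 Y hYa ∅ (fun _ => 1) hbs hnr (fun _ _ => 1) (fun a => uk D.toRD0 κ a.1)
      (fun _ _ => 0)
    rw [Real.rpow_neg_one] at h
    rw [hX]
    exact h
  have hB : ∀ κ lam, ‖X (fB Dg 0) κ lam - X (fun a => fC Dg 0 a.1) κ lam‖ ≤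
      C2 * Y * (Real.log Y)⁻¹ := by
    intro κ lam
    have h := H2 Y hYb ∅ (fun _ => 1) hbs hnr (fun _ _ => 1) (fun a => uk D.toRD0 κ a.1)
      (fun a a' => lam a.1 a'.1)
    rw [Real.rpow_neg_one] at h
    rw [hX]
    exact h
  have hcard : ∀ c : ℝ, (∑ _κ : Fin N → Fin D.r → ZMod p, c) = (p : ℝ) ^ (N * D.r) * c := by
    intro c
    rw [Finset.sum_const, Finset.card_univ, nsmul_eq_mul]
    congr 1
    rw [Fintype.card_fun, Fintype.card_fun, ZMod.card, Fintype.card_fin, Fintype.card_fin]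
    push_cast
    rw [← pow_mul, mul_comm D.r N]
  have hC : ∀ χ ∈ J0 Dg, ‖(∑ κ, X (fB Dg χ) κ (fun _ _ => 0)) -
      ∑ κ, X (fun a => fC Dg χ a.1) κ (fun _ _ => 0)‖ ≤
        (p : ℝ) ^ (N * D.r) * (C2 * Y * (Real.log Y)⁻¹) := by
    intro χ hχ
    obtain ⟨lam, hlam⟩ := tw_k hp h2 hζ hz Dg Fr χ hχ
    have e1 : (∑ κ, X (fB Dg χ) κ (fun _ _ => 0)) = ∑ κ, X (fB Dg 0) κ lam := by
      have h := hlam (fB Dg 0) (fun a x => (fB_tw Dg hχ a x).2)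
        (fun S => ((omL S : ℝ) : ℂ)) Y
      rw [hX]
      simp only
      rw [← h]
      refine Finset.sum_congr rfl fun κ _ => ?_
      congr 1
      funext a x
      exact (fB_tw Dg hχ a x).1
    have e2 : (∑ κ, X (fun a => fC Dg χ a.1) κ (fun _ _ => 0)) =
        ∑ κ, X (fun a => fC Dg 0 a.1) κ lam := by
      have h := hlam (fun a => fC Dg 0 a.1) (fun a x => (fC_tw Dg χ a.1 x).2)
        (fun S => ((omL S : ℝ) : ℂ)) Y
      rw [hX]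
      simp only
      rw [← h]
      refine Finset.sum_congr rfl fun κ _ => ?_
      congr 1
      funext a x
      exact (fC_tw Dg χ a.1 x).1
    rw [e1, e2, ← Finset.sum_sub_distrib, ← hcard]
    exact (norm_sum_le _ _).trans (Finset.sum_le_sum fun κ _ => hB κ lam)
  have hq : (0 : ℝ) < (p : ℝ) ^ (N * D.r) := pow_pos (Nat.cast_pos.2 hp.pos) _
  have hfin : ‖(p : ℂ) ^ (N * D.r) * (SS (fA Dg) - ∑ χ ∈ J0 Dg, SS (fC Dg χ))‖ ≤
      (p : ℝ) ^ (N * D.r) * (CC * Y * (Real.log Y)⁻¹) := by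
    have e1 : (p : ℂ) ^ (N * D.r) * (SS (fA Dg) - ∑ χ ∈ J0 Dg, SS (fC Dg χ)) =
        (∑ κ, (X (fun a => fA Dg a.1) κ (fun _ _ => 0) -
          ∑ χ ∈ J0 Dg, X (fB Dg χ) κ (fun _ _ => 0))) +
        ∑ χ ∈ J0 Dg, ((∑ κ, X (fB Dg χ) κ (fun _ _ => 0)) -
          ∑ κ, X (fun a => fC Dg χ a.1) κ (fun _ _ => 0)) := by
      rw [mul_sub, Finset.mul_sum, hdet, Finset.sum_sub_distrib, Finset.sum_sub_distrib,
        Finset.sum_comm, Finset.sum_congr rfl fun χ _ => hdet (fC Dg χ)]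
      ring
    rw [e1]
    refine (norm_add_le _ _).trans ?_
    have e2 := (norm_sum_le Finset.univ fun κ : Fin N → Fin D.r → ZMod p =>
      (X (fun a => fA Dg a.1) κ (fun _ _ => 0) -
          ∑ χ ∈ J0 Dg, X (fB Dg χ) κ (fun _ _ => 0))).trans
      (Finset.sum_le_sum fun κ _ => hA κ)
    rw [hcard] at e2
    have e3 := (norm_sum_le (J0 Dg) fun χ => ((∑ κ, X (fB Dg χ) κ (fun _ _ => 0)) -
          ∑ κ, X (fun a => fC Dg χ a.1) κ (fun _ _ => 0))).trans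
      (Finset.sum_le_sum fun χ hχ => hC χ hχ)
    rw [Finset.sum_const, nsmul_eq_mul] at e3
    refine (add_le_add e2 e3).trans (le_of_eq ?_)
    rw [hCC]
    ring
  rw [hmain]
  rw [norm_mul, norm_pow, Complex.norm_natCast] at hfin
  refine (le_of_mul_le_mul_left hfin hq).trans ?_
  have h3 : CC * (Real.log Y)⁻¹ ≤ e := by
    rw [← div_eq_mul_inv, div_le_iff₀ hl0]
    rw [div_le_iff₀ he] at hl2
    linarith [mul_comm (Real.log Y) e]
  have h4 : (1 : ℝ) ≤ Real.log Y ^ (N - 1) := one_le_pow₀ hl3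
  calc CC * Y * (Real.log Y)⁻¹ = CC * (Real.log Y)⁻¹ * Y := by ring
    _ ≤ e * Y := mul_le_mul_of_nonneg_right h3 hYpos.le
    _ = e * Y * 1 := (mul_one _).symm
    _ ≤ e * Y * Real.log Y ^ (N - 1) := mul_le_mul_of_nonneg_left h4 (by positivity)

end H57.MP
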