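import Pool.Agent.H57.MP.Mu
import Pool.Agent.H57.MP.Mf
import Pool.Agent.H77.PT.Fbd
import Pool.Agent.H77.PC3.CMa
import Pool.Agent.H77.PC3.CLo

/-!
# H57-MP-MH: the bounds for Sylow subgroups of class at most three
-/

set_option autoImplicit false

open scoped NumberField
open IsDedekindDomain
open scoped Classical

noncomputable section

namespace H57.MP

open H57.PC H57.LOW H57.BRA H63.MA H38.BB H38.BG H51.CUB H77.PT H77.PC3

theorem mupAll (p : ℕ) [NeZero p] (hp : p.Prime) : MUpAll p := by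
  intro K _ _ Ω _ _ _ ζ hζ hp2 hz D L Fr m l w N P R _ _ _ Dg hN
  haveI : Finite R := Finite.of_surjective Dg.q Dg.qs
  exact mup hp hp2 hζ hz D L Fr Dg hN

theorem fbdAll (p : ℕ) [NeZero p] (hp : p.Prime) : FBdAll p := fbd_all hp (mupAll p hp)

theorem lbdAll (p : ℕ) [NeZero p] (hp : p.Prime) (h2 : p ≠ 2) : LBdAll p :=
  lbAll_of_lb0All p hp h2 (lb0All p hp h2)

end H57.MP
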